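import Mathlib
import Pool.Agent.H6.LE.Defs

set_option autoImplicit false
set_option linter.unusedSectionVars false

/-!
# THEOREM LP (bounded depth formulas over parities, random 3-CNFs): definitions

Formulas `Fx n` over atoms: an atom is a set `S` of variables and has the value `px x S`, the parity of `x` on `S`; the value of
`F` is `F.eval (px x)`. `ax F`: the atoms of `F`; `vx F`: the variables (the union of the atoms); `lx F`: the length (the sum of
`max 1 |S|` over the occurrences of atoms). `wx k F b`: the sum of the weights of the blocks as in `Pool/Agent/H6/LE/Defs.lean` (`wb`), the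
weight of a block depends on its length `lx`. `lg s F`: the long atoms, those with more than `s` variables.

A world `W : Wd n` is a predicate on states `(D, x)` (see `Wld`). TRUTH: `Lx W D x F b`: locally true (`F` has the value `b` at all states of
`W` above `(D, x)` which give values to all variables of `F`). `Tx W c s thr D x F b i`: as `Tr` in `Pool/Agent/H6/LD/Defs.lean`, but a long atom
`S` which is not inside a small block (less than `thr (alternations)` length) has the value `c S` (a commitment); `i = true`: inside of a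
larger disjunction. TWO WORLDS: in `CrX` (certificates) truth is assumed in a world `W ≤ Con` and is proved in the plain world `Con`.

`Cms Con K Gd W`: abstract commitments. `G` is a finite set of atoms, `c` gives them values, `W G c` is the world of the states which are
consistent with these values; `Gd G`: `G` is good. `XW B b r G c`: the instance, `B j`, `b j` the equations.
-/

namespace Pool.H86.XP

open Finset Classical Pool.Agent.H3.Frg Pool.Agent.H3.Frg2 Pool.Agent.H3.Frg4 Pool.Agent.H55.QT Pool.H6.LD

/-- The parity of `x` on `S`. -/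
def px {n : ℕ} (x : Fin n → Bool) (S : Finset (Fin n)) : Bool :=
  decide (Odd (S.filter fun v => x v = true).card)

/-- Formulas over parities: the atoms are sets of variables. -/
abbrev Fx (n : ℕ) : Type := Fm (Finset (Fin n))

/-- The length: the number of occurrences of variables (the parity of the empty set counts 1). -/
def lx {n : ℕ} : Fx n → ℕ
  | .var S => max 1 S.card
  | .neg A => lx A
  | .imp A B => lx A + lx B

/-- The variables of a formula. -/
noncomputable def vx {n : ℕ} : Fx n → Finset (Fin n)
  | .var S => S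
  | .neg A => vx A
  | .imp A B => vx A ∪ vx B

/-- The atoms of a formula. -/
noncomputable def ax {n : ℕ} : Fx n → Finset (Finset (Fin n))
  | .var S => {S}
  | .neg A => ax A
  | .imp A B => ax A ∪ ax B

/-- The atoms with more than `s` variables. -/
noncomputable def lg {n : ℕ} (s : ℕ) (F : Fx n) : Finset (Finset (Fin n)) := (ax F).filter fun S => s < S.card

/-- The sum of the weights of the blocks of `F` (`b = true`) or `¬ F` (`b = false`), without the outermost
block if that is a conjunction. -/
def wx {n : ℕ} (k : ℕ) : Fx n → Bool → ℕ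
  | .var _, _ => 0
  | .neg A, b => wx k A (!b)
  | .imp A B, false => wx k A true + wx k B false
  | .imp A B, true => wx k A true + wx k B false + om k (lx (Fm.imp A B))

/-- The sum of the weights of the signed formulas of a list. -/
def lwx {n : ℕ} (k : ℕ) (l : List (Fx n × Bool)) : ℕ := (l.map fun p => wx k p.1 p.2).sum

/-- `F` has at most `M` different pieces (maximal subformulas with at most `k` alternations), of total weight at
most `W`. -/
def Fwx {n : ℕ} (k M W : ℕ) (F : Fx n) : Prop :=
  (ps k F).card ≤ M ∧ ∑ P ∈ ps k F, max (wx k P true) (wx k P false) ≤ W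

/-- Worlds. -/
abbrev Wd (n : ℕ) : Type := Finset (Fin n) → (Fin n → Bool) → Prop

section world

variable {n : ℕ}

/-- Locally true. -/
def Lx (W : Wd n) (D : Finset (Fin n)) (x : Fin n → Bool) (F : Fx n) (b : Bool) : Prop :=
  ∀ y, (∀ v ∈ D, y v = x v) → W (D ∪ vx F) y → F.eval (px y) = b

/-- Truth at a state, with commitments `c` for the atoms with more than `s` variables. -/
def Tx (W : Wd n) (c : Finset (Fin n) → Bool) (s : ℕ) (thr : ℕ → ℕ) (D : Finset (Fin n)) (x : Fin n → Bool) :
    Fx n → Bool → Bool → Prop
  | .var S, b, _ => if S.card ≤ s then Lx W D x (.var S) b else c S = b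
  | .neg A, b, i => Tx W c s thr D x A (!b) i
  | .imp A B, false, _ => Tx W c s thr D x A true false ∧ Tx W c s thr D x B false false
  | .imp A B, true, i =>
      if i = false ∧ lx (Fm.imp A B) < thr (alt (Fm.imp A B) true) then
        Lx W D x (.imp A B) true
      else Tx W c s thr D x A false true ∨ Tx W c s thr D x B true true

/-- All signed formulas of the list are true. -/
def TLx (W : Wd n) (c : Finset (Fin n) → Bool) (s : ℕ) (thr : ℕ → ℕ) (D : Finset (Fin n)) (x : Fin n → Bool)
    (l : List (Fx n × Bool)) : Prop :=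
  ∀ p ∈ l, Tx W c s thr D x p.1 p.2 false

/-- Truth of Boolean combinations of pieces: all values of the pieces which agree with the pieces that are
true or false at the state give `F` the value `b`. -/
def TTx (W : Wd n) (c : Finset (Fin n) → Bool) (s : ℕ) (thr : ℕ → ℕ) (k : ℕ) (D : Finset (Fin n)) (x : Fin n → Bool)
    (F : Fx n) (b : Bool) : Prop :=
  ∀ v : Fx n → Bool, (∀ P ∈ ps k F, ∀ a, Tx W c s thr D x P a false → v P = a) → evp k v F = b

/-- The atoms in `G` have their committed values. -/
def Cmt (W : Wd n) (c : Finset (Fin n) → Bool) (G : Finset (Finset (Fin n))) : Prop :=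
  ∀ S ∈ G, ∀ D y, S ⊆ D → W D y → px y S = c S

/-- Certificates, two worlds: if `l` is true in the world `W ≤ Con` at a state `U' x'` above `U x` with at most `K - k` variables, then it
is true in the world `Con` at a state `D y`, compatible in `W` with `U' x'`, with at most `k` variables. -/
def CrX (Con : Wd n) (s : ℕ) (thr : ℕ → ℕ) (K k : ℕ) (U : Finset (Fin n)) (x : Fin n → Bool)
    (l : List (Fx n × Bool)) : Prop :=
  ∀ (W : Wd n) (c : Finset (Fin n) → Bool), Wld W K → (∀ D y, W D y → Con D y) →
    ∀ U' x', U ⊆ U' → (∀ v ∈ U, x' v = x v) → W U' x' → U'.card + k ≤ K → TLx W c s thr U' x' l →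
      ∃ D y, D.card ≤ k ∧ (∀ v ∈ U', y v = x' v) ∧ W (U' ∪ D) y ∧ TLx Con c s thr D y l

/-- There are good tests (for the plain world) of total weight at most `w` such that all states which hit them
have certificates for `l`. -/
def KlX (Con : Wd n) (s : ℕ) (thr : ℕ → ℕ) (q K k : ℕ) (w : ℝ) (l : List (Fx n × Bool)) : Prop :=
  ∃ T : Finset (Tst n), (∀ t ∈ T, GT Con t) ∧ ∑ t ∈ T, wt q t ≤ w ∧
    ∀ U x, (∀ t ∈ T, Hit U x t) → CrX Con s thr K k U x l

/-- Certificates for lists of weight at most `C n` with at most `d` alternations. -/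
def KilX (s : ℕ) (sub : ℕ → ℝ → ℝ) (thr : ℕ → ℕ) (C : ℝ) (q d : ℕ) (c η : ℝ) (n : ℕ) : Prop :=
  ∀ (Con : Wd n) (K k : ℕ), Wld Con K → (∀ A ν, 0 < ν → SubT Con A ν (sub A ν)) → c * n ≤ k →
    ∀ l : List (Fx n × Bool), (lwx s l : ℝ) ≤ C * n → (∀ p ∈ l, alt p.1 p.2 ≤ d) →
      KlX Con s thr q K k (2 ^ (-η * n)) l

/-- Abstract commitments. -/
structure Cms (Con : Wd n) (K : ℕ) (Gd : Finset (Finset (Fin n)) → Prop)
    (W : Finset (Finset (Fin n)) → (Finset (Fin n) → Bool) → Wd n) : Prop where
  wld : ∀ G c D y, Gd G → W G c D y → Wld (W G c) K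
  le : ∀ G c D y, W G c D y → Con D y
  emp : ∀ c D y, Con D y → W ∅ c D y
  res : ∀ G G' c c' D y, G' ⊆ G → (∀ S ∈ G', c' S = c S) → W G c D y → W G' c' D y
  cmt : ∀ G c, Cmt (W G c) c G
  ext : ∀ G G' c D y, Gd G' → G ⊆ G' → D.card ≤ K → W G c D y →
    ∃ c', (∀ S ∈ G, c' S = c S) ∧ W G' c' D y
  real : ∀ G c D y, W G c D y → ∃ z, (∀ v ∈ D, z v = y v) ∧ ∀ S ∈ G, px z S = c S

/-- Derivations: elements of `Γ`, instances of schemes, modus ponens, resolution on an atom together with weakening (for formulas with at
most `k` alternations, read as sets of disjuncts). -/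
def DerX (k : ℕ) (Sch : Set (Fm ℕ)) (Γ : Set (Fx n)) {N : ℕ} (pf : Fin N → Fx n) : Prop :=
  ∀ i, pf i ∈ Γ ∨ (∃ ψ ∈ Sch, ∃ σ : ℕ → Fx n, pf i = ψ.bind σ) ∨
    (∃ j l, j < i ∧ l < i ∧ pf l = Fm.imp (pf j) (pf i)) ∨
    (∃ j l, j < i ∧ l < i ∧ Pc k (pf j) ∧ Pc k (pf l) ∧ Pc k (pf i) ∧ ∃ S : Finset (Fin n),
      (∀ p ∈ dj (pf j) true, p = (Fm.var S, true) ∨ p ∈ dj (pf i) true) ∧
      (∀ p ∈ dj (pf l) true, p = (Fm.var S, false) ∨ p ∈ dj (pf i) true))

/-- The symmetric difference of the sets in `I`. -/
noncomputable def sdf (I : Finset (Finset (Fin n))) : Finset (Fin n) :=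
  univ.filter fun v => Odd (I.filter fun S => v ∈ S).card

/-- The world of the equations `B j`, `b j` with the commitments `c` for the atoms in `G`: all sums of at most `r` equations and
arbitrarily many commitments hold. -/
def XW {m : ℕ} (B : Fin m → Finset (Fin n)) (b : Fin m → Bool) (r : ℕ) (G : Finset (Finset (Fin n)))
    (c : Finset (Fin n) → Bool) : Wd n := fun D x =>
  ∀ (J : Finset (Fin m)) (I : Finset (Finset (Fin n))), J.card ≤ r → I ⊆ G →
    symmDiff (par B J) (sdf I) ⊆ D → sm x (symmDiff (par B J) (sdf I)) = sm b J + sm c I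

/-- Good sets of atoms: sums of atoms with few elements in `U₀` have few elements. -/
def GdX (U₀ : Finset (Fin n)) (K δ : ℕ) (G : Finset (Finset (Fin n))) : Prop :=
  ∀ I, I ⊆ G → (sdf I ∩ U₀).card ≤ K → (sdf I).card ≤ δ

/-- Separated sets: different elements are not joined by at most four clauses. -/
def Sep {m : ℕ} (B : Fin m → Finset (Fin n)) (U₀ : Finset (Fin n)) : Prop :=
  ∀ u ∈ U₀, ∀ v ∈ U₀, v ∈ (nb B)^[4] {u} → u = v

end world

/-- every set of at most `r` clauses has at least `15/8` times as many variables -/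
def Exp15 {n m : ℕ} (r : ℕ) (φ : Fin m → Cl n) : Prop :=
  ∀ I : Finset (Fin m), I.card ≤ r → 15 * I.card ≤ 8 * (I.biUnion fun j => cvar (φ j)).card

/-- The axioms of length at most `k`: the formulas over parities which follow from the clauses of `φ` whose variables are variables of
the formula. -/
def AxX {n m : ℕ} (φ : Fin m → Cl n) (k : ℕ) : Set (Fx n) :=
  {F | lx F ≤ k ∧ ∀ y : Fin n → Bool, (∀ j, cvar (φ j) ⊆ vx F → ∃ a, y ((φ j).1 a) = (φ j).2 a) → F.eval (px y) = true}

/-- The right side of the equation of a clause without the variables in `U₀`: the number of true literals with variables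
outside of `U₀` is odd. -/
def rhs {n : ℕ} (c : Cl n) (U₀ : Finset (Fin n)) : Bool :=
  decide (Even (univ.filter fun a => c.1 a ∉ U₀ ∧ c.2 a = false).card)

/-- The valid formulas over parities with at most `k` occurrences of atoms. -/
def ValX (n k : ℕ) : Set (Fx n) := {F | F.leaves ≤ k ∧ ∀ x : Fin n → Bool, F.eval (px x) = true}

section res

/-- Linear clauses: a pair `(S, b)` is the equation `parity of S = b`. -/
abbrev Lc (n : ℕ) : Type := Finset (Finset (Fin n) × Bool)

/-- The length of a linear clause. -/
def lcl {n : ℕ} (C : Lc n) : ℕ := ∑ p ∈ C, max 1 p.1.card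

/-- Derivations in resolution over parities from the clauses of `φ`: valid linear clauses with at most `k` equations, resolution,
weakening. -/
def DerR {n m : ℕ} (k : ℕ) (φ : Fin m → Cl n) {N : ℕ} (C : Fin N → Lc n) : Prop :=
  ∀ i, (∃ j, C i = univ.image fun a => ({(φ j).1 a}, (φ j).2 a)) ∨
    ((C i).card ≤ k ∧ ∀ x : Fin n → Bool, ∃ p ∈ C i, px x p.1 = p.2) ∨
    (∃ j l S, j < i ∧ l < i ∧ C j ⊆ insert (S, true) (C i) ∧ C l ⊆ insert (S, false) (C i))

/-- A linear clause as a formula (with the additional disjunct: parity of the empty set). -/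
noncomputable def fC {n : ℕ} (C : Lc n) : Fx n := Pool.H6.QL.clF (∅, true) C.toList

end res

end Pool.H86.XP
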