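import Mathlib
import Pool.Agent.H6.LD.Ind
import Pool.Agent.H86.XP.Defs

set_option autoImplicit false
set_option linter.unusedSectionVars false

/-!
# Module EXT (THEOREM LP): expansion of the supports without the isolated variables

`B j := cvar (φ j)` (three variables), `B' j := B j \ U₀`. PROOF. Let `J.card ≤ r`. `par B' J = par B J \ U₀` (for `v ∉ U₀` the conditions are the same, for `v ∈ U₀` no `B' j` contains it). `J1` = the `j ∈ J` for which `B j` is disjoint from `B i` for all `i ∈ J`, `i ≠ j`; `J2 = J \ J1`.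
(a) Every `B j` contains at most one element of `U₀`: if `u, v ∈ B j ∩ U₀` then `v ∈ nb B {u}`, so `u = v` by `Sep` (`nb_mono`: `nb ⊆ nb^4`). Hence `(B j \ U₀).card ≥ 2` for `j ∈ J1`, these sets are pairwise disjoint, disjoint from the `B i`, `i ∈ J2`, and contained in `par B' J` (each element lies in exactly one
`B i`, `i ∈ J`).
(b) `Exp15` for `J2` (`J2.card ≤ r`): `8 * union ≥ 15 * J2.card`. The number `u1` of the `x` in exactly one `B i`, `i ∈ J2`, is at least `2 * union - 3 * J2.card` (see `par_big` in `Pool/Agent/H55/QT/Xor.lean`: `u1 + 2 * u2 ≤ 3 * J2.card`, `u1 + u2 = union`), so `4 * u1 ≥ 3 * J2.card`. These `x` lie in `par B J`.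
(c) The elements `u ∈ U₀` in the union of the `B i`, `i ∈ J2`: choose `j_u ∈ J2` with `u ∈ B j_u`, and `i_u ∈ J`, `i_u ≠ j_u`, `B i_u` meets `B j_u` (exists because `j_u ∉ J1`); then also `i_u ∈ J2`. For different `u, u'` the pairs `{j_u, i_u}`, `{j_u', i_u'}` are disjoint: a common element would give
`u' ∈ (nb B)^[3] {u}` (`u ∈ B j_u`, so `B j_u ⊆ nb B {u}`, `B i_u ⊆ (nb B)^[2] {u}`, and `B j_u' ⊆ (nb B)^[3] {u}`), so `u = u'` by `Sep`. So the number of these `u` is at most `J2.card / 2`.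
(d) `(par B' J).card ≥ 2 * J1.card + u1 - J2.card / 2 ≥ 2 * J1.card + J2.card / 4`, so `4 * (par B' J).card ≥ J.card`.
Facts on `nb` (`Defs` of LD: `nb B S = S ∪ (the B j which meet S)`) are in `Pool/Agent/H6/LD/Ind.lean`: `nb_union`, `nb_symm`, `nb_mono`. `convert` may be needed if decidability instances of `par` differ.
-/

namespace Pool.H86.XP

open Finset Classical Pool.Agent.H55.QT Pool.H6.LD

private theorem ext_nb {n m : ℕ} {B : Fin m → Finset (Fin n)} {S : Finset (Fin n)} {u : Fin n} :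
    u ∈ nb B S ↔ u ∈ S ∨ ∃ j, ¬ Disjoint (B j) S ∧ u ∈ B j := by
  simp only [nb, mem_union, mem_biUnion, mem_filter, mem_univ, true_and]

private theorem ext_sep {n m : ℕ} {B : Fin m → Finset (Fin n)} {U₀ : Finset (Fin n)} (hS : Sep B U₀)
    {u v : Fin n} (hu : u ∈ U₀) (hv : v ∈ U₀) {j : Fin m} {w w' : Fin n} (hw : w ∈ B j) (hw' : w' ∈ B j)
    (h1 : w ∈ nb B {u}) (h2 : w' ∈ nb B {v}) : u = v := by
  refine hS u hu v hv ?_
  have e1 : v ∈ nb B {w'} := by
    have h3 : v ∈ (nb B)^[1] {w'} := nb_symm.1 (by simpa using h2)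
    simpa using h3
  have e2 : w' ∈ nb B (nb B {u}) := ext_nb.2 (Or.inr ⟨j, fun hd => Finset.disjoint_left.1 hd hw h1, hw'⟩)
  have e3 : v ∈ (nb B)^[1] (nb B (nb B {u})) := nb_union.2 ⟨w', e2, by simpa using e1⟩
  have e4 : v ∈ (nb B)^[3] {u} := by
    rw [Function.iterate_one] at e3
    exact e3
  exact nb_mono (by norm_num) _ e4

private theorem ext_sum {n m : ℕ} {B : Fin m → Finset (Fin n)} (hB : ∀ j, (B j).card = 3)
    (I : Finset (Fin m)) : ∑ x ∈ I.biUnion B, (I.filter fun j => x ∈ B j).card = 3 * I.card := by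
  have e1 : ∀ x ∈ I.biUnion B, (I.filter fun j => x ∈ B j).card = ∑ j ∈ I, if x ∈ B j then 1 else 0 := by
    intro x _
    rw [Finset.card_filter]
  rw [Finset.sum_congr rfl e1, Finset.sum_comm]
  have e2 : ∀ j ∈ I, (∑ x ∈ I.biUnion B, if x ∈ B j then 1 else 0) = 3 := by
    intro j hj
    rw [← Finset.card_filter]
    have : (I.biUnion B).filter (fun x => x ∈ B j) = B j := by
      ext x
      simp only [Finset.mem_filter, Finset.mem_biUnion]
      exact ⟨fun h => h.2, fun h => ⟨⟨j, hj, h⟩, h⟩⟩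
    rw [this, hB]
  rw [Finset.sum_congr rfl e2, Finset.sum_const, smul_eq_mul, mul_comm]

private theorem ext_one {n m : ℕ} {B : Fin m → Finset (Fin n)} (hB : ∀ j, (B j).card = 3)
    (I : Finset (Fin m)) : 2 * (I.biUnion B).card ≤
      3 * I.card + ((I.biUnion B).filter fun x => (I.filter fun j => x ∈ B j).card = 1).card := by
  rw [← ext_sum hB I, Finset.card_filter, ← Finset.sum_add_distrib, mul_comm, ← smul_eq_mul, ← Finset.sum_const]
  refine Finset.sum_le_sum fun x hx => ?_
  have h1 : 1 ≤ (I.filter fun j => x ∈ B j).card := by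
    obtain ⟨j, hj, hx⟩ := Finset.mem_biUnion.1 hx
    exact Finset.card_pos.2 ⟨j, Finset.mem_filter.2 ⟨hj, hx⟩⟩
  split_ifs with h2
  · omega
  · omega

private theorem ext_core {n m : ℕ} {B : Fin m → Finset (Fin n)} (hB : ∀ j, (B j).card = 3)
    {U₀ : Finset (Fin n)} (hS : Sep B U₀) (J : Finset (Fin m))
    (hE : ∀ I, I ⊆ J → 15 * I.card ≤ 8 * (I.biUnion B).card) :
    J.card ≤ 4 * (par (fun j => B j \ U₀) J).card := by
  have hself : ∀ u : Fin n, u ∈ nb B {u} := fun u => ext_nb.2 (Or.inl (Finset.mem_singleton_self u))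
  obtain ⟨J1, hJ1⟩ : ∃ J1 : Finset (Fin m), J1 = J.filter fun j => ∀ i ∈ J, i ≠ j → Disjoint (B j) (B i) :=
    ⟨_, rfl⟩
  obtain ⟨J2, hJ2⟩ : ∃ J2 : Finset (Fin m), J2 = J \ J1 := ⟨_, rfl⟩
  have hJ1s : J1 ⊆ J := by
    rw [hJ1]
    exact Finset.filter_subset _ _
  have hJ2s : J2 ⊆ J := by
    rw [hJ2]
    exact Finset.sdiff_subset
  have hcard : J2.card + J1.card = J.card := by
    rw [hJ2]
    exact Finset.card_sdiff_add_card_eq_card hJ1s
  have hdis : ∀ j ∈ J1, ∀ i ∈ J, i ≠ j → Disjoint (B j) (B i) := by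
    intro j hj
    rw [hJ1, Finset.mem_filter] at hj
    exact hj.2
  have h12 : ∀ j ∈ J1, j ∉ J2 := by
    intro j hj h
    rw [hJ2, Finset.mem_sdiff] at h
    exact h.2 hj
  have hcase : ∀ j ∈ J, j ∉ J1 → j ∈ J2 := by
    intro j hj h
    rw [hJ2, Finset.mem_sdiff]
    exact ⟨hj, h⟩
  -- the elements of degree one
  obtain ⟨X, hX⟩ : ∃ X : Finset (Fin n), X = (J2.biUnion B).filter fun x => (J2.filter fun j => x ∈ B j).card = 1 :=
    ⟨_, rfl⟩
  have hb1 : 2 * (J2.biUnion B).card ≤ 3 * J2.card + X.card := by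
    rw [hX]
    exact ext_one hB J2
  have hb2 := hE J2 hJ2s
  -- the isolated variables
  obtain ⟨V, hV⟩ : ∃ V : Finset (Fin n), V = (J2.biUnion B).filter fun x => x ∈ U₀ := ⟨_, rfl⟩
  have hc : 2 * V.card ≤ J2.card := by
    let P : Fin n → Finset (Fin m) := fun u => J2.filter fun j => ¬ Disjoint (B j) (nb B {u})
    have hP1 : ∀ u ∈ V, 2 ≤ (P u).card := by
      intro u hu
      rw [hV, Finset.mem_filter, Finset.mem_biUnion] at hu
      obtain ⟨⟨j, hj, huj⟩, hu0⟩ := hu
      have hj' := hj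
      rw [hJ2, Finset.mem_sdiff, hJ1, Finset.mem_filter] at hj'
      obtain ⟨hjJ, hj2⟩ := hj'
      have hex : ∃ i ∈ J, i ≠ j ∧ ¬ Disjoint (B j) (B i) := by
        by_contra hcon
        exact hj2 ⟨hjJ, fun i hi hne => by
          by_contra hd
          exact hcon ⟨i, hi, hne, hd⟩⟩
      obtain ⟨i, hi, hne, hnd⟩ := hex
      have hi2 : i ∈ J2 := by
        refine hcase i hi fun h1 => ?_
        exact hnd (hdis i h1 j hjJ hne.symm).symm
      have hsubj : B j ⊆ nb B {u} := fun w hw =>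
        ext_nb.2 (Or.inr ⟨j, fun hd => Finset.disjoint_left.1 hd huj (Finset.mem_singleton_self u), hw⟩)
      have m1 : j ∈ P u := by
        refine Finset.mem_filter.2 ⟨hj, fun hd => ?_⟩
        exact Finset.disjoint_left.1 hd huj (hself u)
      have m2 : i ∈ P u := by
        refine Finset.mem_filter.2 ⟨hi2, fun hd => ?_⟩
        obtain ⟨w, hw1, hw2⟩ := Finset.not_disjoint_iff.1 hnd
        exact Finset.disjoint_left.1 hd hw2 (hsubj hw1)
      have h2 : ({i, j} : Finset (Fin m)) ⊆ P u := by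
        intro a ha
        rw [Finset.mem_insert, Finset.mem_singleton] at ha
        rcases ha with rfl | rfl
        · exact m2
        · exact m1
      have h3 := Finset.card_le_card h2
      rw [Finset.card_pair hne] at h3
      exact h3
    have hP2 : (V : Set (Fin n)).PairwiseDisjoint P := by
      intro u hu v hv hne
      rw [Function.onFun, Finset.disjoint_left]
      intro j hj1 hj2
      have hu' := Finset.mem_coe.1 hu
      have hv' := Finset.mem_coe.1 hv
      rw [hV, Finset.mem_filter] at hu' hv'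
      obtain ⟨w, hw1, hw2⟩ := Finset.not_disjoint_iff.1 (Finset.mem_filter.1 hj1).2
      obtain ⟨w', hw1', hw2'⟩ := Finset.not_disjoint_iff.1 (Finset.mem_filter.1 hj2).2
      exact hne (ext_sep hS hu'.2 hv'.2 hw1 hw1' hw2 hw2')
    have h1 : (V.biUnion P).card ≤ J2.card := by
      refine Finset.card_le_card fun j hj => ?_
      obtain ⟨u, -, hj⟩ := Finset.mem_biUnion.1 hj
      exact (Finset.mem_filter.1 hj).1
    rw [Finset.card_biUnion hP2] at h1
    have h2 := Finset.card_nsmul_le_sum V (fun u => (P u).card) 2 hP1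
    rw [smul_eq_mul] at h2
    omega
  -- the lower bound
  have hdeg : ∀ x : Fin n, ∀ j ∈ J, x ∈ B j → (∀ i ∈ J, x ∈ B i → i = j) → x ∉ U₀ →
      x ∈ par (fun j => B j \ U₀) J := by
    intro x j hj hxj hun hx0
    rw [Pool.Agent.H55.QT.par, Finset.mem_filter]
    refine ⟨Finset.mem_univ _, ?_⟩
    have e : (J.filter fun j => x ∈ B j \ U₀) = {j} := by
      ext i
      rw [Finset.mem_filter, Finset.mem_singleton, Finset.mem_sdiff]
      constructor
      · rintro ⟨h1, h2, -⟩
        exact hun i h1 h2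
      · rintro rfl
        exact ⟨hj, hxj, hx0⟩
    rw [e, Finset.card_singleton]
    exact odd_one
  have hA : X \ U₀ ⊆ par (fun j => B j \ U₀) J := by
    intro x hx
    rw [Finset.mem_sdiff, hX, Finset.mem_filter, Finset.mem_biUnion] at hx
    obtain ⟨⟨⟨j, hj, hxj⟩, hone⟩, hx0⟩ := hx
    refine hdeg x j (hJ2s hj) hxj (fun i hi hxi => ?_) hx0
    obtain ⟨a, ha⟩ := Finset.card_eq_one.1 hone
    have hja : j = a := by
      have : j ∈ J2.filter fun j => x ∈ B j := Finset.mem_filter.2 ⟨hj, hxj⟩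
      rw [ha] at this
      exact Finset.mem_singleton.1 this
    by_cases hi1 : i ∈ J1
    · by_contra hne
      exact Finset.disjoint_left.1 (hdis i hi1 j (hJ2s hj) (Ne.symm hne)) hxi hxj
    · have : i ∈ J2.filter fun j => x ∈ B j := Finset.mem_filter.2 ⟨hcase i hi hi1, hxi⟩
      rw [ha] at this
      rw [hja]
      exact Finset.mem_singleton.1 this
  have hC : (J1.biUnion fun j => B j \ U₀) ⊆ par (fun j => B j \ U₀) J := by
    intro x hx
    obtain ⟨j, hj, hx⟩ := Finset.mem_biUnion.1 hx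
    rw [Finset.mem_sdiff] at hx
    refine hdeg x j (hJ1s hj) hx.1 (fun i hi hxi => ?_) hx.2
    by_contra hne
    exact Finset.disjoint_left.1 (hdis j hj i hi hne) hx.1 hxi
  have hAC : Disjoint (X \ U₀) (J1.biUnion fun j => B j \ U₀) := by
    rw [Finset.disjoint_left]
    intro x hx hx'
    obtain ⟨j, hj, hx'⟩ := Finset.mem_biUnion.1 hx'
    rw [Finset.mem_sdiff, hX, Finset.mem_filter, Finset.mem_biUnion] at hx
    obtain ⟨⟨⟨i, hi, hxi⟩, -⟩, -⟩ := hx
    have hne : i ≠ j := by
      rintro rfl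
      exact h12 i hj hi
    exact Finset.disjoint_left.1 (hdis j hj i (hJ2s hi) hne) (Finset.mem_sdiff.1 hx').1 hxi
  have hcC : 2 * J1.card ≤ (J1.biUnion fun j => B j \ U₀).card := by
    rw [Finset.card_biUnion]
    · have h2 := Finset.card_nsmul_le_sum J1 (fun j => (B j \ U₀).card) 2 (by
        intro j _
        have h3 : (B j ∩ U₀).card ≤ 1 := by
          rw [Finset.card_le_one]
          intro u hu v hv
          rw [Finset.mem_inter] at hu hv
          exact ext_sep hS hu.2 hv.2 hu.1 hv.1 (hself u) (hself v)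
        have h4 := Finset.card_sdiff_add_card_inter (B j) U₀
        rw [hB] at h4
        omega)
      rw [smul_eq_mul] at h2
      omega
    · intro i hi j hj hne
      exact Disjoint.mono Finset.sdiff_subset Finset.sdiff_subset (hdis i hi j (hJ1s hj) hne.symm)
  have hcA : X.card ≤ (X \ U₀).card + V.card := by
    rw [← Finset.card_sdiff_add_card_inter X U₀]
    refine Nat.add_le_add_left (Finset.card_le_card fun x hx => ?_) _
    rw [Finset.mem_inter, hX, Finset.mem_filter] at hx
    rw [hV, Finset.mem_filter]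
    exact ⟨hx.1.1, hx.2⟩
  have htot : (X \ U₀).card + (J1.biUnion fun j => B j \ U₀).card ≤ (par (fun j => B j \ U₀) J).card := by
    rw [← Finset.card_union_of_disjoint hAC]
    exact Finset.card_le_card (Finset.union_subset hA hC)
  omega

theorem ext15 {n m r : ℕ} {φ : Fin m → Cl n} {U₀ : Finset (Fin n)} (h : Exp15 r φ)
    (hS : Sep (fun j => cvar (φ j)) U₀) :
    ∀ J : Finset (Fin m), J.card ≤ r → J.card ≤ 4 * (par (fun j => cvar (φ j) \ U₀) J).card := by
  intro J hJ
  refine ext_core (B := fun j => cvar (φ j)) (fun j => ?_) hS J fun I hI => ?_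
  · rw [cvar, Finset.card_map, Finset.card_univ, Fintype.card_fin]
  · exact h I ((Finset.card_le_card hI).trans hJ)

end Pool.H86.XP
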