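import Mathlib
import Pool.Agent.H6.LD.Grd
import Pool.Agent.H6.LE.Grt
import Pool.Agent.H86.XP.Defs

set_option autoImplicit false
set_option linter.unusedSectionVars false

/-!
# Module RND (THEOREM LP): the random choice of the isolated variables

For `X : Finset (Fin n)` let `iso B X := X.filter fun v => X ∩ (nb B)^[4] {v} = {v}`. `Sep B (iso B X)`: if `u, v ∈ iso B X`, `v ∈ (nb B)^[4] {u}` then `v ∈ X ∩ (nb B)^[4] {u} = {u}`.
PROOF of `rnd`. (1) `bad_le` (LE/Grt, with `R = 8`, `ν = δ / 2`) gives `Λ`, such that at most `δ / 2 * n` of the `v` have `(nb B)^[8] {v}` with more than `Λ` elements. (2) `pick`: for `S` with `δ n < S.card` there is `t ⊆ S` with `δ / 2 * n / (Λ + 1) ≤ t.card`, pairwise not in `(nb B)^[8]` of each other (so the balls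
`(nb B)^[4] {v}`, `v ∈ t`, are pairwise disjoint: `nb_symm`, `nb_union`, `(nb B)^[8] = (nb B)^[4] ∘ (nb B)^[4]`), all with balls of radius 4 of at most `Λ` elements: `greedy` (LD/Grd) for the relation `v ∈ (nb B)^[8] {u}` on the good elements of `S`. (3) `mgf`: for `t` with pairwise disjoint sets `Q v ∋ v`, `v ∈ t`,
`(Q v).card ≤ L`: `∑ X : Finset (Fin n), (1 / 2) ^ (t.filter fun v => X ∩ Q v = {v}).card ≤ 2 ^ n * (1 - (1 / 2) ^ (L + 1)) ^ t.card`: induction on `t`: for one more `v` the function `g X = (1 / 2) ^ (number for t)` does not depend on `X ∩ Q v`, so `∑ X with X ∩ Q v = {v}, g X = (1 / 2) ^ (Q v).card * ∑ X, g X`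
(the `2 ^ (Q v).card` classes `X ∩ Q v = Z`, `Z ⊆ Q v`, have the same sum: `X ↦ (X \ Q v) ∪ Z`), and `(1 / 2) ^ [X ∩ Q v = {v}] = 1 - (1 / 2) * indicator`. (4) Markov: the number of `X` with `(S ∩ iso B X).card ≤ κ n` is at most `2 ^ (κ n) * 2 ^ n * ρ ^ (t.card)` with `ρ = 1 - (1 / 2) ^ (L + 1) < 1`, `L = ⌊Λ⌋₊`, because
`(t.filter ..) ⊆ S ∩ iso B X`. With `θ = - logb 2 ρ * δ / 2 / (Λ + 1) > 0`, `κ = θ / 4`, `η = θ / 2` this is at most `2 ^ n * 2 ^ (- 3 / 4 θ n)` for each `S ∈ 𝒮`; the sum over `𝒮` (less than `2 ^ (η n)` sets) is less than `2 ^ n`, so some `X` works for all; `U₀ = iso B X`. (If `n = 0` then `𝒮` is empty; `U₀ = ∅`.)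
-/

namespace Pool.H86.XP

open Finset Classical Pool.Agent.H55.QT Pool.H6.LD

variable {n m : ℕ}

/-- the isolated elements of `X` -/
private noncomputable def rnd_iso (B : Fin m → Finset (Fin n)) (X : Finset (Fin n)) : Finset (Fin n) :=
  X.filter fun v => X ∩ (nb B)^[4] {v} = {v}

private theorem rnd_sep (B : Fin m → Finset (Fin n)) (X : Finset (Fin n)) : Sep B (rnd_iso B X) := by
  intro u hu v hv h
  unfold rnd_iso at hu hv
  rw [mem_filter] at hu hv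
  have h1 : v ∈ X ∩ (nb B)^[4] {u} := mem_inter.2 ⟨hv.1, h⟩
  rw [hu.2, mem_singleton] at h1
  exact h1.symm

private theorem rnd_step (Q : Finset (Fin n)) (v : Fin n) (hv : v ∈ Q) (g : Finset (Fin n) → ℝ) (hg0 : ∀ X, 0 ≤ g X)
    (hg : ∀ X Y, X \ Q = Y \ Q → g X = g Y) :
    ∑ X : Finset (Fin n), g X ≤ 2 ^ Q.card * ∑ X ∈ univ.filter (fun X => X ∩ Q = {v}), g X := by
  have hm : ∀ X ∈ (univ : Finset (Finset (Fin n))), (X \ Q) ∪ {v} ∈ univ.filter (fun X => X ∩ Q = {v}) := by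
    intro X _
    rw [mem_filter]
    refine ⟨mem_univ _, ?_⟩
    ext w
    simp only [mem_inter, mem_union, mem_sdiff, mem_singleton]
    constructor
    · rintro ⟨h1 | h1, h2⟩
      · exact absurd h2 h1.2
      · exact h1
    · rintro rfl
      exact ⟨Or.inr rfl, hv⟩
  rw [← Finset.sum_fiberwise_of_maps_to hm, Finset.mul_sum]
  refine Finset.sum_le_sum fun Y _ => ?_
  have h1 : ∀ X ∈ univ.filter (fun X : Finset (Fin n) => (X \ Q) ∪ {v} = Y), X \ Q = Y \ Q := by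
    intro X hX
    rw [mem_filter] at hX
    rw [← hX.2]
    ext w
    simp only [mem_union, mem_sdiff, mem_singleton]
    constructor
    · rintro ⟨h1, h2⟩
      exact ⟨Or.inl ⟨h1, h2⟩, h2⟩
    · rintro ⟨h1 | h1, h2⟩
      · exact h1
      · rw [h1] at h2
        exact absurd hv h2
  calc ∑ X ∈ univ.filter (fun X : Finset (Fin n) => (X \ Q) ∪ {v} = Y), g X
      = ∑ X ∈ univ.filter (fun X : Finset (Fin n) => (X \ Q) ∪ {v} = Y), g Y :=
        Finset.sum_congr rfl fun X hX => hg X Y (h1 X hX)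
    _ = ((univ.filter (fun X : Finset (Fin n) => (X \ Q) ∪ {v} = Y)).card : ℝ) * g Y := by
        rw [Finset.sum_const, nsmul_eq_mul]
    _ ≤ 2 ^ Q.card * g Y := by
        refine mul_le_mul_of_nonneg_right ?_ (hg0 Y)
        have h2 : (univ.filter (fun X : Finset (Fin n) => (X \ Q) ∪ {v} = Y)).card ≤ Q.powerset.card := by
          refine Finset.card_le_card_of_injOn (fun X => X ∩ Q) ?_ ?_
          · intro X _
            exact Finset.mem_coe.2 (Finset.mem_powerset.2 Finset.inter_subset_right)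
          · intro X hX Y' hY' he
            have e1 := h1 X (Finset.mem_coe.1 hX)
            have e2 := h1 Y' (Finset.mem_coe.1 hY')
            have he' : X ∩ Q = Y' ∩ Q := he
            rw [← Finset.sdiff_union_inter X Q, ← Finset.sdiff_union_inter Y' Q, e1, e2, he']
        rw [Finset.card_powerset] at h2
        exact_mod_cast h2

private theorem rnd_mgf (L : ℕ) (Q : Fin n → Finset (Fin n)) (t : Finset (Fin n)) (h1 : ∀ v ∈ t, v ∈ Q v)
    (h2 : ∀ u ∈ t, ∀ v ∈ t, u ≠ v → Disjoint (Q u) (Q v)) (h3 : ∀ v ∈ t, (Q v).card ≤ L) :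
    ∑ X : Finset (Fin n), (1 / 2 : ℝ) ^ (t.filter fun v => X ∩ Q v = {v}).card ≤
      2 ^ n * (1 - (1 / 2) ^ (L + 1)) ^ t.card := by
  induction t using Finset.induction_on with
  | empty =>
    simp
  | insert v t hvt ih =>
    have ih' := ih (fun u hu => h1 u (mem_insert_of_mem hu))
      (fun u hu w hw => h2 u (mem_insert_of_mem hu) w (mem_insert_of_mem hw))
      (fun u hu => h3 u (mem_insert_of_mem hu))
    obtain ⟨g, hg⟩ : ∃ g : Finset (Fin n) → ℝ, g = fun X => (1 / 2 : ℝ) ^ (t.filter fun v => X ∩ Q v = {v}).card :=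
      ⟨_, rfl⟩
    have hgX : ∀ X, g X = (1 / 2 : ℝ) ^ (t.filter fun v => X ∩ Q v = {v}).card := by
      intro X
      rw [hg]
    have hg0 : ∀ X, 0 ≤ g X := by
      intro X
      rw [hgX]
      positivity
    have hgc : ∀ X Y, X \ Q v = Y \ Q v → g X = g Y := by
      intro X Y hXY
      rw [hgX, hgX]
      congr 2
      refine Finset.filter_congr fun u hu => ?_
      have hd : Disjoint (Q u) (Q v) := h2 u (mem_insert_of_mem hu) v (mem_insert_self _ _) (by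
        rintro rfl
        exact hvt hu)
      have hXu : ∀ Z : Finset (Fin n), Z ∩ Q u = (Z \ Q v) ∩ Q u := by
        intro Z
        ext w
        simp only [mem_inter, mem_sdiff]
        constructor
        · rintro ⟨a, b⟩
          exact ⟨⟨a, Finset.disjoint_left.1 hd b⟩, b⟩
        · rintro ⟨⟨a, _⟩, b⟩
          exact ⟨a, b⟩
      rw [hXu X, hXu Y, hXY]
    have hst := rnd_step (Q v) v (h1 v (mem_insert_self _ _)) g hg0 hgc
    have hsum : ∑ X : Finset (Fin n), (1 / 2 : ℝ) ^ ((insert v t).filter fun v => X ∩ Q v = {v}).card =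
        ∑ X : Finset (Fin n), g X - 1 / 2 * ∑ X ∈ univ.filter (fun X => X ∩ Q v = {v}), g X := by
      rw [Finset.sum_filter, Finset.mul_sum, ← Finset.sum_sub_distrib]
      refine Finset.sum_congr rfl fun X _ => ?_
      rw [Finset.filter_insert, hgX]
      split_ifs with hX
      · rw [Finset.card_insert_of_notMem (fun h => hvt (mem_filter.1 h).1), pow_succ]
        ring
      · ring
    have hG0 : 0 ≤ ∑ X : Finset (Fin n), g X := Finset.sum_nonneg fun X _ => hg0 X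
    have hQ : (2 : ℝ) ^ (Q v).card ≤ 2 ^ L := pow_le_pow_right₀ (by norm_num) (h3 v (mem_insert_self _ _))
    have hF0 : 0 ≤ ∑ X ∈ univ.filter (fun X => X ∩ Q v = {v}), g X := Finset.sum_nonneg fun X _ => hg0 X
    have h4 : ∑ X : Finset (Fin n), g X ≤ 2 ^ L * ∑ X ∈ univ.filter (fun X => X ∩ Q v = {v}), g X :=
      hst.trans (mul_le_mul_of_nonneg_right hQ hF0)
    have h5 : (1 / 2 : ℝ) ^ (L + 1) * ∑ X : Finset (Fin n), g X ≤
        1 / 2 * ∑ X ∈ univ.filter (fun X => X ∩ Q v = {v}), g X := by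
      have h6 : (0 : ℝ) < (1 / 2) ^ (L + 1) := by positivity
      have h7 := mul_le_mul_of_nonneg_left h4 h6.le
      refine h7.trans (le_of_eq ?_)
      rw [← mul_assoc]
      congr 1
      rw [pow_succ, mul_right_comm, ← mul_pow]
      norm_num
    rw [hsum, Finset.card_insert_of_notMem hvt, pow_succ]
    have hρ : (0 : ℝ) ≤ 1 - (1 / 2) ^ (L + 1) := by
      have : (1 / 2 : ℝ) ^ (L + 1) ≤ 1 := pow_le_one₀ (by norm_num) (by norm_num)
      linarith
    have ih2 : ∑ X : Finset (Fin n), g X ≤ 2 ^ n * (1 - (1 / 2) ^ (L + 1)) ^ t.card := by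
      rw [hg]
      exact ih'
    calc ∑ X : Finset (Fin n), g X - 1 / 2 * ∑ X ∈ univ.filter (fun X => X ∩ Q v = {v}), g X
        ≤ (∑ X : Finset (Fin n), g X) * (1 - (1 / 2) ^ (L + 1)) := by linarith
      _ ≤ (2 ^ n * (1 - (1 / 2) ^ (L + 1)) ^ t.card) * (1 - (1 / 2) ^ (L + 1)) :=
          mul_le_mul_of_nonneg_right ih2 hρ
      _ = 2 ^ n * ((1 - (1 / 2) ^ (L + 1)) ^ t.card * (1 - (1 / 2) ^ (L + 1))) := by ring

private theorem rnd_pick {B : Fin m → Finset (Fin n)} {Λ δ : ℝ} (hΛ : 0 < Λ)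
    (hbad : ((univ.filter fun v => Λ < (((nb B)^[8] {v}).card : ℝ)).card : ℝ) ≤ δ / 2 * n)
    (S : Finset (Fin n)) (hS : δ * n < S.card) :
    ∃ t ⊆ S, δ / 2 / (Λ + 1) * n ≤ t.card ∧
      (∀ u ∈ t, ∀ v ∈ t, u ≠ v → Disjoint ((nb B)^[4] {u}) ((nb B)^[4] {v})) ∧
      ∀ v ∈ t, ((nb B)^[4] {v}).card ≤ ⌊Λ⌋₊ := by
  obtain ⟨G, hG⟩ : ∃ G : Finset (Fin n), G = S.filter fun v => ¬ Λ < (((nb B)^[8] {v}).card : ℝ) := ⟨_, rfl⟩
  have hGc : δ / 2 * n ≤ (G.card : ℝ) := by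
    have h1 := Finset.card_filter_add_card_filter_not (s := S) (fun v => Λ < (((nb B)^[8] {v}).card : ℝ))
    have h2 : (S.filter fun v => Λ < (((nb B)^[8] {v}).card : ℝ)).card ≤
        (univ.filter fun v => Λ < (((nb B)^[8] {v}).card : ℝ)).card :=
      Finset.card_le_card (Finset.filter_subset_filter _ (Finset.subset_univ _))
    rw [← hG] at h1
    have h3 : ((S.filter fun v => Λ < (((nb B)^[8] {v}).card : ℝ)).card : ℝ) + (G.card : ℝ) = S.card := by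
      exact_mod_cast h1
    have h4 : ((S.filter fun v => Λ < (((nb B)^[8] {v}).card : ℝ)).card : ℝ) ≤
        ((univ.filter fun v => Λ < (((nb B)^[8] {v}).card : ℝ)).card : ℝ) := by
      exact_mod_cast h2
    linarith
  have hGm : ∀ v ∈ G, v ∈ S ∧ (((nb B)^[8] {v}).card : ℝ) ≤ Λ := by
    intro v hv
    rw [hG, mem_filter, not_lt] at hv
    exact hv
  obtain ⟨t, ht1, ht2, ht3⟩ := greedy G (fun u v => v ∈ (nb B)^[8] {u}) (fun p q h => nb_symm.1 h) Λ (by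
    intro p hp
    refine le_trans ?_ (hGm p hp).2
    have h1 : (G.filter fun q => q ≠ p ∧ q ∈ (nb B)^[8] {p}) ⊆ (nb B)^[8] {p} := by
      intro q hq
      exact (mem_filter.1 hq).2.2
    exact_mod_cast Finset.card_le_card h1)
  refine ⟨t, fun v hv => (hGm v (ht1 hv)).1, ?_, ?_, ?_⟩
  · have h1 : 0 < Λ + 1 := by linarith
    rw [div_mul_eq_mul_div, div_le_iff₀ h1]
    linarith
  · intro u hu v hv huv
    rw [Finset.disjoint_left]
    intro w hw1 hw2
    refine ht2 v hv u hu (Ne.symm huv) ?_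
    have h1 : (nb B)^[8] {v} = (nb B)^[4] ((nb B)^[4] {v}) := by
      rw [← Function.iterate_add_apply]
    show u ∈ (nb B)^[8] {v}
    rw [h1, nb_union]
    exact ⟨w, hw2, nb_symm.1 hw1⟩
  · intro v hv
    refine Nat.le_floor ?_
    refine le_trans ?_ (hGm v (ht1 hv)).2
    exact_mod_cast Finset.card_le_card (nb_mono (by norm_num : 4 ≤ 8) {v})

private theorem rnd_self (B : Fin m → Finset (Fin n)) (v : Fin n) : v ∈ (nb B)^[4] {v} :=
  nb_mono (Nat.zero_le 4) {v} (by simp)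

private theorem rnd_markov {B : Fin m → Finset (Fin n)} {L : ℕ} {κ : ℝ} (S t : Finset (Fin n)) (hts : t ⊆ S)
    (h2 : ∀ u ∈ t, ∀ v ∈ t, u ≠ v → Disjoint ((nb B)^[4] {u}) ((nb B)^[4] {v}))
    (h3 : ∀ v ∈ t, ((nb B)^[4] {v}).card ≤ L) :
    ((univ.filter fun X : Finset (Fin n) => ((S ∩ rnd_iso B X).card : ℝ) ≤ κ * n).card : ℝ) ≤
      2 ^ (κ * n) * (2 ^ n * (1 - (1 / 2) ^ (L + 1)) ^ t.card) := by
  have hm := rnd_mgf L (fun v => (nb B)^[4] {v}) t (fun v _ => rnd_self B v) h2 h3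
  have hp : (0 : ℝ) < 2 ^ (κ * n) := Real.rpow_pos_of_pos (by norm_num) _
  rw [← div_le_iff₀' hp]
  refine le_trans ?_ hm
  rw [div_eq_mul_inv]
  calc ((univ.filter fun X : Finset (Fin n) => ((S ∩ rnd_iso B X).card : ℝ) ≤ κ * n).card : ℝ) * (2 ^ (κ * n))⁻¹
      = ∑ X ∈ univ.filter (fun X : Finset (Fin n) => ((S ∩ rnd_iso B X).card : ℝ) ≤ κ * n), ((2 : ℝ) ^ (κ * n))⁻¹ := by
        rw [Finset.sum_const, nsmul_eq_mul]
    _ ≤ ∑ X ∈ univ.filter (fun X : Finset (Fin n) => ((S ∩ rnd_iso B X).card : ℝ) ≤ κ * n),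
        (1 / 2 : ℝ) ^ (t.filter fun v => X ∩ (nb B)^[4] {v} = {v}).card := by
        refine Finset.sum_le_sum fun X hX => ?_
        rw [mem_filter] at hX
        have h4 : (t.filter fun v => X ∩ (nb B)^[4] {v} = {v}) ⊆ S ∩ rnd_iso B X := by
          intro v hv
          rw [mem_filter] at hv
          refine mem_inter.2 ⟨hts hv.1, ?_⟩
          unfold rnd_iso
          rw [mem_filter]
          refine ⟨?_, hv.2⟩
          have h5 : v ∈ X ∩ (nb B)^[4] {v} := by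
            rw [hv.2]
            exact mem_singleton_self v
          exact (mem_inter.1 h5).1
        have h6 : ((t.filter fun v => X ∩ (nb B)^[4] {v} = {v}).card : ℝ) ≤ κ * n :=
          le_trans (by exact_mod_cast Finset.card_le_card h4) hX.2
        rw [one_div, inv_pow]
        refine inv_anti₀ (by positivity) ?_
        rw [← Real.rpow_natCast]
        exact Real.rpow_le_rpow_of_exponent_le (by norm_num) h6
    _ ≤ ∑ X : Finset (Fin n), (1 / 2 : ℝ) ^ (t.filter fun v => X ∩ (nb B)^[4] {v} = {v}).card :=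
        Finset.sum_le_sum_of_subset_of_nonneg (Finset.filter_subset _ _) fun X _ _ => by positivity

theorem rnd {C : ℝ} (hC : 0 ≤ C) {δ : ℝ} (hδ : 0 < δ) : ∃ κ η : ℝ, 0 < κ ∧ 0 < η ∧
    ∀ (n m : ℕ) (B : Fin m → Finset (Fin n)), (∀ j, (B j).card ≤ 3) → Tch C B →
      ∀ 𝒮 : Finset (Finset (Fin n)), (𝒮.card : ℝ) < 2 ^ (η * n) →
        ∃ U₀ : Finset (Fin n), Sep B U₀ ∧ ∀ S ∈ 𝒮, δ * n < S.card → κ * n < (S ∩ U₀).card := by
  obtain ⟨Λ, hΛ, hbad⟩ := bad_le hC 8 (ν := δ / 2) (by positivity)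
  obtain ⟨L, hL⟩ : ∃ L : ℕ, L = ⌊Λ⌋₊ := ⟨_, rfl⟩
  obtain ⟨ρ, hρ⟩ : ∃ ρ : ℝ, ρ = 1 - (1 / 2) ^ (L + 1) := ⟨_, rfl⟩
  have hq0 : (0 : ℝ) < (1 / 2) ^ (L + 1) := by positivity
  have hq1 : (1 / 2 : ℝ) ^ (L + 1) ≤ 1 / 2 := by
    rw [pow_succ]
    have : (1 / 2 : ℝ) ^ L ≤ 1 := pow_le_one₀ (by norm_num) (by norm_num)
    nlinarith
  have hρ0 : 0 < ρ := by rw [hρ]; linarith
  have hρ1 : ρ < 1 := by rw [hρ]; linarith
  obtain ⟨c0, hc0⟩ : ∃ c0 : ℝ, c0 = δ / 2 / (Λ + 1) := ⟨_, rfl⟩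
  have hc0p : 0 < c0 := by rw [hc0]; positivity
  obtain ⟨θ, hθ⟩ : ∃ θ : ℝ, θ = -Real.logb 2 ρ * c0 := ⟨_, rfl⟩
  have hlog : Real.logb 2 ρ < 0 := Real.logb_neg (by norm_num) hρ0 hρ1
  have hθp : 0 < θ := by
    rw [hθ]
    exact mul_pos (by linarith) hc0p
  refine ⟨θ / 4, θ / 2, by linarith, by linarith, ?_⟩
  intro n m B h3 hT 𝒮 h𝒮
  have hbad' := hbad n m B h3 hT
  by_contra hcon
  push Not at hcon
  obtain ⟨𝒮', h𝒮'⟩ : ∃ 𝒮' : Finset (Finset (Fin n)), 𝒮' = 𝒮.filter fun S => δ * n < S.card := ⟨_, rfl⟩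
  have hcov : (univ : Finset (Finset (Fin n))) ⊆
      𝒮'.biUnion fun S => univ.filter fun X => ((S ∩ rnd_iso B X).card : ℝ) ≤ θ / 4 * n := by
    intro X _
    obtain ⟨S, hS1, hS2, hS3⟩ := hcon (rnd_iso B X) (rnd_sep B X)
    refine mem_biUnion.2 ⟨S, ?_, ?_⟩
    · rw [h𝒮', mem_filter]
      exact ⟨hS1, hS2⟩
    · rw [mem_filter]
      exact ⟨mem_univ _, hS3⟩
  have hS : ∀ S ∈ 𝒮', ((univ.filter fun X => ((S ∩ rnd_iso B X).card : ℝ) ≤ θ / 4 * n).card : ℝ) ≤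
      2 ^ n * 2 ^ (-(3 / 4 * θ) * n) := by
    intro S hS
    rw [h𝒮', mem_filter] at hS
    obtain ⟨t, ht1, ht2, ht3, ht4⟩ := rnd_pick hΛ hbad' S hS.2
    have h5 := rnd_markov (B := B) (L := L) (κ := θ / 4) S t ht1 ht3 (by rw [hL]; exact ht4)
    rw [← hρ] at h5
    refine h5.trans ?_
    rw [← hc0] at ht2
    have h6 : ρ ^ t.card ≤ 2 ^ (-θ * n) := by
      have e1 : (2 : ℝ) ^ (-θ * n) = ρ ^ (c0 * n) := by
        have e2 : -θ * n = Real.logb 2 ρ * (c0 * n) := by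
          rw [hθ]
          ring
        rw [e2, Real.rpow_mul (by norm_num), Real.rpow_logb (by norm_num) (by norm_num) hρ0]
      rw [e1, ← Real.rpow_natCast]
      exact Real.rpow_le_rpow_of_exponent_ge hρ0 hρ1.le ht2
    calc (2 : ℝ) ^ (θ / 4 * n) * (2 ^ n * ρ ^ t.card) ≤ 2 ^ (θ / 4 * n) * (2 ^ n * 2 ^ (-θ * n)) := by
          gcongr
      _ = 2 ^ n * (2 ^ (θ / 4 * n) * 2 ^ (-θ * n)) := by ring
      _ = 2 ^ n * 2 ^ (-(3 / 4 * θ) * n) := by
          rw [← Real.rpow_add (by norm_num)]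
          congr 2
          ring
  have hcard : ((2 : ℝ) ^ n) ≤ (𝒮'.card : ℝ) * (2 ^ n * 2 ^ (-(3 / 4 * θ) * n)) := by
    have h1 := (Finset.card_le_card hcov).trans Finset.card_biUnion_le
    rw [Finset.card_univ, Fintype.card_finset, Fintype.card_fin] at h1
    have h2 : ((2 : ℝ) ^ n) ≤ ∑ S ∈ 𝒮', ((univ.filter fun X => ((S ∩ rnd_iso B X).card : ℝ) ≤ θ / 4 * n).card : ℝ) := by
      exact_mod_cast h1
    refine h2.trans ((Finset.sum_le_card_nsmul _ _ _ hS).trans (le_of_eq ?_))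
    rw [nsmul_eq_mul]
  have h𝒮2 : (𝒮'.card : ℝ) < 2 ^ (θ / 2 * n) := by
    refine lt_of_le_of_lt ?_ h𝒮
    have : 𝒮'.card ≤ 𝒮.card := by
      rw [h𝒮']
      exact Finset.card_le_card (Finset.filter_subset _ _)
    exact_mod_cast this
  have hp : (0 : ℝ) < 2 ^ n * 2 ^ (-(3 / 4 * θ) * n) := by positivity
  have h7 : (2 : ℝ) ^ n < 2 ^ (θ / 2 * n) * (2 ^ n * 2 ^ (-(3 / 4 * θ) * n)) :=
    lt_of_le_of_lt hcard (mul_lt_mul_of_pos_right h𝒮2 hp)
  have h8 : (2 : ℝ) ^ (θ / 2 * n) * (2 ^ n * 2 ^ (-(3 / 4 * θ) * n)) = 2 ^ n * 2 ^ (-(θ / 4) * n) := by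
    calc (2 : ℝ) ^ (θ / 2 * n) * (2 ^ n * 2 ^ (-(3 / 4 * θ) * n)) =
        2 ^ n * (2 ^ (θ / 2 * n) * 2 ^ (-(3 / 4 * θ) * n)) := by ring
      _ = 2 ^ n * 2 ^ (-(θ / 4) * n) := by
          rw [← Real.rpow_add (by norm_num)]
          congr 2
          ring
  rw [h8] at h7
  have h9 : (2 : ℝ) ^ (-(θ / 4) * n) ≤ 1 := by
    refine Real.rpow_le_one_of_one_le_of_nonpos (by norm_num) ?_
    have : (0 : ℝ) ≤ n := Nat.cast_nonneg n
    nlinarith
  have h10 : (2 : ℝ) ^ n * 2 ^ (-(θ / 4) * n) ≤ 2 ^ n * 1 :=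
    mul_le_mul_of_nonneg_left h9 (by positivity)
  linarith

end Pool.H86.XP
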