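import Mathlib
import Pool.Agent.H55.QT.RExp
import Pool.Agent.H86.XP.Defs

set_option autoImplicit false
set_option linter.unusedSectionVars false

/-!
# Module EXF (THEOREM LP): random 3-CNFs expand (factor 15/8) with probability tending to 1

Copy of `Pool/Agent/H6/LE/Exq.lean` (Exp13) and of the binomial estimate `rbin` in `Pool/Agent/H55/QT/` (RBin or RExp) with `15` instead of `13`. First moment: if `¬ Exp15 r φ` there is `I`, `1 ≤ i = I.card ≤ r`, whose union has at most `u = (15 * i - 1) / 8` elements. The number of such `φ` for one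
`i` is at most `C(Δ n, i) * C(n, u) * (u / n) ^ (3 i) * total` and `C(Δ n, i) ≤ (e Δ n / i) ^ i`, `C(n, u) ≤ (e n / u) ^ u`, so the factor is at most `(e Δ) ^ i * e ^ u * (n / i) ^ i * (u / n) ^ (3 i - u) ≤ C1 ^ i * (i / n) ^ (2 i - u)` (`u ≤ 2 i`, `C1` depends on `Δ` only), and
`2 i - u ≥ (i + 8) / 8` (floor), `i ≤ 8 * ((i + 8) / 8)`, so it is at most `(C1 ^ 8 * i / n) ^ ((i + 8) / 8)` if `C1 ^ 8 * i ≤ n` and `C1 ≥ 1`. With `c := min (1 / 2) (1 / (2 * C1 ^ 8))` the base is at most `1 / 2` for `i ≤ c n`. The sum: the terms with `i ≤ 8 L` are at most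
`8 L * (C1 ^ 8 * 8 L / n)`, the others at most `(1 / 2) ^ ((i + 8) / 8)`, in total at most `16 * (1 / 2) ^ L`. Choose first `L`, then `n0`.
-/

namespace Pool.H86.XP

open Finset Classical Pool.Agent.H55.QT

/-- constant of the first moment -/
private noncomputable def Cy (Δ : ℕ) : ℝ := 2 * (54 * Δ) ^ 8

private theorem rbin15 {Δ n i u : ℕ} (hΔ : 1 ≤ Δ) (hi : 1 ≤ i) (hin : 2 * i ≤ n) (hu : 8 * u < 15 * i) :
    ((Δ * n).choose i : ℝ) * (n.choose u : ℝ) * ((u : ℝ) / n) ^ (3 * i) ≤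
      (Cy Δ * i / n) ^ ((i + 8) / 8) := by
  obtain ⟨k, hk⟩ : ∃ k, k = (i + 8) / 8 := ⟨_, rfl⟩
  rw [← hk]
  have hn : 0 < n := by omega
  have hnr : (0 : ℝ) < n := by exact_mod_cast hn
  have hir : (0 : ℝ) < i := by exact_mod_cast hi
  have hΔr : (1 : ℝ) ≤ Δ := by exact_mod_cast hΔ
  have hk1 : u + k ≤ 2 * i := by omega
  have hk2 : i ≤ 8 * k := by omega
  have hu2 : u ≤ 2 * i := by omega
  obtain ⟨d, hd⟩ : ∃ d, 3 * i = u + (i + k + d) := ⟨3 * i - u - i - k, by omega⟩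
  have a1 : ((Δ * n).choose i : ℝ) ≤ (3 * Δ * (n / i)) ^ i := by
    have h1 := choose_bd (Δ * n) i
    have h2 : (3 * Δ * (n / i) : ℝ) ^ i = (3 * ((Δ * n : ℕ) : ℝ)) ^ i / (i : ℝ) ^ i := by
      rw [← div_pow]
      congr 1
      push_cast
      ring
    rw [h2, le_div_iff₀ (by positivity)]
    exact h1
  have a2 : (n.choose u : ℝ) * ((u : ℝ) / n) ^ u ≤ 3 ^ u := by
    have h1 := choose_bd n u
    rw [div_pow, ← mul_div_assoc, div_le_iff₀ (by positivity)]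
    rw [← mul_pow]
    exact h1
  have hx0 : 0 ≤ (2 : ℝ) * (i / n) := by positivity
  have hx1 : (2 : ℝ) * (i / n) ≤ 1 := by
    rw [← mul_div_assoc, div_le_one hnr]
    exact_mod_cast hin
  have hy0 : 0 ≤ (u : ℝ) / n := by positivity
  have hy1 : (u : ℝ) / n ≤ 2 * (i / n) := by
    rw [← mul_div_assoc]
    refine div_le_div_of_nonneg_right ?_ hnr.le
    exact_mod_cast hu2
  have a3 : ((u : ℝ) / n) ^ (i + k + d) ≤ (2 * (i / n)) ^ (i + k) := by
    calc ((u : ℝ) / n) ^ (i + k + d) ≤ (2 * ((i : ℝ) / n)) ^ (i + k + d) :=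
          pow_le_pow_left₀ hy0 hy1 _
      _ ≤ (2 * ((i : ℝ) / n)) ^ (i + k) := pow_le_pow_of_le_one hx0 hx1 (Nat.le_add_right _ _)
  have a4 : (3 : ℝ) ^ u ≤ 9 ^ i := by
    calc (3 : ℝ) ^ u ≤ 3 ^ (2 * i) := pow_le_pow_right₀ (by norm_num) hu2
      _ = 9 ^ i := by rw [pow_mul]; norm_num
  have a5 : (n.choose u : ℝ) * ((u : ℝ) / n) ^ (3 * i) ≤ 9 ^ i * (2 * (i / n)) ^ (i + k) := by
    rw [hd, pow_add, ← mul_assoc]
    exact mul_le_mul (a2.trans a4) a3 (by positivity) (by positivity)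
  have a6 : ((54 : ℝ) * Δ) ^ i ≤ ((54 * Δ) ^ 8) ^ k := by
    rw [← pow_mul]
    exact pow_le_pow_right₀ (by linarith) hk2
  calc ((Δ * n).choose i : ℝ) * (n.choose u : ℝ) * ((u : ℝ) / n) ^ (3 * i)
      = ((Δ * n).choose i : ℝ) * ((n.choose u : ℝ) * ((u : ℝ) / n) ^ (3 * i)) := by ring
    _ ≤ (3 * Δ * (n / i)) ^ i * (9 ^ i * (2 * (i / n)) ^ (i + k)) :=
        mul_le_mul a1 a5 (by positivity) (by positivity)
    _ = (54 * Δ) ^ i * (2 * (i / n)) ^ k := by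
        rw [pow_add, ← mul_assoc, ← mul_assoc, ← mul_pow, ← mul_pow]
        congr 2
        field_simp
        ring
    _ ≤ ((54 * Δ) ^ 8) ^ k * (2 * (i / n)) ^ k :=
        mul_le_mul_of_nonneg_right a6 (by positivity)
    _ = (Cy Δ * i / n) ^ k := by
        rw [← mul_pow]
        congr 1
        unfold Cy
        ring

private theorem sum_geo8 {q : ℝ} (h0 : 0 ≤ q) (h1 : q ≤ 1 / 2) (m : ℕ) :
    ∑ i ∈ Finset.Icc 1 (8 * m), q ^ ((i + 8) / 8) ≤ 16 * q - 16 * q ^ (m + 1) := by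
  induction m with
  | zero => simp
  | succ m ih =>
    have e : 8 * (m + 1) = 8 * m + 1 + 1 + 1 + 1 + 1 + 1 + 1 + 1 := by ring
    rw [e, Finset.sum_Icc_succ_top (by omega), Finset.sum_Icc_succ_top (by omega),
      Finset.sum_Icc_succ_top (by omega), Finset.sum_Icc_succ_top (by omega), Finset.sum_Icc_succ_top (by omega),
      Finset.sum_Icc_succ_top (by omega), Finset.sum_Icc_succ_top (by omega), Finset.sum_Icc_succ_top (by omega)]
    have hq1 : q ≤ 1 := by linarith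
    have t : ∀ j : ℕ, 8 * m + 1 ≤ j → q ^ ((j + 8) / 8) ≤ q ^ (m + 1) := fun j hj =>
      pow_le_pow_of_le_one h0 hq1 (by omega)
    have t1 := t (8 * m + 1) (by omega)
    have t2 := t (8 * m + 1 + 1) (by omega)
    have t3 := t (8 * m + 1 + 1 + 1) (by omega)
    have t4 := t (8 * m + 1 + 1 + 1 + 1) (by omega)
    have t5 := t (8 * m + 1 + 1 + 1 + 1 + 1) (by omega)
    have t6 := t (8 * m + 1 + 1 + 1 + 1 + 1 + 1) (by omega)
    have t7 := t (8 * m + 1 + 1 + 1 + 1 + 1 + 1 + 1) (by omega)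
    have t8 := t (8 * m + 1 + 1 + 1 + 1 + 1 + 1 + 1 + 1) (by omega)
    have hp : 0 ≤ q ^ (m + 1) := pow_nonneg h0 _
    have t9 : q ^ (m + 1 + 1) ≤ q ^ (m + 1) * (1 / 2) := by
      rw [pow_succ q (m + 1)]
      exact mul_le_mul_of_nonneg_left h1 hp
    linarith

private theorem sum_geo15 {q : ℝ} (h0 : 0 ≤ q) (h1 : q ≤ 1 / 2) (r : ℕ) :
    ∑ i ∈ Finset.Icc 1 r, q ^ ((i + 8) / 8) ≤ 16 * q := by
  have h2 := sum_geo8 h0 h1 r
  have h3 : ∑ i ∈ Finset.Icc 1 r, q ^ ((i + 8) / 8) ≤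
      ∑ i ∈ Finset.Icc 1 (8 * r), q ^ ((i + 8) / 8) :=
    Finset.sum_le_sum_of_subset_of_nonneg (Finset.Icc_subset_Icc_right (by omega))
      (fun i _ _ => pow_nonneg h0 _)
  have h4 : 0 ≤ q ^ (r + 1) := pow_nonneg h0 _
  linarith

/-- the number of points -/
private def uu (i : ℕ) : ℕ := (15 * i - 1) / 8

private theorem bad_sub {Δ n r : ℕ} (hr : 2 * r ≤ n) :
    (univ.filter fun φ : Fin (Δ * n) → Cl n => ¬ Exp15 r φ) ⊆
      (Finset.Icc 1 r).biUnion fun i => (powersetCard i (univ : Finset (Fin (Δ * n)))).biUnion fun I =>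
        (powersetCard (uu i) (univ : Finset (Fin n))).biUnion fun A =>
          univ.filter fun φ : Fin (Δ * n) → Cl n => ∀ j ∈ I, cvar (φ j) ⊆ A := by
  intro φ hφ
  rw [Finset.mem_filter] at hφ
  have h1 := hφ.2
  unfold Exp15 at h1
  push Not at h1
  obtain ⟨I, hI, h2⟩ := h1
  have hpos : 1 ≤ I.card := by omega
  have hA : (I.biUnion fun j => cvar (φ j)).card ≤ uu I.card := by
    unfold uu
    omega
  have hn : uu I.card ≤ Fintype.card (Fin n) := by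
    rw [Fintype.card_fin]
    unfold uu
    omega
  obtain ⟨A, hA1, hA2⟩ := Finset.exists_superset_card_eq hA hn
  simp only [Finset.mem_biUnion, Finset.mem_Icc, Finset.mem_powersetCard, Finset.mem_filter,
    Finset.mem_univ, true_and]
  refine ⟨I.card, ⟨hpos, hI⟩, I, ⟨Finset.subset_univ _, rfl⟩, A, ⟨Finset.subset_univ _, hA2⟩, ?_⟩
  intro j hj
  exact (Finset.subset_biUnion_of_mem (fun j => cvar (φ j)) hj).trans hA1

private theorem cov_real {n m : ℕ} (hn : 0 < n) (A : Finset (Fin n)) (I : Finset (Fin m)) :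
    ((univ.filter fun φ : Fin m → Cl n => ∀ j ∈ I, cvar (φ j) ⊆ A).card : ℝ) ≤
      ((A.card : ℝ) / n) ^ (3 * I.card) * Fintype.card (Fin m → Cl n) := by
  have h1 : ((univ.filter fun φ : Fin m → Cl n => ∀ j ∈ I, cvar (φ j) ⊆ A).card : ℝ) *
      (n : ℝ) ^ (3 * I.card) ≤ (A.card : ℝ) ^ (3 * I.card) * Fintype.card (Fin m → Cl n) := by
    exact_mod_cast card_cov A I
  have hn' : (0 : ℝ) < (n : ℝ) ^ (3 * I.card) := by positivity
  rw [div_pow, div_mul_eq_mul_div, le_div_iff₀ hn']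
  exact h1

/-- the first moment -/
private theorem exf_sum {Δ n r : ℕ} (hΔ : 1 ≤ Δ) (hr : 2 * r ≤ n) (hn : 0 < n) :
    ((univ.filter fun φ : Fin (Δ * n) → Cl n => ¬ Exp15 r φ).card : ℝ) ≤
      (∑ i ∈ Finset.Icc 1 r, (Cy Δ * i / n) ^ ((i + 8) / 8)) * Fintype.card (Fin (Δ * n) → Cl n) := by
  set tot : ℝ := (Fintype.card (Fin (Δ * n) → Cl n) : ℝ) with htot
  have htot0 : 0 ≤ tot := Nat.cast_nonneg _
  have h1 : ((univ.filter fun φ : Fin (Δ * n) → Cl n => ¬ Exp15 r φ).card : ℝ) ≤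
      ∑ i ∈ Finset.Icc 1 r, ∑ I ∈ powersetCard i (univ : Finset (Fin (Δ * n))),
        ∑ A ∈ powersetCard (uu i) (univ : Finset (Fin n)),
          ((univ.filter fun φ : Fin (Δ * n) → Cl n => ∀ j ∈ I, cvar (φ j) ⊆ A).card : ℝ) := by
    have h2 : (univ.filter fun φ : Fin (Δ * n) → Cl n => ¬ Exp15 r φ).card ≤
        ∑ i ∈ Finset.Icc 1 r, ∑ I ∈ powersetCard i (univ : Finset (Fin (Δ * n))),
          ∑ A ∈ powersetCard (uu i) (univ : Finset (Fin n)),
            (univ.filter fun φ : Fin (Δ * n) → Cl n => ∀ j ∈ I, cvar (φ j) ⊆ A).card := by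
      refine (Finset.card_le_card (bad_sub hr)).trans ?_
      refine Finset.card_biUnion_le.trans ?_
      refine Finset.sum_le_sum fun i _ => ?_
      refine Finset.card_biUnion_le.trans ?_
      refine Finset.sum_le_sum fun I _ => ?_
      exact Finset.card_biUnion_le
    exact_mod_cast h2
  refine h1.trans ?_
  rw [Finset.sum_mul]
  refine Finset.sum_le_sum fun i hi => ?_
  rw [Finset.mem_Icc] at hi
  have h4 : (∑ I ∈ powersetCard i (univ : Finset (Fin (Δ * n))),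
      ∑ A ∈ powersetCard (uu i) (univ : Finset (Fin n)),
        ((univ.filter fun φ : Fin (Δ * n) → Cl n => ∀ j ∈ I, cvar (φ j) ⊆ A).card : ℝ)) ≤
      ∑ _I ∈ powersetCard i (univ : Finset (Fin (Δ * n))),
        ∑ _A ∈ powersetCard (uu i) (univ : Finset (Fin n)), ((uu i : ℝ) / n) ^ (3 * i) * tot := by
    refine Finset.sum_le_sum fun I hI => Finset.sum_le_sum fun A hA => ?_
    rw [Finset.mem_powersetCard] at hI hA
    have h5 := cov_real hn A I
    rwa [hI.2, hA.2] at h5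
  refine h4.trans ?_
  rw [Finset.sum_const, Finset.sum_const, Finset.card_powersetCard, Finset.card_powersetCard,
    Finset.card_univ, Finset.card_univ, Fintype.card_fin, Fintype.card_fin, nsmul_eq_mul,
    nsmul_eq_mul]
  have hu : 8 * uu i < 15 * i := by
    unfold uu
    omega
  have h5 := rbin15 (n := n) hΔ hi.1 (by omega) hu
  calc ((Δ * n).choose i : ℝ) * ((n.choose (uu i) : ℝ) * (((uu i : ℝ) / n) ^ (3 * i) * tot))
      = (((Δ * n).choose i : ℝ) * (n.choose (uu i) : ℝ) * ((uu i : ℝ) / n) ^ (3 * i)) * tot := by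
        ring
    _ ≤ (Cy Δ * i / n) ^ ((i + 8) / 8) * tot :=
        mul_le_mul_of_nonneg_right h5 htot0

/-- the terms with `i ≤ 8 L` and the other terms -/
private theorem exf_split {C : ℝ} (hC : 0 ≤ C) {n r L : ℕ} (hn : 0 < n) (hr : C * r / n ≤ 1 / 2)
    (hL : C * (8 * L : ℕ) / n ≤ 1 / 2) :
    ∑ i ∈ Finset.Icc 1 r, (C * i / n) ^ ((i + 8) / 8) ≤ 16 * (C * (8 * L : ℕ) / n) + 8 * (1 / 2) ^ L := by
  have hn' : (0 : ℝ) < n := by exact_mod_cast hn
  rw [← Finset.sum_filter_add_sum_filter_not (Finset.Icc 1 r) (fun i => i ≤ 8 * L)]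
  refine add_le_add ?_ ?_
  · refine le_trans ?_ (sum_geo15 (by positivity) hL (8 * L))
    have h1 : ∑ i ∈ (Finset.Icc 1 r).filter (fun i => i ≤ 8 * L), (C * i / n) ^ ((i + 8) / 8) ≤
        ∑ i ∈ (Finset.Icc 1 r).filter (fun i => i ≤ 8 * L), (C * (8 * L : ℕ) / n) ^ ((i + 8) / 8) := by
      refine Finset.sum_le_sum fun i hi => ?_
      rw [Finset.mem_filter] at hi
      have h7 : (i : ℝ) ≤ (8 * L : ℕ) := by exact_mod_cast hi.2
      have h8 : C * i / n ≤ C * (8 * L : ℕ) / n :=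
        div_le_div_of_nonneg_right (mul_le_mul_of_nonneg_left h7 hC) hn'.le
      exact pow_le_pow_left₀ (by positivity) h8 _
    refine h1.trans ?_
    refine Finset.sum_le_sum_of_subset_of_nonneg ?_ fun i _ _ => by positivity
    intro i hi
    rw [Finset.mem_filter, Finset.mem_Icc] at hi
    exact Finset.mem_Icc.2 ⟨hi.1.1, hi.2⟩
  · have h1 : ∑ i ∈ (Finset.Icc 1 r).filter (fun i => ¬ i ≤ 8 * L), (C * i / n) ^ ((i + 8) / 8) ≤
        ∑ i ∈ (Finset.Icc 1 r).filter (fun i => ¬ i ≤ 8 * L), (1 / 2 : ℝ) ^ ((i + 8) / 8) := by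
      refine Finset.sum_le_sum fun i hi => ?_
      rw [Finset.mem_filter, Finset.mem_Icc] at hi
      have h7 : (i : ℝ) ≤ r := by exact_mod_cast hi.1.2
      have h8 : C * i / n ≤ C * r / n :=
        div_le_div_of_nonneg_right (mul_le_mul_of_nonneg_left h7 hC) hn'.le
      exact pow_le_pow_left₀ (by positivity) (h8.trans hr) _
    refine h1.trans ?_
    have h2 : (Finset.Icc 1 r).filter (fun i => ¬ i ≤ 8 * L) ⊆ (Finset.Icc 1 r).map (addLeftEmbedding (8 * L)) := by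
      intro i hi
      rw [Finset.mem_filter, Finset.mem_Icc] at hi
      rw [Finset.mem_map]
      refine ⟨i - 8 * L, Finset.mem_Icc.2 ⟨by omega, by omega⟩, ?_⟩
      rw [addLeftEmbedding_apply]
      omega
    refine (Finset.sum_le_sum_of_subset_of_nonneg h2 fun i _ _ => by positivity).trans ?_
    rw [Finset.sum_map]
    have h3 : ∀ i ∈ Finset.Icc 1 r, (1 / 2 : ℝ) ^ (((addLeftEmbedding (8 * L) i) + 8) / 8) =
        (1 / 2) ^ L * (1 / 2 : ℝ) ^ ((i + 8) / 8) := by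
      intro i _
      rw [addLeftEmbedding_apply]
      have e : (8 * L + i + 8) / 8 = L + (i + 8) / 8 := by omega
      rw [e, pow_add]
    rw [Finset.sum_congr rfl h3, ← Finset.mul_sum]
    have h4 := sum_geo15 (q := (1 / 2 : ℝ)) (by norm_num) le_rfl r
    have h5 : (0 : ℝ) ≤ (1 / 2) ^ L := by positivity
    nlinarith

theorem exf {Δ : ℕ} (hΔ : 1 ≤ Δ) : ∃ c : ℝ, 0 < c ∧ c ≤ 1 / 2 ∧ ∀ e : ℝ, 0 < e → ∃ n0 : ℕ, ∀ n : ℕ, n0 ≤ n →
    ((univ.filter fun φ : Fin (Δ * n) → Cl n => ¬ Exp15 ⌊c * n⌋₊ φ).card : ℝ) ≤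
      e * Fintype.card (Fin (Δ * n) → Cl n) := by
  have hCx : 0 < Cy Δ := by
    unfold Cy
    positivity
  refine ⟨min (1 / 2) (1 / (2 * Cy Δ)), by positivity, min_le_left _ _, fun e he => ?_⟩
  set c : ℝ := min (1 / 2) (1 / (2 * Cy Δ)) with hc
  have hc0 : 0 < c := by positivity
  obtain ⟨L, hL⟩ := exists_pow_lt_of_lt_one (show (0 : ℝ) < e / 16 by positivity) (show (1 / 2 : ℝ) < 1 by norm_num)
  obtain ⟨n1, hn1⟩ := exists_nat_ge (max (2 * (Cy Δ * (8 * L : ℕ))) (32 * (Cy Δ * (8 * L : ℕ)) / e))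
  refine ⟨n1 + 1, fun n hn => ?_⟩
  have hn0 : 0 < n := by omega
  have hn' : (0 : ℝ) < n := by exact_mod_cast hn0
  have hn2 : (n1 : ℝ) ≤ n := by exact_mod_cast (by omega : n1 ≤ n)
  have h1 : 2 * (Cy Δ * (8 * L : ℕ)) ≤ n := (le_max_left _ _).trans (hn1.trans hn2)
  have h2 : 32 * (Cy Δ * (8 * L : ℕ)) / e ≤ n := (le_max_right _ _).trans (hn1.trans hn2)
  have hfl : ((⌊c * n⌋₊ : ℕ) : ℝ) ≤ c * n := Nat.floor_le (by positivity)
  have hr2 : 2 * ⌊c * n⌋₊ ≤ n := by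
    have h3 : c * n ≤ 1 / 2 * n := mul_le_mul_of_nonneg_right (min_le_left _ _) hn'.le
    have h4 : (2 * ⌊c * n⌋₊ : ℝ) ≤ n := by linarith
    exact_mod_cast h4
  have hrC : Cy Δ * (⌊c * n⌋₊ : ℕ) / n ≤ 1 / 2 := by
    rw [div_le_iff₀ hn']
    have h3 : c * n ≤ 1 / (2 * Cy Δ) * n := mul_le_mul_of_nonneg_right (min_le_right _ _) hn'.le
    calc Cy Δ * (⌊c * n⌋₊ : ℕ) ≤ Cy Δ * (1 / (2 * Cy Δ) * n) := mul_le_mul_of_nonneg_left (hfl.trans h3) hCx.le
      _ = 1 / 2 * n := by field_simp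
  have hLC : Cy Δ * (8 * L : ℕ) / n ≤ 1 / 2 := by
    rw [div_le_iff₀ hn']
    linarith
  refine (exf_sum hΔ hr2 hn0).trans ?_
  refine mul_le_mul_of_nonneg_right ?_ (Nat.cast_nonneg _)
  refine (exf_split hCx.le hn0 hrC hLC).trans ?_
  have h5 : 16 * (Cy Δ * (8 * L : ℕ) / n) ≤ e / 2 := by
    rw [div_le_iff₀ he] at h2
    rw [← mul_div_assoc, div_le_iff₀ hn']
    linarith
  linarith

end Pool.H86.XP
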