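import Mathlib
import Pool.Agent.H86.XP.Defs

set_option autoImplicit false
set_option linter.unusedSectionVars false

/-!
# Module BSC (THEOREM LP): basic facts on parities, states and truth
-/

namespace Pool.H86.XP

open Finset Classical Pool.Agent.H3.Frg Pool.Agent.H3.Frg2 Pool.Agent.H3.Frg4 Pool.Agent.H55.QT Pool.H6.LD

variable {n K s : ℕ} {W W' : Wd n} {c c' : Finset (Fin n) → Bool} {thr : ℕ → ℕ}

theorem px_congr {x y : Fin n → Bool} {S : Finset (Fin n)} (h : ∀ v ∈ S, x v = y v) : px x S = px y S := by
  unfold px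
  have h1 : (S.filter fun v => x v = true) = S.filter fun v => y v = true :=
    Finset.filter_congr fun v hv => by rw [h v hv]
  rw [h1]

theorem px_sm (x : Fin n → Bool) (S : Finset (Fin n)) : sm x S = if px x S = true then 1 else 0 := by
  unfold sm px
  rw [Finset.sum_boole]
  rcases Nat.even_or_odd (S.filter fun v => x v = true).card with h | h
  · have h1 : ¬ Odd (S.filter fun v => x v = true).card := Nat.not_odd_iff_even.2 h
    have h2 : (((S.filter fun v => x v = true).card : ℕ) : ZMod 2) = 0 := (ZMod.natCast_eq_zero_iff_even).2 h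
    rw [h2]
    simp [h1]
  · have h2 : (((S.filter fun v => x v = true).card : ℕ) : ZMod 2) = 1 := (ZMod.natCast_eq_one_iff_odd).2 h
    rw [h2]
    simp [h]

theorem px_empty (x : Fin n → Bool) : px x ∅ = false := by
  unfold px
  simp

theorem px_single (x : Fin n → Bool) (v : Fin n) : px x {v} = x v := by
  unfold px
  rw [Finset.filter_singleton]
  cases h : x v <;> simp

theorem evx_congr {F : Fx n} {x y : Fin n → Bool} (h : ∀ v ∈ vx F, x v = y v) :
    F.eval (px x) = F.eval (px y) := by
  induction F with
  | var S => exact px_congr h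
  | neg A ih =>
    have h1 : A.eval (px x) = A.eval (px y) := ih h
    simp only [Fm.eval, h1]
  | imp A B ihA ihB =>
    have h1 : A.eval (px x) = A.eval (px y) := ihA fun v hv => h v (by simp [vx, hv])
    have h2 : B.eval (px x) = B.eval (px y) := ihB fun v hv => h v (by simp [vx, hv])
    simp only [Fm.eval, h1, h2]

theorem lx_pos (F : Fx n) : 1 ≤ lx F := by
  induction F with
  | var v => exact le_max_left _ _
  | neg A ih => exact ih
  | imp A B ihA ihB => exact ihA.trans (Nat.le_add_right _ _)

theorem vx_card (F : Fx n) : (vx F).card ≤ lx F := by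
  induction F with
  | var v => exact le_max_right _ _
  | neg A ih => exact ih
  | imp A B ihA ihB =>
    simp only [vx, lx]
    exact (card_union_le _ _).trans (Nat.add_le_add ihA ihB)

theorem leaves_lx (F : Fx n) : F.leaves ≤ lx F := by
  induction F with
  | var v => exact le_max_left _ _
  | neg A ih => exact ih
  | imp A B ihA ihB =>
    simp only [Fm.leaves, lx]
    exact Nat.add_le_add ihA ihB

theorem mem_lg {F : Fx n} {S : Finset (Fin n)} : S ∈ lg s F ↔ S ∈ ax F ∧ s < S.card := by
  unfold lg
  exact mem_filter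

theorem lg_sub {A B : Fx n} (h : ax A ⊆ ax B) : lg s A ⊆ lg s B := by
  intro S hS
  rw [mem_lg] at hS ⊢
  exact ⟨h hS.1, hS.2⟩

theorem lg_neg (A : Fx n) : lg s (.neg A) = lg s A := rfl

theorem lg_imp (A B : Fx n) : lg s (.imp A B) = lg s A ∪ lg s B := by
  unfold lg
  exact filter_union _ _ _

theorem Cmt.sub {G G' : Finset (Finset (Fin n))} (h : G' ⊆ G) (hc : Cmt W c G) : Cmt W c G' :=
  fun S hS => hc S (h hS)

theorem ax_vx {F : Fx n} {S : Finset (Fin n)} (h : S ∈ ax F) : S ⊆ vx F := by
  induction F with
  | var v =>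
    have h1 : ax (Fm.var v) = {v} := rfl
    rw [h1, mem_singleton] at h
    rw [h]
    exact Subset.refl _
  | neg A ih => exact ih h
  | imp A B ihA ihB =>
    have h1 : ax (Fm.imp A B) = ax A ∪ ax B := rfl
    rw [h1, mem_union] at h
    rcases h with h | h
    · exact (ihA h).trans subset_union_left
    · exact (ihB h).trans subset_union_right

theorem Lx.mono (h : Wld W K) {D D' : Finset (Fin n)} {x x' : Fin n → Bool} {F : Fx n} {b : Bool}
    (hD : D ⊆ D') (hx : ∀ v ∈ D, x' v = x v) (hl : Lx W D x F b) : Lx W D' x' F b := by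
  intro y hy hc
  exact hl y (fun v hv => (hy v (hD hv)).trans (hx v hv))
    (h.mono _ _ _ (union_subset_union hD subset_rfl) hc)

theorem Lx.le (hle : ∀ D y, W D y → W' D y) {D : Finset (Fin n)} {x : Fin n → Bool} {F : Fx n} {b : Bool}
    (hl : Lx W' D x F b) : Lx W D x F b :=
  fun y hy hc => hl y hy (hle _ _ hc)

theorem tx_short {D : Finset (Fin n)} {x : Fin n → Bool} {S : Finset (Fin n)} {b i : Bool} (hS : S.card ≤ s) :
    Tx W c s thr D x (.var S) b i ↔ Lx W D x (.var S) b := by
  simp only [Tx]
  rw [if_pos hS]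

theorem tx_long {D : Finset (Fin n)} {x : Fin n → Bool} {S : Finset (Fin n)} {b i : Bool} (hS : ¬ S.card ≤ s) :
    Tx W c s thr D x (.var S) b i ↔ c S = b := by
  simp only [Tx]
  rw [if_neg hS]

theorem tx_neg {D : Finset (Fin n)} {x : Fin n → Bool} {A : Fx n}
    {b i : Bool} : Tx W c s thr D x (.neg A) b i ↔ Tx W c s thr D x A (!b) i := Iff.rfl

theorem tx_impf {D : Finset (Fin n)} {x : Fin n → Bool} {A B : Fx n}
    {i : Bool} : Tx W c s thr D x (.imp A B) false i ↔
      Tx W c s thr D x A true false ∧ Tx W c s thr D x B false false := Iff.rfl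

theorem tx_impt {D : Finset (Fin n)} {x : Fin n → Bool} {A B : Fx n}
    {i : Bool} (hi : i = false ∧ lx (Fm.imp A B) < thr (alt (Fm.imp A B) true)) :
    Tx W c s thr D x (.imp A B) true i ↔ Lx W D x (.imp A B) true := by
  simp only [Tx]
  rw [if_pos hi]

theorem tx_impn {D : Finset (Fin n)} {x : Fin n → Bool} {A B : Fx n}
    {i : Bool} (hi : ¬ (i = false ∧ lx (Fm.imp A B) < thr (alt (Fm.imp A B) true))) :
    Tx W c s thr D x (.imp A B) true i ↔
      Tx W c s thr D x A false true ∨ Tx W c s thr D x B true true := by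
  simp only [Tx]
  rw [if_neg hi]

theorem Tx.mono (h : Wld W K) {D D' : Finset (Fin n)} {x x' : Fin n → Bool}
    {F : Fx n} {b i : Bool} (hD : D ⊆ D') (hx : ∀ v ∈ D, x' v = x v)
    (hl : Tx W c s thr D x F b i) : Tx W c s thr D' x' F b i := by
  induction F generalizing b i with
  | var S =>
    by_cases hS : S.card ≤ s
    · exact (tx_short hS).2 (Lx.mono h hD hx ((tx_short hS).1 hl))
    · exact (tx_long hS).2 ((tx_long hS).1 hl)
  | neg A ih => exact ih (tx_neg.1 hl)
  | imp A B ihA ihB =>
    cases b with
    | false =>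
      obtain ⟨h1, h2⟩ := tx_impf.1 hl
      exact tx_impf.2 ⟨ihA h1, ihB h2⟩
    | true =>
      by_cases hi : i = false ∧ lx (Fm.imp A B) < thr (alt (Fm.imp A B) true)
      · exact (tx_impt hi).2 (Lx.mono h hD hx ((tx_impt hi).1 hl))
      · rcases (tx_impn hi).1 hl with h1 | h1
        · exact (tx_impn hi).2 (Or.inl (ihA h1))
        · exact (tx_impn hi).2 (Or.inr (ihB h1))

/-- smaller worlds, other commitments with the same values for the atoms of the formula -/
theorem Tx.le (hle : ∀ D y, W D y → W' D y) {D : Finset (Fin n)} {x : Fin n → Bool}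
    {F : Fx n} {b i : Bool} (hcc : ∀ S ∈ lg s F, c S = c' S)
    (hl : Tx W' c' s thr D x F b i) : Tx W c s thr D x F b i := by
  induction F generalizing b i with
  | var S =>
    by_cases hS : S.card ≤ s
    · exact (tx_short hS).2 (Lx.le hle ((tx_short hS).1 hl))
    · refine (tx_long hS).2 ?_
      rw [hcc S (mem_lg.2 ⟨mem_singleton_self _, not_le.1 hS⟩)]
      exact (tx_long hS).1 hl
  | neg A ih => exact ih hcc (tx_neg.1 hl)
  | imp A B ihA ihB =>
    rw [lg_imp] at hcc
    have hA : ∀ S ∈ lg s A, c S = c' S := fun S hS => hcc S (mem_union_left _ hS)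
    have hB : ∀ S ∈ lg s B, c S = c' S := fun S hS => hcc S (mem_union_right _ hS)
    cases b with
    | false =>
      obtain ⟨h1, h2⟩ := tx_impf.1 hl
      exact tx_impf.2 ⟨ihA hA h1, ihB hB h2⟩
    | true =>
      by_cases hi : i = false ∧ lx (Fm.imp A B) < thr (alt (Fm.imp A B) true)
      · exact (tx_impt hi).2 (Lx.le hle ((tx_impt hi).1 hl))
      · rcases (tx_impn hi).1 hl with h1 | h1
        · exact (tx_impn hi).2 (Or.inl (ihA hA h1))
        · exact (tx_impn hi).2 (Or.inr (ihB hB h1))

theorem Tx.lt (h : Wld W K) {D : Finset (Fin n)} {x : Fin n → Bool}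
    {F : Fx n} {b i : Bool} (hcm : Cmt W c (lg s F)) (hl : Tx W c s thr D x F b i) : Lx W D x F b := by
  induction F generalizing b i with
  | var S =>
    by_cases hS : S.card ≤ s
    · exact (tx_short hS).1 hl
    · intro y _ hc
      have h1 := hcm S (mem_lg.2 ⟨mem_singleton_self _, not_le.1 hS⟩) (D ∪ vx (Fm.var S)) y
        subset_union_right hc
      rw [← (tx_long hS).1 hl]
      exact h1
  | neg A ih =>
    intro y hy hc
    have h1 : A.eval (px y) = !b := ih hcm (tx_neg.1 hl) y hy hc
    simp only [Fm.eval, h1, Bool.not_not]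
  | imp A B ihA ihB =>
    have hA : D ∪ vx A ⊆ D ∪ vx (Fm.imp A B) := by
      intro w hw
      simp only [vx, mem_union] at hw ⊢
      tauto
    have hB : D ∪ vx B ⊆ D ∪ vx (Fm.imp A B) := by
      intro w hw
      simp only [vx, mem_union] at hw ⊢
      tauto
    rw [lg_imp] at hcm
    have hcA : Cmt W c (lg s A) := hcm.sub subset_union_left
    have hcB : Cmt W c (lg s B) := hcm.sub subset_union_right
    cases b with
    | false =>
      obtain ⟨h1, h2⟩ := tx_impf.1 hl
      intro y hy hc
      have h3 : A.eval (px y) = true := ihA hcA h1 y hy (h.mono _ _ _ hA hc)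
      have h4 : B.eval (px y) = false := ihB hcB h2 y hy (h.mono _ _ _ hB hc)
      simp [Fm.eval, h3, h4]
    | true =>
      by_cases hi : i = false ∧ lx (Fm.imp A B) < thr (alt (Fm.imp A B) true)
      · exact (tx_impt hi).1 hl
      · intro y hy hc
        rcases (tx_impn hi).1 hl with h1 | h1
        · have h3 : A.eval (px y) = false := ihA hcA h1 y hy (h.mono _ _ _ hA hc)
          simp [Fm.eval, h3]
        · have h3 : B.eval (px y) = true := ihB hcB h1 y hy (h.mono _ _ _ hB hc)
          simp [Fm.eval, h3]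

theorem lx_full {D : Finset (Fin n)} {x : Fin n → Bool}
    {F : Fx n} {b : Bool} (hF : vx F ⊆ D) (he : F.eval (px x) = b) : Lx W D x F b := by
  intro y hy _
  rw [← he]
  exact evx_congr fun v hv => hy v (hF hv)

theorem tx_full {D : Finset (Fin n)} {x : Fin n → Bool}
    {F : Fx n} {b i : Bool} (hcm : Cmt W c (lg s F)) (hW : W D x) (hF : vx F ⊆ D)
    (he : F.eval (px x) = b) : Tx W c s thr D x F b i := by
  induction F generalizing b i with
  | var S =>
    by_cases hS : S.card ≤ s
    · exact (tx_short hS).2 (lx_full hF he)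
    · refine (tx_long hS).2 ?_
      rw [← hcm S (mem_lg.2 ⟨mem_singleton_self _, not_le.1 hS⟩) D x hF hW]
      exact he
  | neg A ih =>
    refine tx_neg.2 (ih hcm hF ?_)
    rw [← he]
    simp [Fm.eval]
  | imp A B ihA ihB =>
    have hA : vx A ⊆ D := fun w hw => hF (by simp [vx, hw])
    have hB : vx B ⊆ D := fun w hw => hF (by simp [vx, hw])
    rw [lg_imp] at hcm
    have hcA : Cmt W c (lg s A) := hcm.sub subset_union_left
    have hcB : Cmt W c (lg s B) := hcm.sub subset_union_right
    cases b with
    | false =>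
      simp only [Fm.eval, Bool.or_eq_false_iff, Bool.not_eq_false'] at he
      exact tx_impf.2 ⟨ihA hcA hA he.1, ihB hcB hB he.2⟩
    | true =>
      by_cases hi : i = false ∧ lx (Fm.imp A B) < thr (alt (Fm.imp A B) true)
      · exact (tx_impt hi).2 (lx_full hF he)
      · simp only [Fm.eval, Bool.or_eq_true, Bool.not_eq_true'] at he
        rcases he with h1 | h1
        · exact (tx_impn hi).2 (Or.inl (ihA hcA hA h1))
        · exact (tx_impn hi).2 (Or.inr (ihB hcB hB h1))

/-- The length of the formulas of a list. -/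
def lxs (l : List (Fx n × Bool)) : ℕ := (l.map fun p => lx p.1).sum

theorem lxs_append (l l' : List (Fx n × Bool)) : lxs (l ++ l') = lxs l + lxs l' := by
  simp [lxs]

theorem lxs_cons (p : Fx n × Bool) (l : List (Fx n × Bool)) : lxs (p :: l) = lx p.1 + lxs l := by
  simp [lxs]

theorem lxs_one (F : Fx n) (b : Bool) : lxs [(F, b)] = lx F := by
  simp [lxs]

theorem cj_lxs (F : Fx n) (b : Bool) : lxs (cj F b) = lx F := by
  induction F generalizing b with
  | var v => exact lxs_one _ _
  | neg A ih => exact ih _
  | imp A B ihA ihB =>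
    cases b with
    | false =>
      simp only [cj, lxs_append, ihA, ihB]
      rfl
    | true => exact lxs_one _ _

theorem dj_lxs (F : Fx n) (b : Bool) : lxs (dj F b) = lx F := by
  induction F generalizing b with
  | var v => exact lxs_one _ _
  | neg A ih => exact ih _
  | imp A B ihA ihB =>
    cases b with
    | true =>
      simp only [dj, lxs_append, ihA, ihB]
      rfl
    | false => exact lxs_one _ _

theorem tx_cj {D : Finset (Fin n)} {x : Fin n → Bool} {F : Fx n} {b : Bool} :
    Tx W c s thr D x F b false ↔ ∀ p ∈ cj F b, Tx W c s thr D x p.1 p.2 false := by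
  induction F generalizing b with
  | var v => simp [cj]
  | neg A ih => exact tx_neg.trans ih
  | imp A B ihA ihB =>
    cases b with
    | false =>
      rw [tx_impf, ihA, ihB]
      simp only [cj, List.forall_mem_append]
    | true => simp [cj]

theorem tx_dj {D : Finset (Fin n)} {x : Fin n → Bool} {F : Fx n} {b : Bool} :
    Tx W c s thr D x F b true ↔ ∃ p ∈ dj F b, Tx W c s thr D x p.1 p.2 false := by
  induction F generalizing b with
  | var v =>
    simp only [dj, List.mem_singleton, exists_eq_left]
    exact Iff.rfl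
  | neg A ih => exact tx_neg.trans ih
  | imp A B ihA ihB =>
    cases b with
    | false =>
      simp only [dj, List.mem_singleton, exists_eq_left]
      exact Iff.rfl
    | true =>
      rw [tx_impn (by simp), ihA, ihB]
      simp only [dj, List.mem_append, or_and_right, exists_or]

theorem cj_ax {F : Fx n} {b : Bool} {p : Fx n × Bool} (h : p ∈ cj F b) : ax p.1 ⊆ ax F := by
  induction F generalizing b with
  | var v =>
    have h1 : cj (Fm.var v) b = [(Fm.var v, b)] := by cases b <;> rfl
    rw [h1, List.mem_singleton] at h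
    rw [h]
  | neg A ih =>
    have h1 : cj (Fm.neg A) b = cj A (!b) := by cases b <;> rfl
    rw [h1] at h
    exact ih h
  | imp A B ihA ihB =>
    cases b with
    | false =>
      have h1 : cj (Fm.imp A B) false = cj A true ++ cj B false := rfl
      rw [h1, List.mem_append] at h
      have h2 : ax (Fm.imp A B) = ax A ∪ ax B := rfl
      rw [h2]
      rcases h with h | h
      · exact (ihA h).trans subset_union_left
      · exact (ihB h).trans subset_union_right
    | true =>
      have h1 : cj (Fm.imp A B) true = [(Fm.imp A B, true)] := rfl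
      rw [h1, List.mem_singleton] at h
      rw [h]

theorem dj_ax {F : Fx n} {b : Bool} {p : Fx n × Bool} (h : p ∈ dj F b) : ax p.1 ⊆ ax F := by
  have h1 := cj_ax (cj_dj.1 h)
  exact h1

theorem cj_vx {F : Fx n} {b : Bool} {p : Fx n × Bool} (h : p ∈ cj F b) : vx p.1 ⊆ vx F := by
  induction F generalizing b with
  | var v =>
    have h1 : cj (Fm.var v) b = [(Fm.var v, b)] := by cases b <;> rfl
    rw [h1, List.mem_singleton] at h
    rw [h]
  | neg A ih =>
    have h1 : cj (Fm.neg A) b = cj A (!b) := by cases b <;> rfl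
    rw [h1] at h
    exact ih h
  | imp A B ihA ihB =>
    cases b with
    | false =>
      have h1 : cj (Fm.imp A B) false = cj A true ++ cj B false := rfl
      rw [h1, List.mem_append] at h
      have h2 : vx (Fm.imp A B) = vx A ∪ vx B := rfl
      rw [h2]
      rcases h with h | h
      · exact (ihA h).trans subset_union_left
      · exact (ihB h).trans subset_union_right
    | true =>
      have h1 : cj (Fm.imp A B) true = [(Fm.imp A B, true)] := rfl
      rw [h1, List.mem_singleton] at h
      rw [h]

theorem dj_vx {F : Fx n} {b : Bool} {p : Fx n × Bool} (h : p ∈ dj F b) : vx p.1 ⊆ vx F := by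
  have h1 := cj_vx (cj_dj.1 h)
  exact h1

/-- every atom of `F` is an atom of a conjunct -/
theorem ax_cj {F : Fx n} {b : Bool} {S : Finset (Fin n)} (h : S ∈ ax F) : ∃ p ∈ cj F b, S ∈ ax p.1 := by
  induction F generalizing b with
  | var v =>
    have h1 : cj (Fm.var v) b = [(Fm.var v, b)] := by cases b <;> rfl
    rw [h1]
    exact ⟨_, List.mem_singleton.2 rfl, h⟩
  | neg A ih =>
    have h1 : cj (Fm.neg A) b = cj A (!b) := by cases b <;> rfl
    rw [h1]
    exact ih h
  | imp A B ihA ihB =>
    cases b with
    | false =>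
      have h1 : cj (Fm.imp A B) false = cj A true ++ cj B false := rfl
      rw [h1]
      have h2 : ax (Fm.imp A B) = ax A ∪ ax B := rfl
      rw [h2, mem_union] at h
      rcases h with h | h
      · obtain ⟨p, hp, h3⟩ := ihA (b := true) h
        exact ⟨p, List.mem_append_left _ hp, h3⟩
      · obtain ⟨p, hp, h3⟩ := ihB (b := false) h
        exact ⟨p, List.mem_append_right _ hp, h3⟩
    | true =>
      have h1 : cj (Fm.imp A B) true = [(Fm.imp A B, true)] := rfl
      rw [h1]
      exact ⟨_, List.mem_singleton.2 rfl, h⟩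

theorem ax_dj {F : Fx n} {b : Bool} {S : Finset (Fin n)} (h : S ∈ ax F) : ∃ p ∈ dj F b, S ∈ ax p.1 := by
  obtain ⟨p, hp, h1⟩ := ax_cj (b := !b) h
  refine ⟨(p.1, !p.2), ?_, h1⟩
  rw [cj_dj]
  simpa using hp

end Pool.H86.XP
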