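import Mathlib
import Pool.Agent.H6.LE.Wgt
import Pool.Agent.H86.XP.Bsc

set_option autoImplicit false
set_option linter.unusedSectionVars false

/-!
# Module WGT (THEOREM LP): basic facts on weights
-/

namespace Pool.H86.XP

open Finset Classical Pool.Agent.H3.Frg Pool.Agent.H3.Frg2 Pool.Agent.H3.Frg4 Pool.Agent.H55.QT Pool.H6.LD

variable {n k s : ℕ}

theorem wx_imp (A B : Fx n) : wx k (.imp A B) true = wx k (.imp A B) false + om k (lx (Fm.imp A B)) := rfl

theorem wx_pm (F : Fx n) : wx k F true ≤ wx k F false + om k (lx F) ∧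
    wx k F false ≤ wx k F true + om k (lx F) := by
  induction F with
  | var v => exact ⟨Nat.zero_le _, Nat.zero_le _⟩
  | neg A ih => exact ⟨ih.2, ih.1⟩
  | imp A B _ _ =>
    rw [wx_imp]
    exact ⟨le_rfl, by omega⟩

theorem lwx_cons (p : Fx n × Bool) (l : List (Fx n × Bool)) : lwx k (p :: l) = wx k p.1 p.2 + lwx k l := by
  simp [lwx]

theorem lwx_append (l l' : List (Fx n × Bool)) : lwx k (l ++ l') = lwx k l + lwx k l' := by
  simp [lwx]

theorem lwx_filter (l : List (Fx n × Bool)) (P : Fx n × Bool → Bool) :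
    lwx k (l.filter P) ≤ lwx k l := by
  induction l with
  | nil => simp [lwx]
  | cons a l ih =>
    rw [List.filter_cons]
    split_ifs
    · rw [lwx_cons, lwx_cons]
      omega
    · rw [lwx_cons]
      omega

theorem lwx_mem {l : List (Fx n × Bool)} {p : Fx n × Bool} (h : p ∈ l) : wx k p.1 p.2 ≤ lwx k l := by
  induction l with
  | nil => simp at h
  | cons a l ih =>
    rw [lwx_cons]
    rcases List.mem_cons.1 h with rfl | h
    · omega
    · have := ih h
      omega

theorem cj_lwx (F : Fx n) (b : Bool) : lwx k (cj F b) = wx k F b := by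
  induction F generalizing b with
  | var v => simp [cj, lwx]
  | neg A ih => exact ih _
  | imp A B ihA ihB =>
    cases b with
    | false =>
      simp only [cj, lwx_append, ihA, ihB]
      rfl
    | true => simp [cj, lwx]

theorem lwx_flat (l : List (Fx n × Bool)) : lwx k (l.flatMap fun p => cj p.1 p.2) = lwx k l := by
  induction l with
  | nil => simp [lwx]
  | cons a l ih => rw [List.flatMap_cons, lwx_append, lwx_cons, ih, cj_lwx]

theorem dj_wx {F : Fx n} {b : Bool} {p : Fx n × Bool} (h : p ∈ dj F b) : wx k p.1 p.2 ≤ wx k F (!b) := by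
  have h1 := lwx_mem (k := k) (cj_dj.1 h)
  rw [cj_lwx] at h1
  refine le_trans ?_ h1
  rcases dj_form h with ⟨v, hv⟩ | ⟨A, B, hA, hb⟩
  · rw [hv]
    exact Nat.zero_le _
  · rw [hA, hb]
    show wx k (Fm.imp A B) false ≤ wx k (Fm.imp A B) true
    rw [wx_imp]
    omega

theorem dj_wx' {A B : Fx n} {p : Fx n × Bool} (h : p ∈ dj (.imp A B) true) :
    wx k p.1 p.2 + om k (lx (Fm.imp A B)) ≤ wx k (.imp A B) true := by
  have h1 := dj_wx (k := k) h
  have h2 : wx k (Fm.imp A B) (!true) = wx k (Fm.imp A B) false := rfl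
  rw [h2] at h1
  rw [wx_imp]
  omega

theorem ps_ax {F : Fx n} : ∀ P ∈ ps k F, ax P ⊆ ax F := by
  induction F with
  | var v =>
    intro P hP
    have h1 : ps k (Fm.var v) = {.var v} := rfl
    rw [h1, mem_singleton] at hP
    rw [hP]
  | neg A ih =>
    intro P hP
    by_cases h : Pc k (Fm.neg A)
    · rw [ps_piece h, mem_singleton] at hP
      rw [hP]
    · rw [ps_neg h] at hP
      exact ih P hP
  | imp A B ihA ihB =>
    intro P hP
    by_cases h : Pc k (Fm.imp A B)
    · rw [ps_piece h, mem_singleton] at hP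
      rw [hP]
    · rw [ps_imp h, mem_union] at hP
      rcases hP with hP | hP
      · exact (ihA P hP).trans subset_union_left
      · exact (ihB P hP).trans subset_union_right

theorem ps_vx {F : Fx n} : ∀ P ∈ ps k F, vx P ⊆ vx F := by
  induction F with
  | var v =>
    intro P hP
    have h1 : ps k (Fm.var v) = {.var v} := rfl
    rw [h1, mem_singleton] at hP
    rw [hP]
  | neg A ih =>
    intro P hP
    by_cases h : Pc k (Fm.neg A)
    · rw [ps_piece h, mem_singleton] at hP
      rw [hP]
    · rw [ps_neg h] at hP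
      exact ih P hP
  | imp A B ihA ihB =>
    intro P hP
    by_cases h : Pc k (Fm.imp A B)
    · rw [ps_piece h, mem_singleton] at hP
      rw [hP]
    · rw [ps_imp h, mem_union] at hP
      rcases hP with hP | hP
      · exact (ihA P hP).trans subset_union_left
      · exact (ihB P hP).trans subset_union_right

theorem ps_lg {F : Fx n} : ∀ P ∈ ps k F, lg s P ⊆ lg s F := fun P hP => lg_sub (ps_ax P hP)

theorem cj_lg {F : Fx n} {b : Bool} {p : Fx n × Bool} (h : p ∈ cj F b) : lg s p.1 ⊆ lg s F := lg_sub (cj_ax h)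

theorem mx_negx (A : Fx n) : max (wx k (.neg A) true) (wx k (.neg A) false) =
    max (wx k A true) (wx k A false) := by
  show max (wx k A false) (wx k A true) = _
  exact max_comm _ _

theorem mx_impx (A B : Fx n) : max (wx k A true) (wx k A false) ≤
    max (wx k (.imp A B) true) (wx k (.imp A B) false) ∧ max (wx k B true) (wx k B false) ≤
    max (wx k (.imp A B) true) (wx k (.imp A B) false) := by
  have h1 := (wx_pm (k := k) A)
  have h2 := (wx_pm (k := k) B)
  have h3 : wx k (.imp A B) true = wx k A true + wx k B false + om k (lx (Fm.imp A B)) := rfl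
  have h4 : lx (Fm.imp A B) = lx A + lx B := rfl
  have h5 := om_mono (k := k) (show lx A ≤ lx (Fm.imp A B) by omega)
  have h6 := om_mono (k := k) (show lx B ≤ lx (Fm.imp A B) by omega)
  constructor
  · refine (max_le ?_ ?_).trans (le_max_left _ _)
    · omega
    · omega
  · refine (max_le ?_ ?_).trans (le_max_left _ _)
    · omega
    · omega

theorem fwx_neg {M W : ℕ} {A : Fx n} (h : Fwx k M W (.neg A)) : Fwx k M W A := by
  by_cases hp : Pc k (Fm.neg A)
  · obtain ⟨h1, h2⟩ := h
    rw [ps_piece hp] at h1 h2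
    rw [sum_singleton, mx_negx] at h2
    unfold Fwx
    rw [ps_piece (pc_neg.1 hp), sum_singleton]
    exact ⟨h1, h2⟩
  · obtain ⟨h1, h2⟩ := h
    rw [ps_neg hp] at h1 h2
    exact ⟨h1, h2⟩

theorem fwx_imp {M W : ℕ} {A B : Fx n} (h : Fwx k M W (.imp A B)) : Fwx k M W A ∧ Fwx k M W B := by
  by_cases hp : Pc k (Fm.imp A B)
  · obtain ⟨h1, h2⟩ := h
    rw [ps_piece hp] at h1 h2
    rw [sum_singleton] at h2
    unfold Fwx
    rw [ps_piece (pc_imp hp).1, ps_piece (pc_imp hp).2, sum_singleton, sum_singleton]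
    exact ⟨⟨h1, (mx_impx A B).1.trans h2⟩, h1, (mx_impx A B).2.trans h2⟩
  · obtain ⟨h1, h2⟩ := h
    rw [ps_imp hp] at h1 h2
    exact ⟨⟨(card_le_card subset_union_left).trans h1,
      (sum_le_sum_of_subset subset_union_left).trans h2⟩,
      (card_le_card subset_union_right).trans h1, (sum_le_sum_of_subset subset_union_right).trans h2⟩

theorem fwx_bind {M W : ℕ} {σ : ℕ → Fx n} (χ : Fm ℕ) (h : Fwx k M W (χ.bind σ)) :
    ∀ i ∈ fv χ, Fwx k M W (σ i) := by
  induction χ with
  | var v =>
    intro i hi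
    have h1 : fv (Fm.var v) = {v} := rfl
    rw [h1, mem_singleton] at hi
    rw [hi]
    exact h
  | neg A ih => exact ih (fwx_neg h)
  | imp A B ihA ihB =>
    intro i hi
    rw [mem_fv_imp] at hi
    rcases hi with hi | hi
    · exact ihA (fwx_imp h).1 i hi
    · exact ihB (fwx_imp h).2 i hi

theorem ax_bind {σ : ℕ → Fx n} (χ : Fm ℕ) : ∀ i ∈ fv χ, ax (σ i) ⊆ ax (χ.bind σ) := by
  induction χ with
  | var v =>
    intro i hi
    have h1 : fv (Fm.var v) = {v} := rfl
    rw [h1, mem_singleton] at hi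
    rw [hi]
    exact Subset.refl _
  | neg A ih => exact ih
  | imp A B ihA ihB =>
    intro i hi
    rw [mem_fv_imp] at hi
    have h2 : ax ((Fm.imp A B).bind σ) = ax (A.bind σ) ∪ ax (B.bind σ) := rfl
    rw [h2]
    rcases hi with hi | hi
    · exact (ihA i hi).trans subset_union_left
    · exact (ihB i hi).trans subset_union_right

theorem lg_bind {σ : ℕ → Fx n} (χ : Fm ℕ) : ∀ i ∈ fv χ, lg s (σ i) ⊆ lg s (χ.bind σ) :=
  fun i hi => lg_sub (ax_bind χ i hi)

end Pool.H86.XP
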