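import Mathlib
import Pool.Agent.H86.XP.Wgt

set_option autoImplicit false
set_option linter.unusedSectionVars false

/-!
# Module FWP (THEOREM LP): conjunctions and disjunctions of parities and small formulas
-/

namespace Pool.H86.XP

open Finset Classical Pool.Agent.H3.Frg Pool.Agent.H3.Frg2 Pool.Agent.H3.Frg4 Pool.Agent.H55.QT Pool.H6.LD

variable {n : ℕ}

/-- conjunctions (`b = true`) and disjunctions (`b = false`) of parities and of formulas of length at most `k` -/
theorem fwx_par (k N : ℕ) (hk1 : 1 ≤ k) (F : Fx n) (b : Bool) (hF : ∀ p ∈ cj F b, lx p.1 ≤ k ∨ ∃ S, p.1 = Fm.var S)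
    (hl : Nat.log 2 (lx F) ^ 2 ≤ k * N) : Fwx k 1 (k * N) F := by
  have hz : ∀ (G : Fx n) (c : Bool), lx G ≤ k → wx k G c = 0 := by
    intro G
    induction G with
    | var v =>
      intro c _
      rfl
    | neg A ih =>
      intro c h
      exact ih (!c) h
    | imp A B ihA ihB =>
      intro c h
      have h3 : lx (Fm.imp A B) = lx A + lx B := rfl
      rw [h3] at h
      have hA := ihA true (by omega)
      have hB := ihB false (by omega)
      cases c with
      | false =>
        show wx k A true + wx k B false = 0
        omega
      | true =>
        have h4 : om k (lx (Fm.imp A B)) = 0 := by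
          unfold om
          rw [if_neg (by omega)]
        show wx k A true + wx k B false + om k (lx (Fm.imp A B)) = 0
        omega
  have ha : ∀ (G : Fx n) (c : Bool), alt G c + 1 ≤ lx G := by
    intro G
    induction G with
    | var v =>
      intro c
      exact le_max_left _ _
    | neg A ih =>
      intro c
      exact ih (!c)
    | imp A B ihA ihB =>
      intro c
      have h3 : lx (Fm.imp A B) = lx A + lx B := rfl
      have hA := ihA true
      have hB := ihB false
      cases c with
      | false =>
        show max (alt A true) (alt B false) + 1 ≤ lx A + lx B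
        omega
      | true =>
        show max (alt A true) (alt B false) + 1 + 1 ≤ lx A + lx B
        omega
  have hm : ∀ (m : ℕ) (G : Fx n) (c : Bool), (∀ p ∈ cj G c, alt p.1 p.2 ≤ m) → alt G c ≤ m := by
    intro m G
    induction G with
    | var v =>
      intro c _
      exact Nat.zero_le _
    | neg A ih =>
      intro c h
      exact ih (!c) h
    | imp A B ihA ihB =>
      intro c h
      cases c with
      | false =>
        have h1 : cj (Fm.imp A B) false = cj A true ++ cj B false := rfl
        rw [h1] at h
        have hA := ihA true fun p hp => h p (List.mem_append_left _ hp)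
        have hB := ihB false fun p hp => h p (List.mem_append_right _ hp)
        exact max_le hA hB
      | true =>
        exact h (Fm.imp A B, true) (by
          have h1 : cj (Fm.imp A B) true = [(Fm.imp A B, true)] := rfl
          rw [h1]
          exact List.mem_singleton.2 rfl)
  have hw1 : wx k F b = 0 := by
    rw [← cj_lwx]
    have : ∀ l : List (Fx n × Bool), (∀ p ∈ l, lx p.1 ≤ k ∨ ∃ S, p.1 = Fm.var S) → lwx k l = 0 := by
      intro l
      induction l with
      | nil =>
        intro _
        simp [lwx]
      | cons a l ih =>
        intro h
        have h0 : wx k a.1 a.2 = 0 := by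
          rcases h a List.mem_cons_self with h1 | ⟨S, h1⟩
          · exact hz a.1 a.2 h1
          · rw [h1]
            rfl
        rw [lwx_cons, h0, ih fun p hp => h p (List.mem_cons_of_mem _ hp)]
    exact this _ hF
  have hom : om k (lx F) ≤ k * N := by
    unfold om
    split_ifs
    · exact hl
    · exact Nat.zero_le _
  have h1 := wx_pm (k := k) F
  have h2 := alt_pm F
  have h3 : alt F b + 1 ≤ k := by
    have h4 := hm (k - 1) F b fun p hp => by
        rcases hF p hp with h6 | ⟨S, h6⟩
        · have h5 := ha p.1 p.2
          omega
        · rw [h6]
          exact Nat.zero_le _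
    omega
  have hP : Pc k F := by
    unfold Pc
    cases b
    · exact ⟨by omega, by omega⟩
    · exact ⟨by omega, by omega⟩
  unfold Fwx
  rw [ps_piece hP, sum_singleton, card_singleton]
  refine ⟨le_rfl, ?_⟩
  cases b
  · exact max_le (by omega) (by omega)
  · exact max_le (by omega) (by omega)

end Pool.H86.XP
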