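import Mathlib
import Pool.Agent.H86.XP.Bsc

set_option autoImplicit false
set_option linter.unusedSectionVars false

/-!
# Module CLA (THEOREM LP): the clauses hold in the world of the equations without the isolated variables

PROOF. `par B {j} = B j` (see `ld_par` in `Pool/Agent/H6/LE/Fin.lean`), so `hy {j}` gives `sm y (cvar (φ j) \ U₀) = sm (rhs ..) {j} = if rhs (φ j) U₀ then 1 else 0`. If all literals are false, `y ((φ j).1 a) = !(φ j).2 a` for all `a`, so (`cvar c = univ.map c.1`, `c.1` injective)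
`sm y (cvar (φ j) \ U₀)` is the number of the `a` with `(φ j).1 a ∉ U₀`, `(φ j).2 a = false`, modulo 2: it is `0` iff this number is even iff `rhs = true`: contradiction.
-/

namespace Pool.H86.XP

open Finset Classical Pool.Agent.H3.Frg Pool.Agent.H3.Frg2 Pool.Agent.H3.Frg4 Pool.Agent.H55.QT Pool.H6.LD

private theorem par_single {n m : ℕ} (B : Fin m → Finset (Fin n)) (j : Fin m) : par B {j} = B j := by
  ext x
  unfold Pool.Agent.H55.QT.par
  rw [mem_filter, filter_singleton]
  by_cases h : x ∈ B j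
  · rw [if_pos h, card_singleton]
    simp [h]
  · rw [if_neg h, card_empty]
    simp [h]

theorem cla_ok {n m r : ℕ} {φ : Fin m → Cl n} (hr : 1 ≤ r) (U₀ D : Finset (Fin n)) {y : Fin n → Bool}
    (hy : XCon (fun j => cvar (φ j) \ U₀) (fun j => rhs (φ j) U₀) r D y) (j : Fin m)
    (hD : cvar (φ j) ⊆ D) : ∃ a, y ((φ j).1 a) = (φ j).2 a := by
  by_contra hcon
  push Not at hcon
  have h1 := hy {j} (by rw [card_singleton]; exact hr)
    (by rw [par_single]; exact sdiff_subset.trans hD)
  rw [par_single] at h1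
  have h2 : sm (fun j => rhs (φ j) U₀) {j} = if rhs (φ j) U₀ = true then (1 : ZMod 2) else 0 := by
    unfold sm
    rw [sum_singleton]
  rw [h2] at h1
  have h3 : sm y (cvar (φ j) \ U₀) =
      ((univ.filter fun a => (φ j).1 a ∉ U₀ ∧ (φ j).2 a = false).card : ZMod 2) := by
    unfold sm
    rw [sum_boole]
    congr 1
    rw [← card_map (φ j).1]
    congr 1
    ext v
    simp only [mem_filter, mem_sdiff, cvar, mem_map, mem_univ, true_and]
    constructor
    · rintro ⟨⟨⟨a, rfl⟩, hv⟩, h4⟩
      refine ⟨a, ⟨hv, ?_⟩, rfl⟩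
      have := hcon a
      rw [h4] at this
      cases h5 : (φ j).2 a
      · rfl
      · exact absurd h5.symm this
    · rintro ⟨a, ⟨hv, h4⟩, rfl⟩
      refine ⟨⟨⟨a, rfl⟩, hv⟩, ?_⟩
      have := hcon a
      rw [h4] at this
      cases h5 : y ((φ j).1 a)
      · exact absurd h5 this
      · rfl
  rw [h3] at h1
  unfold rhs at h1
  rcases Nat.even_or_odd (univ.filter fun a => (φ j).1 a ∉ U₀ ∧ (φ j).2 a = false).card with h | h
  · rw [(ZMod.natCast_eq_zero_iff_even).2 h] at h1
    simp [h] at h1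
  · rw [(ZMod.natCast_eq_one_iff_odd).2 h] at h1
    have h4 : ¬ Even (univ.filter fun a => (φ j).1 a ∉ U₀ ∧ (φ j).2 a = false).card :=
      Nat.not_even_iff_odd.2 h
    simp [h4] at h1

end Pool.H86.XP
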