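import Mathlib
import Pool.Agent.H86.XP.Wgt

set_option autoImplicit false
set_option linter.unusedSectionVars false

/-!
# Module FEW (THEOREM LP): lines of bounded alternation and linear length; conjunctions of small formulas

Copies of `few_leaves`, `few_small` in `Pool/Agent/H6/LE/Fin.lean` with `lx`, `wx` in the place of `leaves`, `wb` (`ax`-free). Here the number `k'` of the pieces is any number `≥ 2 * k * c + k` (weights: `wx k' G b ≤ 2 * alt G b * lx G`, because `om k' s ≤ 2 * s`). `lg_count`: the atoms in `lg k' F` are different and each has at least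
`k' + 1` variables: `∑ S ∈ ax F, max 1 S.card ≤ lx F` by induction on `F` (`sum_union_inter`).
-/

namespace Pool.H86.XP

open Finset Classical Pool.Agent.H3.Frg Pool.Agent.H3.Frg2 Pool.Agent.H3.Frg4 Pool.Agent.H55.QT Pool.H6.LD

variable {n : ℕ}

private theorem axs (F : Fx n) : ∑ S ∈ ax F, max 1 S.card ≤ lx F := by
  induction F with
  | var S =>
    have h1 : ax (Fm.var S) = {S} := rfl
    rw [h1, sum_singleton]
    exact le_rfl
  | neg A ih => exact ih
  | imp A B ihA ihB =>
    have h1 : ax (Fm.imp A B) = ax A ∪ ax B := rfl
    have h2 : lx (Fm.imp A B) = lx A + lx B := rfl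
    have h3 := sum_union_inter (s₁ := ax A) (s₂ := ax B) (f := fun S : Finset (Fin n) => max 1 S.card)
    rw [h1, h2]
    omega

theorem lg_count (k' : ℕ) (F : Fx n) : (lg k' F).card * (k' + 1) ≤ lx F := by
  refine le_trans ?_ (axs F)
  have h1 : (lg k' F).card * (k' + 1) = ∑ _S ∈ lg k' F, (k' + 1) := by
    rw [sum_const, smul_eq_mul]
  rw [h1]
  have h2 : ∑ _S ∈ lg k' F, (k' + 1) ≤ ∑ S ∈ lg k' F, max 1 S.card := by
    refine sum_le_sum fun S hS => ?_
    have h3 := (mem_lg.1 hS).2
    exact le_trans (by omega) (le_max_right 1 S.card)
  refine h2.trans ?_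
  refine sum_le_sum_of_subset ?_
  intro S hS
  exact (mem_lg.1 hS).1

private theorem om_le (w s : ℕ) : om w s ≤ 2 * s := by
  unfold om
  split_ifs
  · rcases Nat.eq_zero_or_pos s with hs | hs
    · subst hs
      simp
    · have h1 : 2 ^ Nat.log 2 s ≤ s := Nat.pow_log_le_self 2 (by omega)
      have h2 : ∀ m : ℕ, m ^ 2 ≤ 2 * 2 ^ m := by
        intro m
        induction m with
        | zero => norm_num
        | succ m ih =>
          rcases Nat.lt_or_ge m 3 with h3 | h3
          · interval_cases m <;> norm_num
          · rw [pow_succ 2 m]
            nlinarith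
      have h3 := h2 (Nat.log 2 s)
      omega
  · exact Nat.zero_le _

private theorem wx_le (w : ℕ) (G : Fx n) : ∀ b, wx w G b ≤ 2 * alt G b * lx G := by
  induction G with
  | var v =>
    intro b
    exact Nat.zero_le _
  | neg A ih =>
    intro b
    exact ih (!b)
  | imp A B ihA ihB =>
    intro b
    have hA := ihA true
    have hB := ihB false
    obtain ⟨m, hm⟩ : ∃ m, m = max (alt A true) (alt B false) := ⟨_, rfl⟩
    have h1 : 2 * alt A true * lx A ≤ 2 * m * lx A := by
      have : alt A true ≤ m := by omega
      gcongr
    have h2 : 2 * alt B false * lx B ≤ 2 * m * lx B := by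
      have : alt B false ≤ m := by omega
      gcongr
    have h3 : lx (Fm.imp A B) = lx A + lx B := rfl
    cases b with
    | false =>
      have h4 : wx w (Fm.imp A B) false = wx w A true + wx w B false := rfl
      have h5 : alt (Fm.imp A B) false = m := hm.symm
      rw [h4, h5, h3, Nat.mul_add]
      omega
    | true =>
      have h4 : wx w (Fm.imp A B) true = wx w A true + wx w B false + om w (lx (Fm.imp A B)) := rfl
      have h5 : alt (Fm.imp A B) true = m + 1 := by rw [hm]; rfl
      have h6 := om_le w (lx (Fm.imp A B))
      rw [h3] at h6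
      rw [h4, h5, h3]
      have h7 : 2 * (m + 1) * (lx A + lx B) =
        2 * m * lx A + 2 * m * lx B + 2 * (lx A + lx B) := by ring
      omega

theorem fwx_leaves (k c k' N : ℕ) (hk : 2 * k * c + k ≤ k') (F : Fx n) (hF : alt F true ≤ k ∧ alt F false ≤ k)
    (hl : lx F ≤ c * N) : Fwx k' 1 (k' * N) F := by
  have hP : Pc k' F := ⟨by omega, by omega⟩
  unfold Fwx
  rw [ps_piece hP, sum_singleton, card_singleton]
  refine ⟨le_rfl, ?_⟩
  have h1 : ∀ b, wx k' F b ≤ k' * N := by
    intro b
    refine (wx_le _ F b).trans ?_
    have h2 : alt F b ≤ k := by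
      cases b
      · exact hF.2
      · exact hF.1
    calc 2 * alt F b * lx F ≤ 2 * k * (c * N) := by gcongr
      _ = 2 * k * c * N := by ring
      _ ≤ k' * N := by
        have h3 : 2 * k * c ≤ k' := by omega
        gcongr
  exact max_le (h1 true) (h1 false)

/-- conjunctions (`b = true`) and disjunctions (`b = false`) of formulas of length at most `k` -/
theorem fwx_small (k N : ℕ) (F : Fx n) (b : Bool) (hF : ∀ p ∈ cj F b, lx p.1 ≤ k)
    (hl : Nat.log 2 (lx F) ^ 2 ≤ k * N) : Fwx k 1 (k * N) F := by
  have hz : ∀ (G : Fx n) (c : Bool), lx G ≤ k → wx k G c = 0 := by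
    intro G
    induction G with
    | var v =>
      intro c _
      rfl
    | neg A ih =>
      intro c h
      exact ih (!c) h
    | imp A B ihA ihB =>
      intro c h
      have h3 : lx (Fm.imp A B) = lx A + lx B := rfl
      rw [h3] at h
      have hA := ihA true (by omega)
      have hB := ihB false (by omega)
      cases c with
      | false =>
        show wx k A true + wx k B false = 0
        omega
      | true =>
        have h4 : om k (lx (Fm.imp A B)) = 0 := by
          unfold om
          rw [if_neg (by omega)]
        show wx k A true + wx k B false + om k (lx (Fm.imp A B)) = 0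
        omega
  have ha : ∀ (G : Fx n) (c : Bool), alt G c + 1 ≤ lx G := by
    intro G
    induction G with
    | var v =>
      intro c
      exact le_max_left _ _
    | neg A ih =>
      intro c
      exact ih (!c)
    | imp A B ihA ihB =>
      intro c
      have h3 : lx (Fm.imp A B) = lx A + lx B := rfl
      have hA := ihA true
      have hB := ihB false
      cases c with
      | false =>
        show max (alt A true) (alt B false) + 1 ≤ lx A + lx B
        omega
      | true =>
        show max (alt A true) (alt B false) + 1 + 1 ≤ lx A + lx B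
        omega
  have hm : ∀ (m : ℕ) (G : Fx n) (c : Bool), (∀ p ∈ cj G c, alt p.1 p.2 ≤ m) → alt G c ≤ m := by
    intro m G
    induction G with
    | var v =>
      intro c _
      exact Nat.zero_le _
    | neg A ih =>
      intro c h
      exact ih (!c) h
    | imp A B ihA ihB =>
      intro c h
      cases c with
      | false =>
        have h1 : cj (Fm.imp A B) false = cj A true ++ cj B false := rfl
        rw [h1] at h
        have hA := ihA true fun p hp => h p (List.mem_append_left _ hp)
        have hB := ihB false fun p hp => h p (List.mem_append_right _ hp)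
        exact max_le hA hB
      | true =>
        exact h (Fm.imp A B, true) (by
          have h1 : cj (Fm.imp A B) true = [(Fm.imp A B, true)] := rfl
          rw [h1]
          exact List.mem_singleton.2 rfl)
  have hw1 : wx k F b = 0 := by
    rw [← cj_lwx]
    have : ∀ l : List (Fx n × Bool), (∀ p ∈ l, lx p.1 ≤ k) → lwx k l = 0 := by
      intro l
      induction l with
      | nil =>
        intro _
        simp [lwx]
      | cons a l ih =>
        intro h
        rw [lwx_cons, hz a.1 a.2 (h a List.mem_cons_self), ih fun p hp => h p (List.mem_cons_of_mem _ hp)]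
    exact this _ hF
  have hom : om k (lx F) ≤ k * N := by
    unfold om
    split_ifs
    · exact hl
    · exact Nat.zero_le _
  have h1 := wx_pm (k := k) F
  have h2 := alt_pm F
  have h3 : alt F b + 1 ≤ k := by
    rcases Nat.eq_zero_or_pos k with hk | hk
    · subst hk
      exfalso
      have h4 : ∃ p, p ∈ cj F b := by
        by_contra h5
        push Not at h5
        have h6 : cj F b = [] := List.eq_nil_iff_forall_not_mem.2 h5
        have h7 := cj_lvs F b
        rw [h6] at h7
        have h8 := leaves_pos F
        simp [lvs] at h7
        omega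
      obtain ⟨p, hp⟩ := h4
      have h5 := hF p hp
      have h6 := lx_pos p.1
      omega
    · have h4 := hm (k - 1) F b fun p hp => by
        have h5 := ha p.1 p.2
        have h6 := hF p hp
        omega
      omega
  have hP : Pc k F := by
    unfold Pc
    cases b
    · exact ⟨by omega, by omega⟩
    · exact ⟨by omega, by omega⟩
  unfold Fwx
  rw [ps_piece hP, sum_singleton, card_singleton]
  refine ⟨le_rfl, ?_⟩
  cases b
  · exact max_le (by omega) (by omega)
  · exact max_le (by omega) (by omega)

end Pool.H86.XP
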