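import Mathlib
import Pool.Agent.H6.LD.Wor
import Pool.Agent.H86.XP.Bsc

set_option autoImplicit false
set_option linter.unusedSectionVars false

/-!
# Module CMW (THEOREM LP): the worlds with commitments

Definitions in Defs: `XW B b r G c D x`: for all `J` with `J.card ≤ r` and all `I ⊆ G` with `par B J ∆ sdf I ⊆ D`: `sm x (par B J ∆ sdf I) = sm b J + sm c I` (in `ZMod 2`). `GdX U₀ K δ G`: `I ⊆ G`, `(sdf I ∩ U₀).card ≤ K` imply `(sdf I).card ≤ δ`.
PROOF of `cmw` (all fields of the structure `Cms`). Facts: `sdf (I ∆ I') = sdf I ∆ sdf I'` (as `par_symm` in `Pool/Agent/H55/QT/Xor.lean`), `sdf ∅ = ∅`, `sdf {S} = S`, `par B ∅ = ∅`, `sm_symm` (`Pool/Agent/H6/LD/Wor.lean`: `sm x (S ∆ T) = sm x S + sm x T`, for any index type, so also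
for `sm b (J ∆ J')`, `sm c (I ∆ I')`), `sm x` depends only on `x` on the set, `px_sm`.
KEY BOUND: if `J.card ≤ r`, `I ⊆ G`, `GdX U₀ K δ G`, `par B J ∆ sdf I ⊆ D`, `D.card ≤ K` then `2 * J.card ≤ r`: `par B J` is disjoint from `U₀` (every `B j` is), so `sdf I ∩ U₀ ⊆ (par B J ∆ sdf I) ∩ U₀ ⊆ D` has at most `K` elements, so `(sdf I).card ≤ δ` and
`(par B J).card ≤ (par B J ∆ sdf I).card + (sdf I).card ≤ K + δ`, so `J.card ≤ 4 * (K + δ) ≤ r / 2` by `hx`. Hence for two such relations `(J, I)`, `(J', I')` the sum `(J ∆ J', I ∆ I')` has `(J ∆ J').card ≤ r`, `I ∆ I' ⊆ G`.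
* `wld` (for `G` with `GdX`, `W G c D y` for some state): `cong`, `mono` clear. `emp`: from `W G c D y` by `mono` for `∅` and `cong`. `ext`: `D'.card < K`, `XW .. D' x`, `v`. If `v ∈ D'` nothing to do. Compare `xkey` in `Pool/Agent/H6/LD/Wor.lean`: let `x1` be `x` changed at `v`; if neither
  `XW (insert v D') x` nor `XW (insert v D') x1` there are violated relations `(J0, I0)` for `x` and `(J1, I1)` for `x1` inside `insert v D'` (at most `K` elements), both contain `v` (otherwise they lie inside `D'`, where `x = x1`), the sum lies inside `D'` and `J0 ∆ J1` has at most `r`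
  elements: `XW D' x` gives the sum of the two relations, `sm x1 (..) = sm x (..) + 1`, so in `ZMod 2` both cannot be violated.
* `le`: `I = ∅`. `emp`: `I ⊆ ∅`. `res`: `sm c' I = sm c I` for `I ⊆ G'`. `cmt`: `J = ∅`, `I = {S}`, `px_sm`.
* `ext` (commitments): induction on `G' \ G` (add the elements of `G'` one at a time; all intermediate sets are subsets of `G'`, so they satisfy `GdX`). One step: `G1 ⊆ G'`, `S ∈ G'`, `S ∉ G1`, `XW B b r G1 c D y`, `D.card ≤ K`. If there is no `(J, I)` with `J.card ≤ r`, `I ⊆ insert S G1`, `S ∈ I`,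
  `par B J ∆ sdf I ⊆ D`, keep `c`. Otherwise fix one, `(J0, I0)`, and let `c' = Function.update c S β` where `β : Bool` is such that the relation `(J0, I0)` holds for `c'` (one of the two values does: `sm c' I0 = sm c (I0.erase S) + β`). For another relation `(J, I)` inside `D` with `I ⊆ insert S G1`:
  if `S ∉ I` it is one for `G1` and `sm c' I = sm c I`; if `S ∈ I` then `(J ∆ J0, I ∆ I0)` is a relation for `G1` inside `D` (key bound twice), so it holds for `c`, and the sum with the relation `(J0, I0)` gives `(J, I)`.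
* `real`: only relations with `J = ∅`. Prove for all `S'` (induction on `S'`, or on `univ \ D`): there is `z`, `z = y` on `D`, such that all `I ⊆ G` with `sdf I ⊆ D ∪ S'` satisfy `sm z (sdf I) = sm c I` (one more variable: the argument of `ext` of `wld` without bounds for the cardinalities). For `S' = univ` take
  `I = {S}`.
-/

namespace Pool.H86.XP

open Finset Classical Pool.Agent.H3.Frg Pool.Agent.H3.Frg2 Pool.Agent.H3.Frg4 Pool.Agent.H55.QT Pool.H6.LD

section aux

private theorem c_sd {α : Type} [DecidableEq α] (S T : Finset α) :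
    (symmDiff S T).card ≤ S.card + T.card := by
  have e1 : symmDiff S T = (S \ T) ∪ (T \ S) := by
    ext a
    simp [Finset.mem_symmDiff]
  rw [e1]
  refine (Finset.card_union_le _ _).trans ?_
  exact Nat.add_le_add (Finset.card_le_card Finset.sdiff_subset) (Finset.card_le_card Finset.sdiff_subset)

private theorem c_par {α : Type} [DecidableEq α] (A B : Finset α) :
    (symmDiff A B).card + 2 * (A ∩ B).card = A.card + B.card := by
  have h1 : symmDiff A B = (A \ B) ∪ (B \ A) := by
    ext x; simp [Finset.mem_symmDiff]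
  have h2 : Disjoint (A \ B) (B \ A) := by
    rw [Finset.disjoint_left]
    intro x hx hy
    simp only [Finset.mem_sdiff] at hx hy
    exact hx.2 hy.1
  have h3 : (A \ B).card + (A ∩ B).card = A.card := Finset.card_sdiff_add_card_inter A B
  have h4 : (B \ A).card + (B ∩ A).card = B.card := Finset.card_sdiff_add_card_inter B A
  have h5 : B ∩ A = A ∩ B := Finset.inter_comm B A
  rw [h5] at h4
  rw [h1, Finset.card_union_of_disjoint h2]
  omega

private theorem sm_cg {α : Type} {x y : α → Bool} {S : Finset α} (h : ∀ v ∈ S, x v = y v) :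
    sm x S = sm y S := by
  unfold sm
  exact Finset.sum_congr rfl fun v hv => by rw [h v hv]

private theorem sm_sy {α : Type} [DecidableEq α] (x : α → Bool) (S T : Finset α) :
    sm x (symmDiff S T) = sm x S + sm x T := by
  have e1 : symmDiff S T = (S \ T) ∪ (T \ S) := by
    ext a
    simp [Finset.mem_symmDiff]
  have e2 : Disjoint (S \ T) (T \ S) := by
    rw [Finset.disjoint_left]
    intro a ha hb
    simp only [Finset.mem_sdiff] at ha hb
    exact hb.2 ha.1
  have e3 : sm x S = sm x (S \ T) + sm x (S ∩ T) := by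
    unfold sm
    rw [← Finset.sum_union (Finset.disjoint_sdiff_inter S T), Finset.sdiff_union_inter]
  have e4 : sm x T = sm x (T \ S) + sm x (S ∩ T) := by
    unfold sm
    rw [Finset.inter_comm S T, ← Finset.sum_union (Finset.disjoint_sdiff_inter T S),
      Finset.sdiff_union_inter]
  have e5 : sm x (symmDiff S T) = sm x (S \ T) + sm x (T \ S) := by
    rw [e1]
    unfold sm
    exact Finset.sum_union e2
  have e6 : sm x (S ∩ T) + sm x (S ∩ T) = 0 := CharTwo.add_self_eq_zero _
  rw [e5, e3, e4]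
  calc sm x (S \ T) + sm x (T \ S) = sm x (S \ T) + sm x (T \ S) + 0 := by rw [add_zero]
    _ = sm x (S \ T) + sm x (T \ S) + (sm x (S ∩ T) + sm x (S ∩ T)) := by rw [e6]
    _ = _ := by ring

private theorem sm_e {α : Type} (x : α → Bool) : sm x ∅ = 0 := by
  unfold sm
  exact Finset.sum_empty

/-- changing one value: both values of the sum are possible -/
private theorem sm_up {α : Type} [DecidableEq α] (x : α → Bool) {S : Finset α} {v : α} (h : v ∈ S) (z : ZMod 2) :
    ∃ β : Bool, sm (Function.update x v β) S = z := by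
  have h2 : ∀ w z : ZMod 2, ∃ β : Bool, (if β = true then (1 : ZMod 2) else 0) + w = z := by decide
  obtain ⟨β, hβ⟩ := h2 (∑ w ∈ S.erase v, if x w = true then (1 : ZMod 2) else 0) z
  refine ⟨β, ?_⟩
  rw [← hβ]
  unfold sm
  rw [← Finset.add_sum_erase S _ h, Function.update_self]
  refine congrArg _ (Finset.sum_congr rfl fun w hw => ?_)
  rw [Function.update_of_ne (Finset.ne_of_mem_erase hw)]

variable {n m : ℕ}

private theorem sdf_symm (I J : Finset (Finset (Fin n))) :
    sdf (symmDiff I J) = symmDiff (sdf I) (sdf J) := by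
  ext x
  have h1 : (symmDiff I J).filter (fun S => x ∈ S) =
      symmDiff (I.filter fun S => x ∈ S) (J.filter fun S => x ∈ S) := by
    ext j
    simp only [Finset.mem_filter, Finset.mem_symmDiff]
    tauto
  have h2 := c_par (I.filter fun S => x ∈ S) (J.filter fun S => x ∈ S)
  simp only [sdf, Finset.mem_symmDiff, Finset.mem_filter, Finset.mem_univ, true_and]
  rw [h1]
  simp only [Nat.odd_iff]
  omega

private theorem par_symm' (B : Fin m → Finset (Fin n)) (I J : Finset (Fin m)) :
    par B (symmDiff I J) = symmDiff (par B I) (par B J) := by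
  ext x
  have h1 : (symmDiff I J).filter (fun j => x ∈ B j) =
      symmDiff (I.filter fun j => x ∈ B j) (J.filter fun j => x ∈ B j) := by
    ext j
    simp only [Finset.mem_filter, Finset.mem_symmDiff]
    tauto
  have h2 := c_par (I.filter fun j => x ∈ B j) (J.filter fun j => x ∈ B j)
  simp only [Pool.Agent.H55.QT.par, Finset.mem_symmDiff, Finset.mem_filter, Finset.mem_univ, true_and]
  rw [h1]
  simp only [Nat.odd_iff]
  omega

private theorem sdf_e : sdf (∅ : Finset (Finset (Fin n))) = ∅ := by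
  ext x
  simp [sdf]

private theorem sdf_one (S : Finset (Fin n)) : sdf {S} = S := by
  ext x
  unfold sdf
  rw [mem_filter, filter_singleton]
  by_cases h : x ∈ S <;> simp [h]

private theorem par_e (B : Fin m → Finset (Fin n)) : par B ∅ = ∅ := by
  ext x
  simp [Pool.Agent.H55.QT.par]

/-- one more variable: a family of equations with sums of the ones which contain `v` -/
private theorem ext1 (E : Finset (Fin n) → ZMod 2 → Prop) {D : Finset (Fin n)} {v : Fin n} (hv : v ∉ D)
    {x : Fin n → Bool} (h : ∀ T a, E T a → T ⊆ D → sm x T = a)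
    (hE : ∀ T a T' a', E T a → E T' a' → T ⊆ insert v D → T' ⊆ insert v D → E (symmDiff T T') (a + a')) :
    ∃ y : Fin n → Bool, (∀ w ∈ D, y w = x w) ∧ ∀ T a, E T a → T ⊆ insert v D → sm y T = a := by
  have hup : ∀ β : Bool, ∀ w ∈ D, Function.update x v β w = x w := fun β w hw =>
    Function.update_of_ne (ne_of_mem_of_not_mem hw hv) _ _
  have hnot : ∀ (y : Fin n → Bool), (∀ w ∈ D, y w = x w) → ∀ T a, E T a → T ⊆ insert v D → v ∉ T →
      sm y T = a := by
    intro y hy T a hT hs hvT
    have h1 : T ⊆ D := (Finset.subset_insert_iff_of_notMem hvT).1 hs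
    rw [← h T a hT h1]
    exact sm_cg fun w hw => hy w (h1 hw)
  by_cases h0 : ∃ T0 a0, E T0 a0 ∧ T0 ⊆ insert v D ∧ v ∈ T0
  · obtain ⟨T0, a0, hE0, hs0, hv0⟩ := h0
    obtain ⟨β, hβ⟩ := sm_up x hv0 a0
    refine ⟨Function.update x v β, hup β, ?_⟩
    intro T a hT hs
    by_cases hvT : v ∈ T
    · have h1 : symmDiff T T0 ⊆ insert v D := by
        intro w hw
        rw [Finset.mem_symmDiff] at hw
        rcases hw with hw | hw
        · exact hs hw.1
        · exact hs0 hw.1
      have h2 : v ∉ symmDiff T T0 := by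
        rw [Finset.mem_symmDiff]
        tauto
      have h3 := hnot _ (hup β) _ _ (hE T a T0 a0 hT hE0 hs hs0) h1 h2
      rw [sm_sy, hβ] at h3
      exact add_right_cancel h3
    · exact hnot _ (hup β) T a hT hs hvT
  · push Not at h0
    exact ⟨x, fun _ _ => rfl, fun T a hT hs => hnot x (fun _ _ => rfl) T a hT hs (h0 T a hT hs)⟩

variable {B : Fin m → Finset (Fin n)} {b : Fin m → Bool} {r K δ : ℕ} {U₀ : Finset (Fin n)}

/-- the key bound -/
private theorem kbd (hx : ∀ J : Finset (Fin m), J.card ≤ r → J.card ≤ 4 * (par B J).card)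
    (hU : ∀ j, Disjoint (B j) U₀) (hK : 8 * (K + δ) ≤ r) {G I : Finset (Finset (Fin n))}
    {J : Finset (Fin m)} {D : Finset (Fin n)} (hG : GdX U₀ K δ G) (hJ : J.card ≤ r) (hI : I ⊆ G)
    (hs : symmDiff (par B J) (sdf I) ⊆ D) (hD : D.card ≤ K) : 2 * J.card ≤ r := by
  have h1 : sdf I ∩ U₀ ⊆ D := by
    intro v hv
    rw [mem_inter] at hv
    refine hs ?_
    rw [Finset.mem_symmDiff]
    refine Or.inr ⟨hv.1, fun h => ?_⟩
    unfold Pool.Agent.H55.QT.par at h
    rw [mem_filter] at h
    have h2 : (J.filter fun j => v ∈ B j).card ≠ 0 := by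
      intro h3
      rw [h3] at h
      exact (by decide : ¬ Odd 0) h.2
    obtain ⟨j, hj⟩ := Finset.card_ne_zero.1 h2
    rw [mem_filter] at hj
    exact Finset.disjoint_left.1 (hU j) hj.2 hv.2
  have h2 : (sdf I).card ≤ δ := hG I hI ((card_le_card h1).trans hD)
  have h3 : par B J ⊆ symmDiff (par B J) (sdf I) ∪ sdf I := by
    intro v hv
    rw [mem_union, Finset.mem_symmDiff]
    tauto
  have h4 := (card_le_card h3).trans (card_union_le _ _)
  have h5 := card_le_card hs
  have h6 := hx J hJ
  omega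

private theorem xw_cong {G : Finset (Finset (Fin n))} {c : Finset (Fin n) → Bool} {D : Finset (Fin n)}
    {x y : Fin n → Bool} (h : ∀ v ∈ D, x v = y v) (h' : XW B b r G c D x) : XW B b r G c D y := by
  intro J I hJ hI hs
  rw [← h' J I hJ hI hs]
  exact (sm_cg fun v hv => h v (hs hv)).symm

private theorem xw_mono {G : Finset (Finset (Fin n))} {c : Finset (Fin n) → Bool} {D D' : Finset (Fin n)}
    {x : Fin n → Bool} (h : D ⊆ D') (h' : XW B b r G c D' x) : XW B b r G c D x :=
  fun J I hJ hI hs => h' J I hJ hI (hs.trans h)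

private theorem rel_sum (J J' : Finset (Fin m)) (I I' : Finset (Finset (Fin n))) :
    symmDiff (symmDiff (par B J) (sdf I)) (symmDiff (par B J') (sdf I')) =
      symmDiff (par B (symmDiff J J')) (sdf (symmDiff I I')) := by
  rw [par_symm', sdf_symm]
  exact symmDiff_symmDiff_symmDiff_comm _ _ _ _

private theorem sd_sub {α : Type} [DecidableEq α] {S T G : Finset α} (h : S ⊆ G) (h' : T ⊆ G) :
    symmDiff S T ⊆ G := by
  intro w hw
  rw [Finset.mem_symmDiff] at hw
  rcases hw with hw | hw
  · exact h hw.1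
  · exact h' hw.1

private theorem xw_wld (hx : ∀ J : Finset (Fin m), J.card ≤ r → J.card ≤ 4 * (par B J).card)
    (hU : ∀ j, Disjoint (B j) U₀) (hK : 8 * (K + δ) ≤ r) {G : Finset (Finset (Fin n))}
    {c : Finset (Fin n) → Bool} {D : Finset (Fin n)} {y : Fin n → Bool} (hG : GdX U₀ K δ G)
    (hW : XW B b r G c D y) : Wld (XW B b r G c) K := by
  refine ⟨fun D x y h h' => xw_cong h h', fun D D' x h h' => xw_mono h h', ?_, ?_⟩
  · intro D' x v hD' hc
    by_cases hv : v ∈ D'
    · refine ⟨x, fun _ _ => rfl, ?_⟩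
      rw [Finset.insert_eq_of_mem hv]
      exact hc
    · have hcard : (insert v D').card ≤ K := by
        rw [Finset.card_insert_of_notMem hv]
        omega
      obtain ⟨z, hz, hz'⟩ := ext1 (fun T a => ∃ (J : Finset (Fin m)) (I : Finset (Finset (Fin n))),
          J.card ≤ r ∧ I ⊆ G ∧ T = symmDiff (par B J) (sdf I) ∧ a = sm b J + sm c I) hv (x := x)
        (by
          rintro T a ⟨J, I, hJ, hI, rfl, rfl⟩ hs
          exact hc J I hJ hI hs)
        (by
          rintro T a T' a' ⟨J, I, hJ, hI, rfl, rfl⟩ ⟨J', I', hJ', hI', rfl, rfl⟩ hs hs'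
          have k1 := kbd hx hU hK hG hJ hI hs hcard
          have k2 := kbd hx hU hK hG hJ' hI' hs' hcard
          have k3 := c_sd J J'
          refine ⟨symmDiff J J', symmDiff I I', by omega, sd_sub hI hI', rel_sum J J' I I', ?_⟩
          rw [sm_sy, sm_sy]
          ring)
      exact ⟨z, hz, fun J I hJ hI hs => hz' _ _ ⟨J, I, hJ, hI, rfl, rfl⟩ hs⟩
  · intro x
    exact xw_cong (fun v hv => absurd hv (Finset.notMem_empty v)) (xw_mono (Finset.empty_subset D) hW)

/-- one more commitment -/
private theorem xw_step (hx : ∀ J : Finset (Fin m), J.card ≤ r → J.card ≤ 4 * (par B J).card)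
    (hU : ∀ j, Disjoint (B j) U₀) (hK : 8 * (K + δ) ≤ r) {G' G : Finset (Finset (Fin n))}
    {c : Finset (Fin n) → Bool} {D : Finset (Fin n)} {y : Fin n → Bool} {S : Finset (Fin n)}
    (hG' : GdX U₀ K δ G') (hG : G ⊆ G') (hS : S ∈ G') (hS' : S ∉ G) (hD : D.card ≤ K)
    (hW : XW B b r G c D y) :
    ∃ c', (∀ T ∈ G, c' T = c T) ∧ XW B b r (insert S G) c' D y := by
  have hins : insert S G ⊆ G' := Finset.insert_subset hS hG
  by_cases h0 : ∃ (J : Finset (Fin m)) (I : Finset (Finset (Fin n))), J.card ≤ r ∧ I ⊆ insert S G ∧ S ∈ I ∧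
      symmDiff (par B J) (sdf I) ⊆ D
  · obtain ⟨J0, I0, hJ0, hI0, hS0, hs0⟩ := h0
    obtain ⟨β, hβ⟩ := sm_up c hS0 (sm y (symmDiff (par B J0) (sdf I0)) + sm b J0)
    have hc : ∀ T ∈ G, Function.update c S β T = c T := fun T hT =>
      Function.update_of_ne (ne_of_mem_of_not_mem hT hS') _ _
    have hcI : ∀ I, I ⊆ G → sm (Function.update c S β) I = sm c I := fun I hI =>
      sm_cg fun T hT => hc T (hI hT)
    refine ⟨Function.update c S β, hc, ?_⟩
    intro J I hJ hI hs
    by_cases hSI : S ∈ I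
    · have k1 := kbd hx hU hK hG' hJ (hI.trans hins) hs hD
      have k2 := kbd hx hU hK hG' hJ0 (hI0.trans hins) hs0 hD
      have k3 := c_sd J J0
      have k4 : symmDiff I I0 ⊆ G := by
        have h1 : symmDiff I I0 ⊆ insert S G := sd_sub hI hI0
        refine (Finset.subset_insert_iff_of_notMem ?_).1 h1
        rw [Finset.mem_symmDiff]
        tauto
      have k5 := hW (symmDiff J J0) (symmDiff I I0) (by omega) k4 (by
        rw [← rel_sum]
        exact sd_sub hs hs0)
      have e1 : sm y (symmDiff (symmDiff (Pool.Agent.H55.QT.par B J) (sdf I)) (symmDiff (Pool.Agent.H55.QT.par B J0) (sdf I0))) =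
          sm y (symmDiff (Pool.Agent.H55.QT.par B J) (sdf I)) + sm y (symmDiff (Pool.Agent.H55.QT.par B J0) (sdf I0)) := sm_sy _ _ _
      have e2 : sm b (symmDiff J J0) = sm b J + sm b J0 := sm_sy _ _ _
      have e3 : sm (Function.update c S β) (symmDiff I I0) =
          sm (Function.update c S β) I + sm (Function.update c S β) I0 := sm_sy _ _ _
      rw [← rel_sum, e1, ← hcI _ k4, e2, e3, hβ] at k5
      have k6 : ∀ a b c d e : ZMod 2, a + b = c + d + (e + (b + d)) → a = c + e := by decide
      exact k6 _ _ _ _ _ k5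
    · have h1 : I ⊆ G := (Finset.subset_insert_iff_of_notMem hSI).1 hI
      rw [hcI I h1]
      exact hW J I hJ h1 hs
  · push Not at h0
    refine ⟨c, fun _ _ => rfl, ?_⟩
    intro J I hJ hI hs
    have h1 : S ∉ I := fun h => h0 J I hJ hI h hs
    exact hW J I hJ ((Finset.subset_insert_iff_of_notMem h1).1 hI) hs

private theorem xw_ext (hx : ∀ J : Finset (Fin m), J.card ≤ r → J.card ≤ 4 * (par B J).card)
    (hU : ∀ j, Disjoint (B j) U₀) (hK : 8 * (K + δ) ≤ r) {G' G : Finset (Finset (Fin n))}
    {c : Finset (Fin n) → Bool} {D : Finset (Fin n)} {y : Fin n → Bool}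
    (hG' : GdX U₀ K δ G') (hG : G ⊆ G') (hD : D.card ≤ K)
    (hW : XW B b r G c D y) (H : Finset (Finset (Fin n))) : H ⊆ G' →
    ∃ c', (∀ T ∈ G, c' T = c T) ∧ XW B b r (G ∪ H) c' D y := by
  induction H using Finset.induction_on with
  | empty =>
    intro _
    refine ⟨c, fun _ _ => rfl, ?_⟩
    rw [Finset.union_empty]
    exact hW
  | insert S H hSH ih =>
    intro hH
    obtain ⟨c', hc', hW'⟩ := ih ((Finset.subset_insert S H).trans hH)
    rw [Finset.union_insert]
    by_cases hS : S ∈ G ∪ H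
    · rw [Finset.insert_eq_of_mem hS]
      exact ⟨c', hc', hW'⟩
    · have hS1 : S ∈ G' := hH (Finset.mem_insert_self S H)
      have hGH : G ∪ H ⊆ G' := Finset.union_subset hG ((Finset.subset_insert S H).trans hH)
      obtain ⟨c2, hc2, hW2⟩ := xw_step hx hU hK hG' hGH hS1 hS hD hW'
      refine ⟨c2, fun T hT => ?_, hW2⟩
      rw [hc2 T (Finset.mem_union_left _ hT), hc' T hT]

/-- assignments which satisfy all commitments -/
private theorem xw_real {G : Finset (Finset (Fin n))}
    {c : Finset (Fin n) → Bool} {D : Finset (Fin n)} {y : Fin n → Bool}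
    (hW : XW B b r G c D y) (H : Finset (Fin n)) :
    ∃ z : Fin n → Bool, (∀ v ∈ D, z v = y v) ∧ ∀ I, I ⊆ G → sdf I ⊆ D ∪ H → sm z (sdf I) = sm c I := by
  have h0 : ∀ I : Finset (Finset (Fin n)), symmDiff (par B ∅) (sdf I) = sdf I := by
    intro I
    rw [par_e]
    exact bot_symmDiff _
  induction H using Finset.induction_on with
  | empty =>
    refine ⟨y, fun _ _ => rfl, ?_⟩
    intro I hI hs
    rw [Finset.union_empty] at hs
    have h1 := hW ∅ I (Nat.zero_le _) hI (by rw [h0]; exact hs)
    rw [h0, sm_e, zero_add] at h1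
    exact h1
  | insert v H hvH ih =>
    obtain ⟨z, hz, hz'⟩ := ih
    rw [Finset.union_insert]
    by_cases hv : v ∈ D ∪ H
    · rw [Finset.insert_eq_of_mem hv]
      exact ⟨z, hz, hz'⟩
    · obtain ⟨z2, hz2, hz3⟩ := ext1 (fun T a => ∃ (I : Finset (Finset (Fin n))),
          I ⊆ G ∧ T = sdf I ∧ a = sm c I) hv (x := z)
        (by
          rintro T a ⟨I, hI, rfl, rfl⟩ hs
          exact hz' I hI hs)
        (by
          rintro T a T' a' ⟨I, hI, rfl, rfl⟩ ⟨I', hI', rfl, rfl⟩ hs hs'
          refine ⟨symmDiff I I', sd_sub hI hI', (sdf_symm I I').symm, ?_⟩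
          rw [sm_sy])
      refine ⟨z2, fun w hw => ?_, fun I hI hs => hz3 _ _ ⟨I, hI, rfl, rfl⟩ hs⟩
      rw [hz2 w (Finset.mem_union_left _ hw), hz w hw]

private theorem one_eq {x : Fin n → Bool} {S : Finset (Fin n)} {c : Finset (Fin n) → Bool}
    (h : sm x S = sm c {S}) : px x S = c S := by
  rw [px_sm] at h
  unfold sm at h
  rw [Finset.sum_singleton] at h
  have h1 : ∀ a b : Bool, (if a = true then (1 : ZMod 2) else 0) = (if b = true then (1 : ZMod 2) else 0) →
      a = b := by decide
  exact h1 _ _ h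

end aux

theorem cmw {n m : ℕ} {B : Fin m → Finset (Fin n)} {b : Fin m → Bool} {r K δ : ℕ} {U₀ : Finset (Fin n)}
    (hx : ∀ J : Finset (Fin m), J.card ≤ r → J.card ≤ 4 * (par B J).card)
    (hU : ∀ j, Disjoint (B j) U₀) (hK : 8 * (K + δ) ≤ r) :
    Cms (XCon B b r) K (GdX U₀ K δ) (XW B b r) := by
  have hsd : ∀ S : Finset (Fin n), symmDiff S ∅ = S := fun S => symmDiff_bot S
  have hsd' : ∀ S : Finset (Fin n), symmDiff ∅ S = S := fun S => bot_symmDiff S
  refine ⟨?_, ?_, ?_, ?_, ?_, ?_, ?_⟩
  · intro G c D y hG hW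
    exact xw_wld hx hU hK hG hW
  · intro G c D y hW J hJ hs
    have h1 := hW J ∅ hJ (Finset.empty_subset G) (by rw [sdf_e, hsd]; exact hs)
    rw [sdf_e, hsd, sm_e, add_zero] at h1
    exact h1
  · intro c D y hC J I hJ hI hs
    have h1 : I = ∅ := Finset.subset_empty.1 hI
    subst h1
    rw [sdf_e, hsd] at hs
    rw [sdf_e, hsd, sm_e, add_zero]
    exact hC J hJ hs
  · intro G G' c c' D y hG hc hW J I hJ hI hs
    rw [hW J I hJ (hI.trans hG) hs]
    exact congrArg _ (sm_cg fun S hS => (hc S (hI hS)).symm)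
  · intro G c S hS D y hD hW
    have h1 := hW ∅ {S} (Nat.zero_le _) (Finset.singleton_subset_iff.2 hS)
      (by rw [par_e, sdf_one, hsd']; exact hD)
    rw [par_e, sdf_one, hsd', sm_e, zero_add] at h1
    exact one_eq h1
  · intro G G' c D y hG' hG hD hW
    obtain ⟨c', hc', hW'⟩ := xw_ext hx hU hK hG' hG hD hW G' (Finset.Subset.refl _)
    rw [Finset.union_eq_right.2 hG] at hW'
    exact ⟨c', hc', hW'⟩
  · intro G c D y hW
    obtain ⟨z, hz, hz'⟩ := xw_real hW Finset.univ
    refine ⟨z, hz, fun S hS => one_eq ?_⟩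
    have h1 := hz' {S} (Finset.singleton_subset_iff.2 hS) (fun v _ => Finset.mem_union_right _ (Finset.mem_univ v))
    rw [sdf_one] at h1
    exact h1

end Pool.H86.XP
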