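import Mathlib
import Pool.Agent.H86.XP.Bsc

set_option autoImplicit false
set_option linter.unusedSectionVars false

/-!
# Module RSX (THEOREM LP): resolution over parities as derivations in the sense of `DerX`

`fC C = clF (∅, true) C.toList` (`clF`, `litF`: `Pool/Agent/H6/QL/Ifc.lean`). FACTS. `dj_clF`: `dj (clF a l) true = (a :: l).map fun p => (Fm.var p.1, p.2)` (induction on `l`; `dj (imp (neg L) R) true = dj L true ++ dj R true`, `dj (litF p) true = [(Fm.var p.1, p.2)]` in both cases of `p.2`). So `p ∈ dj (fC C) true ↔ p = (var ∅, true) ∨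
∃ q ∈ C, p = (var q.1, q.2)`. `alt (clF a l) false = 0`, `alt (clF a l) true ≤ 1` (induction), so `Pc 1 (fC C)`, and `Pc k'` for all `k' ≥ 1`. `lx (fC C) = 1 + lcl C` (`Finset.sum_to_list`-type lemma), `leaves (fC C) = 1 + C.card`. `fC ∅ = Fm.var ∅`. `(fC C).eval (px x) = true ↔ ∃ p ∈ C, px x p.1 = p.2` (`px_empty`: the first
disjunct is false).
* `rsx_der`: the line `0` is `neg (var ∅)`: in `ValX n (k + 1)` (`px_empty`). A line `i + 1`: clause of `φ`: `fC C ∈ AxX φ 4`: length `1 + 3`, if the clause `j` (its variables are variables of the formula, `vx`) holds at `y` then one of the literals is true (`px_single`). Valid clause: `ValX n (k + 1)`. Resolution: the last case of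
`DerX`, with the indices `j.succ`, `l.succ` and the same `S`.
-/

namespace Pool.H86.XP

open Finset Classical Pool.Agent.H3.Frg Pool.Agent.H3.Frg2 Pool.Agent.H3.Frg4 Pool.Agent.H55.QT Pool.H6.LD

private theorem rsx_alt_lit {V : Type} (a : V × Bool) (b : Bool) : alt (Pool.H6.QL.litF a) b = 0 := by
  unfold Pool.H6.QL.litF
  by_cases h : a.2 = true
  · rw [if_pos h]; rfl
  · rw [if_neg h]; rfl

private theorem rsx_alt {V : Type} (l : List (V × Bool)) (a : V × Bool) :
    alt (Pool.H6.QL.clF a l) false = 0 ∧ alt (Pool.H6.QL.clF a l) true ≤ 1 := by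
  induction l generalizing a with
  | nil =>
    refine ⟨rsx_alt_lit a false, ?_⟩
    have h : alt (Pool.H6.QL.clF a []) true = 0 := rsx_alt_lit a true
    omega
  | cons b c ih =>
    have h1 : alt (Pool.H6.QL.clF a (b :: c)) false
        = max (alt (Pool.H6.QL.litF a) false) (alt (Pool.H6.QL.clF b c) false) := rfl
    have h2 : alt (Pool.H6.QL.clF a (b :: c)) true
        = max (alt (Pool.H6.QL.litF a) false) (alt (Pool.H6.QL.clF b c) false) + 1 := rfl
    rw [h1, h2, rsx_alt_lit, (ih b).1]
    exact ⟨rfl, le_refl _⟩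

private theorem rsx_dj_lit {V : Type} (a : V × Bool) : dj (Pool.H6.QL.litF a) true = [(Fm.var a.1, a.2)] := by
  obtain ⟨v, b⟩ := a
  cases b <;> rfl

private theorem rsx_dj {V : Type} (l : List (V × Bool)) (a : V × Bool) :
    dj (Pool.H6.QL.clF a l) true = (a :: l).map fun p => (Fm.var p.1, p.2) := by
  induction l generalizing a with
  | nil => exact rsx_dj_lit a
  | cons b c ih =>
    have h1 : dj (Pool.H6.QL.clF a (b :: c)) true
        = dj (Pool.H6.QL.litF a) true ++ dj (Pool.H6.QL.clF b c) true := rfl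
    rw [h1, rsx_dj_lit, ih b]
    rfl

private theorem rsx_mem {n : ℕ} (C : Lc n) (p : Fx n × Bool) :
    p ∈ dj (fC C) true ↔ p = (Fm.var ∅, true) ∨ ∃ q ∈ C, p = (Fm.var q.1, q.2) := by
  unfold fC
  rw [rsx_dj, List.map_cons, List.mem_cons, List.mem_map]
  constructor
  · rintro (h | ⟨q, hq, h⟩)
    · exact Or.inl h
    · exact Or.inr ⟨q, Finset.mem_toList.1 hq, h.symm⟩
  · rintro (h | ⟨q, hq, h⟩)
    · exact Or.inl h
    · exact Or.inr ⟨q, Finset.mem_toList.2 hq, h.symm⟩

private theorem rsx_ev_lit {V : Type} (x : V → Bool) (a : V × Bool) :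
    (Pool.H6.QL.litF a).eval x = true ↔ x a.1 = a.2 := by
  obtain ⟨v, b⟩ := a
  unfold Pool.H6.QL.litF
  cases b <;> simp [Fm.eval]

private theorem rsx_ev {V : Type} (x : V → Bool) (l : List (V × Bool)) (a : V × Bool) :
    (Pool.H6.QL.clF a l).eval x = true ↔ x a.1 = a.2 ∨ ∃ q ∈ l, x q.1 = q.2 := by
  induction l generalizing a with
  | nil =>
    rw [show Pool.H6.QL.clF a [] = Pool.H6.QL.litF a from rfl, rsx_ev_lit]
    simp
  | cons b c ih =>
    have h1 : (Pool.H6.QL.clF a (b :: c)).eval x
        = (!(!((Pool.H6.QL.litF a).eval x)) || (Pool.H6.QL.clF b c).eval x) := rfl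
    rw [h1, Bool.not_not, Bool.or_eq_true, rsx_ev_lit, ih b]
    simp

private theorem rsx_evC {n : ℕ} (C : Lc n) (x : Fin n → Bool) :
    (fC C).eval (px x) = true ↔ ∃ p ∈ C, px x p.1 = p.2 := by
  unfold fC
  rw [rsx_ev]
  constructor
  · rintro (h | ⟨q, hq, h⟩)
    · have h0 : px x (∅ : Finset (Fin n)) = true := h
      rw [px_empty] at h0
      exact absurd h0 (by decide)
    · exact ⟨q, Finset.mem_toList.1 hq, h⟩
  · rintro ⟨q, hq, h⟩
    exact Or.inr ⟨q, Finset.mem_toList.2 hq, h⟩

private theorem rsx_lv {V : Type} (l : List (V × Bool)) (a : V × Bool) :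
    (Pool.H6.QL.clF a l).leaves = l.length + 1 := by
  have hl : ∀ a : V × Bool, (Pool.H6.QL.litF a).leaves = 1 := by
    rintro ⟨v, b⟩
    cases b <;> rfl
  induction l generalizing a with
  | nil => exact hl a
  | cons b c ih =>
    have h1 : (Pool.H6.QL.clF a (b :: c)).leaves
        = (Pool.H6.QL.litF a).leaves + (Pool.H6.QL.clF b c).leaves := rfl
    rw [h1, hl, ih b, List.length_cons]
    omega

private theorem rsx_lx {n : ℕ} (l : List (Finset (Fin n) × Bool)) (a : Finset (Fin n) × Bool) :
    lx (Pool.H6.QL.clF a l) = max 1 a.1.card + (l.map fun p => max 1 p.1.card).sum := by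
  have hl : ∀ a : Finset (Fin n) × Bool, lx (Pool.H6.QL.litF a) = max 1 a.1.card := by
    rintro ⟨v, b⟩
    cases b <;> rfl
  induction l generalizing a with
  | nil =>
    rw [List.map_nil, List.sum_nil, add_zero]
    exact hl a
  | cons b c ih =>
    have h1 : lx (Pool.H6.QL.clF a (b :: c))
        = lx (Pool.H6.QL.litF a) + lx (Pool.H6.QL.clF b c) := rfl
    rw [h1, hl, ih b, List.map_cons, List.sum_cons]

theorem fc_pc {n k : ℕ} (hk : 1 ≤ k) (C : Lc n) : alt (fC C) true ≤ k ∧ alt (fC C) false ≤ k := by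
  have h := rsx_alt C.toList ((∅ : Finset (Fin n)), true)
  unfold fC
  exact ⟨h.2.trans hk, by rw [h.1]; exact Nat.zero_le _⟩

theorem fc_lx {n : ℕ} (C : Lc n) : lx (fC C) = 1 + lcl C := by
  unfold fC lcl
  rw [rsx_lx, Finset.sum_map_toList]
  simp

theorem fc_empty {n : ℕ} : fC (∅ : Lc n) = Fm.var ∅ := by
  unfold fC
  rw [Finset.toList_empty]
  rfl

theorem rsx_der {n m k k' N : ℕ} (hk : k + 1 ≤ k') (hk4 : 4 ≤ k') {φ : Fin m → Cl n} {C : Fin N → Lc n} (h : DerR k φ C) :
    DerX k' ∅ (AxX φ k' ∪ ValX n k')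
      (Fin.cons (Fm.neg (Fm.var ∅)) (fun i => fC (C i)) : Fin (N + 1) → Fx n) := by
  intro i
  refine Fin.cases ?_ (fun i => ?_) i
  · left
    right
    refine ⟨?_, fun x => ?_⟩
    · show (1 : ℕ) ≤ k'
      omega
    · show (!(px x (∅ : Finset (Fin n)))) = true
      rw [px_empty]
      rfl
  · simp only [Fin.cons_succ]
    rcases h i with ⟨j, hj⟩ | ⟨hc, hv⟩ | ⟨j, l, S, hji, hli, hj, hl⟩
    · left
      left
      refine ⟨?_, fun y hy => ?_⟩
      · rw [fc_lx]
        have h1 : lcl (C i) = (C i).card := by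
          unfold lcl
          rw [Finset.card_eq_sum_ones]
          refine Finset.sum_congr rfl fun p hp => ?_
          rw [hj, Finset.mem_image] at hp
          obtain ⟨a, -, rfl⟩ := hp
          simp
        have h2 : (C i).card ≤ 3 := by
          rw [hj]
          exact Finset.card_image_le.trans (by simp)
        omega
      · rw [rsx_evC]
        have h1 : cvar (φ j) ⊆ vx (fC (C i)) := by
          intro v hv
          unfold cvar at hv
          rw [Finset.mem_map] at hv
          obtain ⟨a, -, rfl⟩ := hv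
          have hm : ((Fm.var {(φ j).1 a} : Fx n), (φ j).2 a) ∈ dj (fC (C i)) true := by
            rw [rsx_mem]
            refine Or.inr ⟨({(φ j).1 a}, (φ j).2 a), ?_, rfl⟩
            rw [hj, Finset.mem_image]
            exact ⟨a, Finset.mem_univ _, rfl⟩
          have hs := dj_vx hm
          exact hs (by simp [vx])
        obtain ⟨a, ha⟩ := hy j h1
        refine ⟨({(φ j).1 a}, (φ j).2 a), ?_, ?_⟩
        · rw [hj, Finset.mem_image]
          exact ⟨a, Finset.mem_univ _, rfl⟩
        · show px y {(φ j).1 a} = (φ j).2 a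
          rw [px_single]
          exact ha
    · left
      right
      refine ⟨?_, fun x => ?_⟩
      · show (fC (C i)).leaves ≤ k'
        unfold fC
        rw [rsx_lv, Finset.length_toList]
        omega
      · rw [rsx_evC]
        exact hv x
    · right
      right
      right
      refine ⟨j.succ, l.succ, Fin.succ_lt_succ_iff.2 hji, Fin.succ_lt_succ_iff.2 hli, ?_, ?_, ?_, S, ?_, ?_⟩
      · rw [Fin.cons_succ]
        exact fc_pc (by omega) _
      · rw [Fin.cons_succ]
        exact fc_pc (by omega) _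
      · exact fc_pc (by omega) _
      · intro p hp
        rw [Fin.cons_succ, rsx_mem] at hp
        rw [rsx_mem]
        rcases hp with hp | ⟨q, hq, hp⟩
        · exact Or.inr (Or.inl hp)
        · rcases Finset.mem_insert.1 (hj hq) with h1 | h1
          · left
            rw [hp, h1]
          · exact Or.inr (Or.inr ⟨q, h1, hp⟩)
      · intro p hp
        rw [Fin.cons_succ, rsx_mem] at hp
        rw [rsx_mem]
        rcases hp with hp | ⟨q, hq, hp⟩
        · exact Or.inr (Or.inl hp)
        · rcases Finset.mem_insert.1 (hl hq) with h1 | h1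
          · left
            rw [hp, h1]
          · exact Or.inr (Or.inr ⟨q, h1, hp⟩)

/-- a derivation of the empty clause has at least two lines -/
theorem rsx_two {n m k N : ℕ} {φ : Fin m → Cl n} {C : Fin N → Lc n} (h : DerR k φ C) {i : Fin N} (hi : C i = ∅) :
    2 ≤ N := by
  rcases h i with ⟨j, hj⟩ | ⟨-, hv⟩ | ⟨j, l, S, hji, -, -, -⟩
  · rw [hi] at hj
    have h1 : (({(φ j).1 0} : Finset (Fin n)), (φ j).2 0) ∈ (∅ : Lc n) := by
      rw [hj, Finset.mem_image]
      exact ⟨0, Finset.mem_univ _, rfl⟩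
    exact absurd h1 (Finset.notMem_empty _)
  · obtain ⟨p, hp, -⟩ := hv fun _ => false
    rw [hi] at hp
    exact absurd hp (Finset.notMem_empty _)
  · have h1 : j.1 < i.1 := hji
    have h2 := i.2
    omega

end Pool.H86.XP
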