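import Mathlib
import Pool.Agent.H86.XP.Wgt
import Pool.Agent.H86.XP.Rsx

set_option autoImplicit false
set_option linter.unusedSectionVars false

/-!
# Module LGB (THEOREM LP): linear clauses with few long equations satisfy the hypotheses of the general theorem
-/

namespace Pool.H86.XP

open Finset Classical Pool.Agent.H3.Frg Pool.Agent.H3.Frg2 Pool.Agent.H3.Frg4 Pool.Agent.H55.QT Pool.H6.LD Pool.H6.QL

private theorem sq_pow (a : ℕ) : ∃ L0 : ℕ, ∀ L, L0 ≤ L → a * L ^ 2 + 1 ≤ 2 ^ (L - 1) := by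
  have h1 := tendsto_pow_const_mul_const_pow_of_abs_lt_one 2 (r := (1 / 2 : ℝ)) (by
    rw [abs_of_pos (by norm_num)]
    norm_num)
  have h2 := h1.eventually (gt_mem_nhds (show (0 : ℝ) < 1 / (4 * (a + 1)) by positivity))
  obtain ⟨L0, hL0⟩ := Filter.eventually_atTop.1 h2
  refine ⟨L0 + 3, fun L hL => ?_⟩
  have h3 := hL0 L (by omega)
  have h4 : ((a : ℝ) + 1) * (L : ℝ) ^ 2 * 4 < 2 ^ L := by
    have h5 : (0 : ℝ) < 4 * ((a : ℝ) + 1) := by positivity
    rw [lt_div_iff₀ h5, one_div, inv_pow] at h3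
    have h6 : (0 : ℝ) < 2 ^ L := by positivity
    have h7 : (L : ℝ) ^ 2 * ((2 : ℝ) ^ L)⁻¹ * (4 * (a + 1)) * 2 ^ L < 1 * 2 ^ L :=
      mul_lt_mul_of_pos_right h3 h6
    have h8 : (L : ℝ) ^ 2 * ((2 : ℝ) ^ L)⁻¹ * (4 * (a + 1)) * 2 ^ L = (a + 1) * (L : ℝ) ^ 2 * 4 := by
      field_simp
    rw [h8, one_mul] at h7
    exact h7
  have h5 : (a + 1) * L ^ 2 * 4 < 2 ^ L := by exact_mod_cast h4
  obtain ⟨M, hM⟩ : ∃ M, L = M + 1 := ⟨L - 1, by omega⟩
  subst hM
  rw [Nat.add_sub_cancel]
  have h7 : 2 ^ (M + 1) = 2 ^ M * 2 := pow_succ 2 M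
  have h6 : 8 ≤ 2 ^ (M + 1) := by
    calc 8 = 2 ^ 3 := by norm_num
      _ ≤ 2 ^ (M + 1) := Nat.pow_le_pow_right (by norm_num) (by omega)
  have h8 : (a + 1) * (M + 1) ^ 2 * 4 = 4 * (a * (M + 1) ^ 2) + 4 * (M + 1) ^ 2 := by ring
  rw [h8, h7] at h5
  rw [h7] at h6
  have h9 : 1 ≤ (M + 1) ^ 2 := Nat.one_le_pow _ _ (by omega)
  omega

/-- the square of the logarithm of a polynomial bound is small -/
theorem log_small (k : ℕ) : ∃ n1 : ℕ, ∀ n, n1 ≤ n → ∀ s, s ≤ 4 * (n + 1) ^ (k + 2) → Nat.log 2 s ^ 2 ≤ n := by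
  obtain ⟨L0, hL0⟩ := sq_pow ((k + 4) ^ 2)
  refine ⟨2 ^ L0, fun n hn s hs => ?_⟩
  obtain ⟨L, hL⟩ : ∃ L, L = Nat.log 2 (n + 1) + 1 := ⟨_, rfl⟩
  have h1 : n + 1 < 2 ^ L := by
    rw [hL]
    exact Nat.lt_pow_succ_log_self (by norm_num) _
  have h2 : 2 ^ (L - 1) ≤ n + 1 := by
    rw [hL, Nat.add_sub_cancel]
    exact Nat.pow_log_le_self 2 (by omega)
  have h3 : L0 ≤ L := by
    by_contra h4
    push Not at h4
    have h5 : 2 ^ L ≤ 2 ^ L0 := Nat.pow_le_pow_right (by norm_num) h4.le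
    omega
  have h4 := hL0 L h3
  have h5 : s < 2 ^ (2 + L * (k + 2)) := by
    refine lt_of_le_of_lt hs ?_
    have e1 : 2 ^ (2 + L * (k + 2)) = 4 * (2 ^ L) ^ (k + 2) := by
      rw [Nat.pow_add, Nat.pow_mul]
    rw [e1]
    have h6 : (n + 1) ^ (k + 2) < (2 ^ L) ^ (k + 2) := Nat.pow_lt_pow_left h1 (by omega)
    omega
  have h6 : Nat.log 2 s ≤ (k + 4) * L := by
    have h7 : Nat.log 2 s < 2 + L * (k + 2) := Nat.log_lt_of_lt_pow' (by
      have : 1 ≤ L := by omega
      omega) h5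
    have h8 : 1 ≤ L := by omega
    nlinarith
  have h7 : Nat.log 2 s ^ 2 ≤ ((k + 4) * L) ^ 2 := Nat.pow_le_pow_left h6 2
  have h8 : ((k + 4) * L) ^ 2 = (k + 4) ^ 2 * L ^ 2 := by ring
  omega

private theorem cl_wx {n k : ℕ} (a : Finset (Fin n) × Bool) (l : List (Finset (Fin n) × Bool)) :
    wx k (clF a l : Fx n) false = 0 ∧ wx k (clF a l : Fx n) true ≤ om k (lx (clF a l : Fx n)) := by
  have hlit : ∀ (p : Finset (Fin n) × Bool) (b : Bool), wx k (litF p : Fx n) b = 0 := by
    intro p b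
    unfold litF
    split_ifs
    · rfl
    · rfl
  induction l generalizing a with
  | nil =>
    refine ⟨hlit a false, ?_⟩
    show wx k (litF a : Fx n) true ≤ _
    rw [hlit]
    exact Nat.zero_le _
  | cons b l ih =>
    have h1 := ih b
    have h2 : wx k (Fm.neg (litF a : Fx n)) true = 0 := hlit a false
    constructor
    · show wx k (Fm.neg (litF a : Fx n)) true + wx k (clF b l : Fx n) false = 0
      rw [h2, h1.1]
    · show wx k (Fm.neg (litF a : Fx n)) true + wx k (clF b l : Fx n) false +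
        om k (lx (Fm.imp (Fm.neg (litF a : Fx n)) (clF b l : Fx n))) ≤ _
      rw [h2, h1.1, Nat.zero_add]
      exact le_rfl

private theorem lg_fc {n k : ℕ} (C : Lc n) : (lg k (fC C)).card ≤ (C.filter fun p => k < p.1.card).card := by
  have h1 : ∀ (a : Finset (Fin n) × Bool) (l : List (Finset (Fin n) × Bool)), ∀ S ∈ ax (clF a l : Fx n),
      S = a.1 ∨ ∃ p ∈ l, S = p.1 := by
    have hlit : ∀ (p : Finset (Fin n) × Bool), ∀ S ∈ ax (litF p : Fx n), S = p.1 := by
      intro p S hS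
      unfold litF at hS
      split_ifs at hS
      · exact mem_singleton.1 hS
      · exact mem_singleton.1 hS
    intro a l
    induction l generalizing a with
    | nil =>
      intro S hS
      exact Or.inl (hlit a S hS)
    | cons b l ih =>
      intro S hS
      have h2 : ax (clF a (b :: l) : Fx n) = ax (litF a : Fx n) ∪ ax (clF b l : Fx n) := rfl
      rw [h2, mem_union] at hS
      rcases hS with hS | hS
      · exact Or.inl (hlit a S hS)
      · rcases ih b S hS with h3 | ⟨p, hp, h3⟩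
        · exact Or.inr ⟨b, List.mem_cons_self, h3⟩
        · exact Or.inr ⟨p, List.mem_cons_of_mem _ hp, h3⟩
  have h2 : lg k (fC C) ⊆ (C.filter fun p => k < p.1.card).image Prod.fst := by
    intro S hS
    obtain ⟨h3, h4⟩ := mem_lg.1 hS
    rw [mem_image]
    rcases h1 _ _ S h3 with h5 | ⟨p, hp, h5⟩
    · exfalso
      rw [h5, card_empty] at h4
      omega
    · exact ⟨p, mem_filter.2 ⟨Finset.mem_toList.1 hp, by rw [← h5]; exact h4⟩, h5.symm⟩
  exact (card_le_card h2).trans card_image_le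

/-- the number of sets with at most `k` elements -/
private theorem sets_le (n k : ℕ) : (univ.filter fun S : Finset (Fin n) => S.card ≤ k).card ≤ (n + 1) ^ k := by
  induction k with
  | zero =>
    rw [pow_zero]
    refine Finset.card_le_one.2 fun S hS T hT => ?_
    rw [mem_filter] at hS hT
    rw [Finset.card_eq_zero.1 (Nat.le_zero.1 hS.2), Finset.card_eq_zero.1 (Nat.le_zero.1 hT.2)]
  | succ k ih =>
    have h1 : (univ.filter fun S : Finset (Fin n) => S.card ≤ k + 1) ⊆
        ((univ.filter fun S : Finset (Fin n) => S.card ≤ k) ×ˢ (univ : Finset (Option (Fin n)))).image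
          fun p => match p.2 with
            | none => p.1
            | some v => insert v p.1 := by
      intro S hS
      rw [mem_filter] at hS
      rw [mem_image]
      rcases Nat.lt_or_ge k S.card with h2 | h2
      · obtain ⟨v, hv⟩ : S.Nonempty := card_pos.1 (by omega)
        refine ⟨(S.erase v, some v), ?_, ?_⟩
        · rw [mem_product, mem_filter]
          refine ⟨⟨mem_univ _, ?_⟩, mem_univ _⟩
          rw [card_erase_of_mem hv]
          omega
        · exact insert_erase hv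
      · exact ⟨(S, none), mem_product.2 ⟨mem_filter.2 ⟨mem_univ _, h2⟩, mem_univ _⟩, rfl⟩
    refine (card_le_card h1).trans (card_image_le.trans ?_)
    rw [card_product, card_univ, Fintype.card_option, Fintype.card_fin, pow_succ]
    exact Nat.mul_le_mul_right _ ih

/-- the number of equations -/
theorem fc_card {n k M : ℕ} (C : Lc n) (hC : (C.filter fun p => k < p.1.card).card ≤ M) (hM : M ≤ n) :
    C.card ≤ 2 * (n + 1) ^ k + n := by
  have h1 : (C.filter fun p => ¬ k < p.1.card).card ≤ 2 * (n + 1) ^ k := by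
    have h2 : (C.filter fun p => ¬ k < p.1.card) ⊆
        (univ.filter fun S : Finset (Fin n) => S.card ≤ k) ×ˢ (univ : Finset Bool) := by
      intro p hp
      rw [mem_filter] at hp
      rw [mem_product, mem_filter]
      exact ⟨⟨mem_univ _, not_lt.1 hp.2⟩, mem_univ _⟩
    refine (card_le_card h2).trans ?_
    rw [card_product, card_univ, Fintype.card_bool, Nat.mul_comm]
    exact Nat.mul_le_mul_left _ (sets_le n k)
  have h3 := Finset.card_filter_add_card_filter_not (s := C) (fun p => k < p.1.card)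
  omega

/-- linear clauses with few long equations -/
theorem fc_len {n k M : ℕ} (C : Lc n) (hC : (C.filter fun p => k < p.1.card).card ≤ M) (hM : M ≤ n) :
    lx (fC C) ≤ 4 * (n + 1) ^ (k + 2) := by
  rw [fc_lx]
  have h2 := fc_card C hC hM
  have h3 : lcl C ≤ C.card * (n + 1) := by
    unfold lcl
    rw [← smul_eq_mul, ← Finset.sum_const]
    refine Finset.sum_le_sum fun p _ => ?_
    have h4 : p.1.card ≤ n := by
      have := card_le_univ p.1
      rwa [Fintype.card_fin] at this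
    exact max_le (by omega) (by omega)
  have h4 : 1 ≤ (n + 1) ^ k := Nat.one_le_pow _ _ (by omega)
  have h5 : (n + 1) ^ (k + 2) = (n + 1) ^ k * (n + 1) * (n + 1) := by ring
  rw [h5]
  obtain ⟨X, hX⟩ : ∃ X, X = (n + 1) ^ k := ⟨_, rfl⟩
  rw [← hX] at h2 h4 ⊢
  have h6 : C.card * (n + 1) ≤ (2 * X + n) * (n + 1) := Nat.mul_le_mul_right _ h2
  have h7 : (2 * X + n) * (n + 1) + 1 ≤ 4 * (X * (n + 1) * (n + 1)) := by
    have e1 : (n + 1) * (n + 1) ≤ X * (n + 1) * (n + 1) := by
      calc (n + 1) * (n + 1) = 1 * (n + 1) * (n + 1) := by ring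
        _ ≤ X * (n + 1) * (n + 1) := by gcongr
    have e2 : X * (n + 1) ≤ X * (n + 1) * (n + 1) := Nat.le_mul_of_pos_right _ (by omega)
    nlinarith
  omega

theorem fc_fwx {n k k' M : ℕ} (hk : 1 ≤ k') (C : Lc n) (hC : (C.filter fun p => k < p.1.card).card ≤ M)
    (hM : M ≤ n) (hlog : ∀ s, s ≤ 4 * (n + 1) ^ (k + 2) → Nat.log 2 s ^ 2 ≤ n) (hkk : k ≤ k') :
    Fwx k' 1 (k' * n) (fC C) ∧ (lg k' (fC C)).card ≤ M := by
  constructor
  · have hP : Pc k' (fC C) := fc_pc hk C
    unfold Fwx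
    rw [ps_piece hP, sum_singleton, card_singleton]
    refine ⟨le_rfl, ?_⟩
    have h1 := cl_wx (k := k') (∅, true) C.toList
    have h2 : om k' (lx (fC C)) ≤ n := by
      unfold om
      split_ifs
      · exact hlog _ (fc_len C hC hM)
      · exact Nat.zero_le _
    have h3 : n ≤ k' * n := Nat.le_mul_of_pos_left _ hk
    have h4 : wx k' (fC C) false = 0 := h1.1
    have h5 : wx k' (fC C) true ≤ om k' (lx (fC C)) := h1.2
    exact max_le (by omega) (by omega)
  · refine (lg_fc C).trans (le_trans (card_le_card ?_) hC)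
    intro p hp
    rw [mem_filter] at hp ⊢
    exact ⟨hp.1, by omega⟩

end Pool.H86.XP
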