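import Mathlib
import Pool.Agent.H86.XP.Cmw
import Pool.Agent.H86.XP.Rsx

set_option autoImplicit false
set_option linter.unusedSectionVars false

/-!
# Module SEM (THEOREM LP): semantic inferences between linear clauses are simulated by `DerR`
-/

namespace Pool.H86.XP

open Finset Classical Pool.Agent.H3.Frg Pool.Agent.H3.Frg2 Pool.Agent.H3.Frg4 Pool.Agent.H55.QT Pool.H6.LD

/-- The linear clause `C` is true at `x`. -/
def tL {n : ℕ} (C : Lc n) (x : Fin n → Bool) : Prop := ∃ p ∈ C, px x p.1 = p.2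

/-- Derivations in resolution over parities from the clauses of `φ`: every line is a clause of `φ`, or is valid, or
follows from two earlier lines. -/
def DerL {n m : ℕ} (φ : Fin m → Cl n) {N : ℕ} (C : Fin N → Lc n) : Prop :=
  ∀ i, (∃ j, C i = univ.image fun a => ({(φ j).1 a}, (φ j).2 a)) ∨ (∀ x, tL (C i) x) ∨
    ∃ j l, j < i ∧ l < i ∧ ∀ x, tL (C j) x → tL (C l) x → tL (C i) x

variable {n m : ℕ}

private theorem bit_ex : ∀ z : ZMod 2, ∃ b : Bool, (if b = true then (1 : ZMod 2) else 0) = z := by decide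

private theorem bit_inj : ∀ a b : Bool, (if a = true then (1 : ZMod 2) else 0) =
    (if b = true then (1 : ZMod 2) else 0) → a = b := by decide

private theorem c_par {α : Type} [DecidableEq α] (A B : Finset α) :
    (symmDiff A B).card + 2 * (A ∩ B).card = A.card + B.card := by
  have h1 : symmDiff A B = (A \ B) ∪ (B \ A) := by
    ext x; simp [Finset.mem_symmDiff]
  have h2 : Disjoint (A \ B) (B \ A) := by
    rw [Finset.disjoint_left]
    intro x hx hy
    simp only [Finset.mem_sdiff] at hx hy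
    exact hx.2 hy.1
  have h3 : (A \ B).card + (A ∩ B).card = A.card := Finset.card_sdiff_add_card_inter A B
  have h4 : (B \ A).card + (B ∩ A).card = B.card := Finset.card_sdiff_add_card_inter B A
  have h5 : B ∩ A = A ∩ B := Finset.inter_comm B A
  rw [h5] at h4
  rw [h1, Finset.card_union_of_disjoint h2]
  omega

private theorem sm_sy {α : Type} [DecidableEq α] (x : α → Bool) (S T : Finset α) :
    sm x (symmDiff S T) = sm x S + sm x T := by
  have e1 : symmDiff S T = (S \ T) ∪ (T \ S) := by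
    ext a
    simp [Finset.mem_symmDiff]
  have e2 : Disjoint (S \ T) (T \ S) := by
    rw [Finset.disjoint_left]
    intro a ha hb
    simp only [Finset.mem_sdiff] at ha hb
    exact hb.2 ha.1
  have e3 : sm x S = sm x (S \ T) + sm x (S ∩ T) := by
    unfold sm
    rw [← Finset.sum_union (Finset.disjoint_sdiff_inter S T), Finset.sdiff_union_inter]
  have e4 : sm x T = sm x (T \ S) + sm x (S ∩ T) := by
    unfold sm
    rw [Finset.inter_comm S T, ← Finset.sum_union (Finset.disjoint_sdiff_inter T S),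
      Finset.sdiff_union_inter]
  have e5 : sm x (symmDiff S T) = sm x (S \ T) + sm x (T \ S) := by
    rw [e1]
    unfold sm
    exact Finset.sum_union e2
  have e6 : sm x (S ∩ T) + sm x (S ∩ T) = 0 := CharTwo.add_self_eq_zero _
  rw [e5, e3, e4]
  calc sm x (S \ T) + sm x (T \ S) = sm x (S \ T) + sm x (T \ S) + 0 := by rw [add_zero]
    _ = sm x (S \ T) + sm x (T \ S) + (sm x (S ∩ T) + sm x (S ∩ T)) := by rw [e6]
    _ = _ := by ring

private theorem sm_e {α : Type} (x : α → Bool) : sm x ∅ = 0 := by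
  unfold sm
  exact Finset.sum_empty

private theorem sdf_symm (I J : Finset (Finset (Fin n))) :
    sdf (symmDiff I J) = symmDiff (sdf I) (sdf J) := by
  ext x
  have h1 : (symmDiff I J).filter (fun S => x ∈ S) =
      symmDiff (I.filter fun S => x ∈ S) (J.filter fun S => x ∈ S) := by
    ext j
    simp only [Finset.mem_filter, Finset.mem_symmDiff]
    tauto
  have h2 := c_par (I.filter fun S => x ∈ S) (J.filter fun S => x ∈ S)
  simp only [sdf, Finset.mem_symmDiff, Finset.mem_filter, Finset.mem_univ, true_and]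
  rw [h1]
  simp only [Nat.odd_iff]
  omega

private theorem sdf_e : sdf (∅ : Finset (Finset (Fin n))) = ∅ := by
  ext x
  simp [sdf]

private theorem sdf_one (S : Finset (Fin n)) : sdf {S} = S := by
  ext x
  unfold sdf
  rw [mem_filter, filter_singleton]
  by_cases h : x ∈ S
  · simp [h]
  · simp [h]

private theorem sdf_ins {S : Finset (Fin n)} {I : Finset (Finset (Fin n))} (h : S ∉ I) :
    sdf (insert S I) = symmDiff (sdf I) S := by
  have h1 : insert S I = symmDiff I {S} := by
    ext T
    rw [mem_insert, mem_symmDiff, mem_singleton]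
    constructor
    · rintro (h2 | h2)
      · exact Or.inr ⟨h2, by rw [h2]; exact h⟩
      · refine Or.inl ⟨h2, fun h3 => ?_⟩
        rw [h3] at h2
        exact h h2
    · rintro (h2 | h2)
      · exact Or.inr h2.1
      · exact Or.inl h2.1
  rw [h1, sdf_symm, sdf_one]

/-- an inconsistent system has a sum `0 = 1` -/
theorem inc {G : Finset (Finset (Fin n))} {c : Finset (Fin n) → Bool}
    (h : ∀ I, I ⊆ G → sdf I = ∅ → sm c I = 0) : ∃ z : Fin n → Bool, ∀ S ∈ G, px z S = c S := by
  have h1 := cmw (n := n) (m := 0) (B := fun _ => ∅) (b := fun _ => false) (r := 0) (K := 0) (δ := 0) (U₀ := ∅)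
    (fun J hJ => by rw [Nat.le_zero.1 hJ]; exact Nat.zero_le _) (fun j => disjoint_empty_left _) (by norm_num)
  have h2 : XW (fun _ : Fin 0 => (∅ : Finset (Fin n))) (fun _ => false) 0 G c ∅ (fun _ => false) := by
    intro J I hJ hI hs
    have hJ0 : J = ∅ := Finset.card_eq_zero.1 (Nat.le_zero.1 hJ)
    subst hJ0
    have hp : par (fun _ : Fin 0 => (∅ : Finset (Fin n))) ∅ = ∅ := by
      ext x
      simp [Pool.Agent.H55.QT.par]
    rw [hp] at hs ⊢
    have h3 : symmDiff (∅ : Finset (Fin n)) (sdf I) = sdf I := bot_symmDiff _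
    rw [h3] at hs ⊢
    have h4 : sdf I = ∅ := Finset.subset_empty.1 hs
    rw [h4, h I hI h4, sm_e, sm_e, add_zero]
  obtain ⟨z, _, hz⟩ := h1.real G c ∅ _ h2
  exact ⟨z, hz⟩

/-- One step of `DerR`. -/
def Stp (k : ℕ) (A P : Lc n → Prop) (C : Lc n) : Prop :=
  A C ∨ (C.card ≤ k ∧ ∀ x, tL C x) ∨
    ∃ D E S, P D ∧ P E ∧ D ⊆ insert (S, true) C ∧ E ⊆ insert (S, false) C

/-- Lists of lines, the last line first. -/
def Lst (k : ℕ) (A : Lc n → Prop) : List (Lc n) → Prop
  | [] => True
  | C :: L => Lst k A L ∧ Stp k A (fun D => D ∈ L) C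

private theorem Stp.mono {k : ℕ} {A P P' : Lc n → Prop} {C : Lc n} (h : ∀ D, P D → P' D) (hC : Stp k A P C) :
    Stp k A P' C := by
  rcases hC with h1 | h1 | ⟨D, E, S, h1, h2, h3, h4⟩
  · exact Or.inl h1
  · exact Or.inr (Or.inl h1)
  · exact Or.inr (Or.inr ⟨D, E, S, h _ h1, h _ h2, h3, h4⟩)

private theorem lst_merge {k : ℕ} {A : Lc n → Prop} {L0 L1 L2 : List (Lc n)} (h1 : Lst k A (L1 ++ L0))
    (h2 : Lst k A (L2 ++ L0)) : Lst k A (L1 ++ (L2 ++ L0)) := by
  induction L1 with
  | nil => exact h2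
  | cons C L1 ih =>
    refine ⟨ih h1.1, h1.2.mono fun D hD => ?_⟩
    change D ∈ L1 ++ L0 at hD
    change D ∈ L1 ++ (L2 ++ L0)
    rw [List.mem_append] at hD ⊢
    rcases hD with hD | hD
    · exact Or.inl hD
    · exact Or.inr (List.mem_append.2 (Or.inr hD))

/-- Derivations of `C` from the list `L0` by at most `N` more lines, with the property `Q`. -/
def Drv (k : ℕ) (A Q : Lc n → Prop) (L0 : List (Lc n)) (N : ℕ) (C : Lc n) : Prop :=
  ∃ L, L.length ≤ N ∧ Lst k A (L ++ L0) ∧ (∀ D ∈ L, Q D) ∧ C ∈ L ++ L0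

section drv

variable {k : ℕ} {A Q : Lc n → Prop} {L0 : List (Lc n)}

private theorem Drv.le {N N' : ℕ} {C : Lc n} (h : Drv k A Q L0 N C) (hN : N ≤ N') : Drv k A Q L0 N' C := by
  obtain ⟨L, h1, h2⟩ := h
  exact ⟨L, h1.trans hN, h2⟩

private theorem drv_prem (hL : Lst k A L0) {C : Lc n} (hC : C ∈ L0) : Drv k A Q L0 0 C :=
  ⟨[], le_rfl, hL, fun _ hD => absurd hD List.not_mem_nil, hC⟩

private theorem drv_val (hL : Lst k A L0) {C : Lc n} (hC : C.card ≤ k) (hv : ∀ x, tL C x) (hQ : Q C) :
    Drv k A Q L0 1 C := by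
  refine ⟨[C], le_rfl, ⟨hL, Or.inr (Or.inl ⟨hC, hv⟩)⟩, fun D hD => ?_, List.mem_cons_self⟩
  rw [List.mem_singleton] at hD
  rw [hD]
  exact hQ

private theorem drv_res {N1 N2 : ℕ} {C D E : Lc n} {S : Finset (Fin n)} {b : Bool} (h1 : Drv k A Q L0 N1 D)
    (h2 : Drv k A Q L0 N2 E) (hD : D ⊆ insert (S, b) C) (hE : E ⊆ insert (S, !b) C) (hQ : Q C) :
    Drv k A Q L0 (N1 + N2 + 1) C := by
  obtain ⟨L1, a1, a2, a3, a4⟩ := h1
  obtain ⟨L2, b1, b2, b3, b4⟩ := h2
  have hmD : D ∈ L1 ++ (L2 ++ L0) := by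
    rw [List.mem_append] at a4 ⊢
    rcases a4 with h | h
    · exact Or.inl h
    · exact Or.inr (List.mem_append.2 (Or.inr h))
  have hmE : E ∈ L1 ++ (L2 ++ L0) := List.mem_append.2 (Or.inr b4)
  refine ⟨C :: (L1 ++ L2), ?_, ?_, ?_, List.mem_cons_self⟩
  · rw [List.length_cons, List.length_append]
    omega
  · rw [List.cons_append, List.append_assoc]
    refine ⟨lst_merge a2 b2, Or.inr (Or.inr ?_)⟩
    cases b with
    | true => exact ⟨D, E, S, hmD, hmE, hD, hE⟩
    | false => exact ⟨E, D, S, hmE, hmD, hE, hD⟩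
  · intro F hF
    rw [List.mem_cons, List.mem_append] at hF
    rcases hF with hF | hF | hF
    · rw [hF]
      exact hQ
    · exact a3 F hF
    · exact b3 F hF

private theorem drv_wk {N : ℕ} {C D : Lc n} (h : Drv k A Q L0 N D) (hD : D ⊆ C) (hQ : Q C) :
    Drv k A Q L0 (N + 1) C := by
  obtain ⟨L, a1, a2, a3, a4⟩ := h
  refine ⟨C :: L, ?_, ⟨a2, Or.inr (Or.inr ⟨D, D, ∅, a4, a4, hD.trans (subset_insert _ _),
    hD.trans (subset_insert _ _)⟩)⟩, ?_, List.mem_cons_self⟩
  · rw [List.length_cons]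
    omega
  · intro F hF
    rw [List.mem_cons] at hF
    rcases hF with hF | hF
    · rw [hF]
      exact hQ
    · exact a3 F hF

/-- partial sums -/
private theorem drv_sum (hk : 3 ≤ k) (hL : Lst k A L0) {D0 : Lc n}
    (hQ : ∀ E p q, E ⊆ insert p (insert q D0) → Q E) (c : Finset (Fin n) → Bool) (I : Finset (Finset (Fin n)))
    (hI : ∀ S ∈ I, (S, !c S) ∈ D0) (β : Bool) (hβ : (if β = true then (1 : ZMod 2) else 0) = sm c I) :
    Drv k A Q L0 (2 * I.card + 1) (insert (sdf I, β) (I.image fun S => (S, !c S))) := by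
  induction I using Finset.induction_on generalizing β with
  | empty =>
    rw [sm_e] at hβ
    have h1 : β = false := bit_inj β false (by rw [hβ]; rfl)
    rw [h1, sdf_e, image_empty, card_empty]
    refine drv_val hL ?_ ?_ (hQ _ (∅, false) (∅, false) ?_)
    · rw [insert_empty_eq, card_singleton]
      omega
    · intro x
      exact ⟨(∅, false), mem_insert_self _ _, px_empty x⟩
    · intro p hp
      rw [insert_empty_eq, mem_singleton] at hp
      rw [hp]
      exact mem_insert_self _ _
  | insert S I hS ih =>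
    obtain ⟨β', hβ'⟩ := bit_ex (sm c I)
    have h1 := ih (fun T hT => hI T (mem_insert_of_mem hT)) β' hβ'
    have hsm : sm c (insert S I) = (if c S = true then (1 : ZMod 2) else 0) + sm c I := by
      unfold sm
      rw [sum_insert hS]
    have h2 : Drv k A Q L0 1 ({(S, !c S), (sdf I, !β'), (sdf (insert S I), β)} : Lc n) := by
      refine drv_val hL ?_ ?_ (hQ _ (sdf I, !β') (sdf (insert S I), β) ?_)
      · exact card_le_three.trans hk
      · intro x
        by_contra hcon
        have e1 : px x S ≠ !c S := fun h => hcon ⟨(S, !c S), by simp, h⟩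
        have e2 : px x (sdf I) ≠ !β' := fun h => hcon ⟨(sdf I, !β'), by simp, h⟩
        have e3 : px x (sdf (insert S I)) ≠ β := fun h => hcon ⟨(sdf (insert S I), β), by simp, h⟩
        have e4 : px x S = c S := by
          revert e1
          cases px x S <;> cases c S <;> simp
        have e5 : px x (sdf I) = β' := by
          revert e2
          cases px x (sdf I) <;> cases β' <;> simp
        refine e3 (bit_inj _ _ ?_)
        rw [hβ, hsm, ← px_sm, sdf_ins hS, sm_sy, px_sm, px_sm, e4, e5, hβ', add_comm]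
      · intro p hp
        simp only [mem_insert, mem_singleton] at hp
        rcases hp with hp | hp | hp
        · rw [hp]
          exact mem_insert_of_mem (mem_insert_of_mem (hI S (mem_insert_self _ _)))
        · rw [hp]
          exact mem_insert_self _ _
        · rw [hp]
          exact mem_insert_of_mem (mem_insert_self _ _)
    have h3 := drv_res (C := insert (sdf (insert S I), β) ((insert S I).image fun S => (S, !c S)))
      (S := sdf I) (b := β') h1 h2 ?_ ?_ (hQ _ (sdf (insert S I), β) (sdf (insert S I), β) ?_)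
    · refine h3.le ?_
      rw [card_insert_of_notMem hS]
      omega
    · intro p hp
      rw [mem_insert] at hp
      rcases hp with hp | hp
      · rw [hp]
        exact mem_insert_self _ _
      · refine mem_insert_of_mem (mem_insert_of_mem ?_)
        exact image_subset_image (subset_insert _ _) hp
    · intro p hp
      simp only [mem_insert, mem_singleton] at hp
      rcases hp with hp | hp | hp
      · rw [hp]
        exact mem_insert_of_mem (mem_insert_of_mem (mem_image_of_mem _ (mem_insert_self _ _)))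
      · rw [hp]
        exact mem_insert_self _ _
      · rw [hp]
        exact mem_insert_of_mem (mem_insert_self _ _)
    · intro p hp
      rw [mem_insert] at hp
      rcases hp with hp | hp
      · rw [hp]
        exact mem_insert_self _ _
      · rw [mem_image] at hp
        obtain ⟨T, hT, hp⟩ := hp
        rw [← hp]
        exact mem_insert_of_mem (mem_insert_of_mem (hI T hT))

/-- the function of the right sides of the negation of a clause -/
private def cc (D : Lc n) (S : Finset (Fin n)) : Bool := decide ((S, false) ∈ D)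

private theorem cc_mem {D : Lc n} {S : Finset (Fin n)} (hS : S ∈ D.image Prod.fst) : (S, !cc D S) ∈ D := by
  obtain ⟨p, hp, h1⟩ := mem_image.1 hS
  unfold cc
  by_cases h2 : (S, false) ∈ D
  · rw [decide_eq_true h2]
    exact h2
  · rw [decide_eq_false h2]
    have h3 : p.2 = true := by
      by_contra h4
      rw [Bool.not_eq_true] at h4
      refine h2 ?_
      rw [← h1, ← h4]
      exact hp
    show (S, true) ∈ D
    rw [← h1, ← h3]
    exact hp

private theorem cc_val {D : Lc n} {p : Finset (Fin n) × Bool} (hp : p ∈ D) (hn : (p.1, !p.2) ∉ D) :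
    cc D p.1 = !p.2 := by
  unfold cc
  obtain ⟨S, b⟩ := p
  cases b with
  | true => exact decide_eq_false hn
  | false => exact decide_eq_true hp

/-- two complementary equations -/
private theorem drv_comp (hk : 3 ≤ k) (hL : Lst k A L0) {D : Lc n} {S : Finset (Fin n)} {b : Bool}
    (h1 : (S, b) ∈ D) (h2 : (S, !b) ∈ D) (hQ : ∀ E, E ⊆ D → Q E) : Drv k A Q L0 2 D := by
  have h3 : ({(S, b), (S, !b)} : Lc n) ⊆ D := by
    intro p hp
    rw [mem_insert, mem_singleton] at hp
    rcases hp with hp | hp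
    · rw [hp]
      exact h1
    · rw [hp]
      exact h2
  refine drv_wk (N := 1) (drv_val hL ?_ ?_ (hQ _ h3)) h3 (hQ _ (Subset.refl D))
  · exact card_le_two.trans (by omega)
  · intro x
    by_cases h4 : px x S = b
    · exact ⟨(S, b), mem_insert_self _ _, h4⟩
    · refine ⟨(S, !b), mem_insert_of_mem (mem_singleton_self _), ?_⟩
      show px x S = !b
      revert h4
      cases px x S <;> cases b <;> simp

/-- a sum `0 = 1` of the negations of the equations -/
private theorem drv_zero (hk : 3 ≤ k) (hL : Lst k A L0) {D : Lc n} (hQ : ∀ E p q, E ⊆ insert p (insert q D) → Q E)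
    {I : Finset (Finset (Fin n))} (hI : I ⊆ D.image Prod.fst) (h0 : sdf I = ∅) (h1 : sm (cc D) I ≠ 0) :
    Drv k A Q L0 (2 * D.card + 3) D := by
  have h2 : ∀ z : ZMod 2, z ≠ 0 → (1 : ZMod 2) = z := by decide
  have h3 := drv_sum hk hL hQ (cc D) I (fun S hS => cc_mem (hI hS)) true (by
    rw [if_pos rfl]
    exact h2 _ h1)
  rw [h0] at h3
  have h4 : Drv k A Q L0 1 ({(∅, false)} : Lc n) := by
    refine drv_val hL ?_ (fun x => ⟨(∅, false), mem_singleton_self _, px_empty x⟩) (hQ _ (∅, false) (∅, false) ?_)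
    · rw [card_singleton]
      omega
    · intro p hp
      rw [mem_singleton] at hp
      rw [hp]
      exact mem_insert_self _ _
  have h5 := drv_res (C := D) (S := ∅) (b := true) h3 h4 ?_ ?_ (hQ _ (∅, false) (∅, false) ?_)
  · refine h5.le ?_
    have h6 : I.card ≤ D.card := (card_le_card hI).trans card_image_le
    omega
  · intro p hp
    rw [mem_insert] at hp
    rcases hp with hp | hp
    · rw [hp]
      exact mem_insert_self _ _
    · rw [mem_image] at hp
      obtain ⟨T, hT, hp⟩ := hp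
      rw [← hp]
      exact mem_insert_of_mem (cc_mem (hI hT))
  · intro p hp
    rw [mem_singleton] at hp
    rw [hp]
    exact mem_insert_self _ _
  · exact (subset_insert _ _).trans (subset_insert _ _)

private theorem cc_false {D : Lc n} (hn : ∀ S b, (S, b) ∈ D → (S, !b) ∉ D) {z : Fin n → Bool}
    (hz : ∀ S ∈ D.image Prod.fst, px z S = cc D S) : ¬ tL D z := by
  rintro ⟨p, hp, h1⟩
  have h2 := hz p.1 (mem_image_of_mem _ hp)
  rw [cc_val hp (hn p.1 p.2 hp), h1] at h2
  revert h2
  cases p.2 <;> simp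

/-- valid clauses -/
private theorem drv_valid (hk : 3 ≤ k) (hL : Lst k A L0) {D : Lc n}
    (hQ : ∀ E p q, E ⊆ insert p (insert q D) → Q E) (hv : ∀ x, tL D x) :
    Drv k A Q L0 (2 * D.card + 3) D := by
  have hQ' : ∀ E, E ⊆ D → Q E := fun E hE => hQ E (∅, false) (∅, false)
    (hE.trans ((subset_insert _ _).trans (subset_insert _ _)))
  by_cases hn : ∀ S b, (S, b) ∈ D → (S, !b) ∉ D
  · by_contra hcon
    obtain ⟨z, hz⟩ := inc (G := D.image Prod.fst) (c := cc D) (fun I hI h0 => by
      by_contra h1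
      exact hcon (drv_zero hk hL hQ hI h0 h1))
    exact cc_false hn hz (hv z)
  · push Not at hn
    obtain ⟨S, b, h1, h2⟩ := hn
    exact (drv_comp hk hL h1 h2 hQ').le (by omega)

/-- an equation which implies a clause -/
private theorem drv_imp (hk : 3 ≤ k) (hL : Lst k A L0) {D : Lc n}
    (hQ : ∀ E p q, E ⊆ insert p (insert q D) → Q E) {S₀ : Finset (Fin n)} {b₀ : Bool}
    (hv : ∀ x, px x S₀ = b₀ → tL D x) : Drv k A Q L0 (2 * D.card + 4) (insert (S₀, !b₀) D) := by
  have hQ1 : ∀ E, E ⊆ insert (S₀, !b₀) D → Q E := fun E hE => hQ E (S₀, !b₀) (S₀, !b₀)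
    (hE.trans (subset_insert _ _))
  by_cases hn : ∀ S b, (S, b) ∈ D → (S, !b) ∉ D
  · by_cases hz : ∃ I, I ⊆ D.image Prod.fst ∧ sdf I = ∅ ∧ sm (cc D) I ≠ 0
    · obtain ⟨I, hI, h0, h1⟩ := hz
      exact drv_wk (drv_zero hk hL hQ hI h0 h1) (subset_insert _ _) (hQ1 _ (Subset.refl _))
    by_cases hS : (S₀, b₀) ∈ D
    · exact (drv_comp hk hL (mem_insert_of_mem hS) (mem_insert_self _ _) hQ1).le (by omega)
    by_cases hS' : (S₀, !b₀) ∈ D
    · exfalso
      obtain ⟨z, hz⟩ := inc (G := D.image Prod.fst) (c := cc D) (fun I hI h0 => by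
        by_contra h1
        exact hz ⟨I, hI, h0, h1⟩)
      refine cc_false hn hz (hv z ?_)
      have h1 := hz S₀ (mem_image_of_mem Prod.fst hS')
      rw [h1, cc_val hS' (hn _ _ hS')]
      exact Bool.not_not b₀
    have hSG : S₀ ∉ D.image Prod.fst := by
      intro h1
      obtain ⟨p, hp, h2⟩ := mem_image.1 h1
      have h3 : p = (S₀, b₀) ∨ p = (S₀, !b₀) := by
        obtain ⟨T, b⟩ := p
        have h4 : T = S₀ := h2
        rw [h4]
        cases b <;> cases b₀ <;> simp
      rcases h3 with h3 | h3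
      · rw [h3] at hp
        exact hS hp
      · rw [h3] at hp
        exact hS' hp
    obtain ⟨c', hc'⟩ : ∃ c', c' = Function.update (cc D) S₀ b₀ := ⟨_, rfl⟩
    have hcS : c' S₀ = b₀ := by
      rw [hc', Function.update_self]
    have hcG : ∀ S, S ≠ S₀ → c' S = cc D S := by
      intro S h1
      rw [hc', Function.update_of_ne h1]
    by_cases hz' : ∃ I, I ⊆ insert S₀ (D.image Prod.fst) ∧ sdf I = ∅ ∧ sm c' I ≠ 0
    · obtain ⟨I, hI, h0, h1⟩ := hz'
      have hsm : ∀ J : Finset (Finset (Fin n)), S₀ ∉ J → sm c' J = sm (cc D) J := by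
        intro J hJ
        unfold sm
        refine sum_congr rfl fun S hS => ?_
        rw [hcG S fun h2 => hJ (h2 ▸ hS)]
      by_cases hSI : S₀ ∈ I
      · obtain ⟨J, hJ⟩ : ∃ J, J = I.erase S₀ := ⟨_, rfl⟩
        have hSJ : S₀ ∉ J := by
          rw [hJ]
          exact notMem_erase _ _
        have hIJ : I = insert S₀ J := by
          rw [hJ, insert_erase hSI]
        have hJG : J ⊆ D.image Prod.fst := by
          intro S hS
          have h2 : S ≠ S₀ := fun h3 => hSJ (h3 ▸ hS)
          have h3 := hI (by rw [hIJ]; exact mem_insert_of_mem hS : S ∈ I)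
          rw [mem_insert] at h3
          exact h3.resolve_left h2
        have h2 : sdf J = S₀ := by
          rw [hIJ, sdf_ins hSJ] at h0
          exact symmDiff_eq_bot.1 h0
        have h3 : sm c' I = (if b₀ = true then (1 : ZMod 2) else 0) + sm (cc D) J := by
          rw [hIJ, ← hsm J hSJ]
          unfold sm
          rw [sum_insert hSJ, hcS]
        have h4 : (if (!b₀) = true then (1 : ZMod 2) else 0) = sm (cc D) J := by
          rw [h3] at h1
          have h5 : ∀ (b : Bool) (z : ZMod 2), (if b = true then (1 : ZMod 2) else 0) + z ≠ 0 →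
            (if (!b) = true then (1 : ZMod 2) else 0) = z := by decide
          exact h5 _ _ h1
        have h5 := drv_sum hk hL hQ (cc D) J (fun S hS => cc_mem (hJG hS)) (!b₀) h4
        rw [h2] at h5
        have h6 : J.card ≤ D.card := (card_le_card hJG).trans card_image_le
        refine (drv_wk h5 ?_ (hQ1 _ (Subset.refl _))).le (by omega)
        intro p hp
        rw [mem_insert] at hp
        rcases hp with hp | hp
        · rw [hp]
          exact mem_insert_self _ _
        · rw [mem_image] at hp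
          obtain ⟨T, hT, hp⟩ := hp
          rw [← hp]
          exact mem_insert_of_mem (cc_mem (hJG hT))
      · exfalso
        refine hz ⟨I, ?_, h0, ?_⟩
        · intro S hS
          have h2 : S ≠ S₀ := fun h3 => hSI (h3 ▸ hS)
          have h3 := hI hS
          rw [mem_insert] at h3
          exact h3.resolve_left h2
        · rw [← hsm I hSI]
          exact h1
    · exfalso
      obtain ⟨z, hz2⟩ := inc (G := insert S₀ (D.image Prod.fst)) (c := c') (fun I hI h0 => by
        by_contra h1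
        exact hz' ⟨I, hI, h0, h1⟩)
      refine cc_false (z := z) hn (fun S hS => ?_) (hv z ?_)
      · rw [hz2 S (mem_insert_of_mem hS), hcG S fun h1 => hSG (h1 ▸ hS)]
      · rw [hz2 S₀ (mem_insert_self _ _), hcS]
  · push Not at hn
    obtain ⟨S, b, h1, h2⟩ := hn
    exact (drv_comp hk hL (mem_insert_of_mem h1) (mem_insert_of_mem h2) hQ1).le (by omega)

/-- a clause which implies a clause -/
private theorem drv_ent (hk : 3 ≤ k) (hL : Lst k A L0) {C D : Lc n}
    (hQ : ∀ E p q, E ⊆ insert p (insert q (C ∪ D)) → Q E) (hC : C ∈ L0) (hv : ∀ x, tL C x → tL D x) :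
    Drv k A Q L0 (1 + C.card * (2 * D.card + 5)) D := by
  have hQD : ∀ E p q, E ⊆ insert p (insert q D) → Q E := fun E p q hE =>
    hQ E p q (hE.trans (insert_subset_insert _ (insert_subset_insert _ subset_union_right)))
  have key : ∀ R : Lc n, R ⊆ C → Drv k A Q L0 (1 + R.card * (2 * D.card + 5)) ((C \ R) ∪ D) := by
    intro R
    induction R using Finset.induction_on with
    | empty =>
      intro _
      rw [card_empty, Nat.zero_mul, sdiff_empty]
      have h1 := drv_wk (C := C ∪ D) (drv_prem (Q := Q) hL hC) subset_union_left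
        (hQ _ (∅, false) (∅, false) ((subset_insert _ _).trans (subset_insert _ _)))
      exact h1.le (by omega)
    | insert p R hp ih =>
      intro hR
      have h1 := ih ((subset_insert _ _).trans hR)
      have hpC : p ∈ C := hR (mem_insert_self _ _)
      have h2 := drv_imp hk hL hQD (S₀ := p.1) (b₀ := p.2) (fun x hx => hv x ⟨p, hpC, hx⟩)
      have h3 := drv_res (C := (C \ insert p R) ∪ D) (S := p.1) (b := p.2) h1 h2 ?_ ?_
        (hQ _ (∅, false) (∅, false) ?_)
      · refine h3.le ?_
        rw [card_insert_of_notMem hp, Nat.add_mul]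
        omega
      · intro q hq
        rw [mem_union, mem_sdiff] at hq
        rw [mem_insert, mem_union, mem_sdiff, mem_insert]
        rcases hq with hq | hq
        · by_cases h4 : q = p
          · exact Or.inl h4
          · exact Or.inr (Or.inl ⟨hq.1, fun h5 => h5.elim h4 hq.2⟩)
        · exact Or.inr (Or.inr hq)
      · exact insert_subset_insert _ subset_union_right
      · refine Subset.trans ?_ ((subset_insert _ _).trans (subset_insert _ _))
        exact union_subset_union sdiff_subset (Subset.refl D)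
  have h1 := key C (Subset.refl C)
  rw [sdiff_self, bot_eq_empty, empty_union] at h1
  exact h1

private theorem px_three (x y z : Fin n → Bool) (S : Finset (Fin n)) :
    px (fun v => xor (xor (x v) (y v)) (z v)) S = xor (xor (px x S) (px y S)) (px z S) := by
  have h1 : sm (fun v => xor (xor (x v) (y v)) (z v)) S = sm x S + sm y S + sm z S := by
    unfold sm
    rw [← sum_add_distrib, ← sum_add_distrib]
    have h2 : ∀ a b c : Bool, (if xor (xor a b) c = true then (1 : ZMod 2) else 0) =
        (if a = true then (1 : ZMod 2) else 0) + (if b = true then (1 : ZMod 2) else 0) +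
          (if c = true then (1 : ZMod 2) else 0) := by decide
    exact sum_congr rfl fun v _ => h2 _ _ _
  rw [px_sm, px_sm, px_sm, px_sm] at h1
  revert h1
  cases px (fun v => xor (xor (x v) (y v)) (z v)) S <;> cases px x S <;> cases px y S <;> cases px z S <;>
    simp <;> decide

/-- two clauses which imply a clause -/
private theorem two_split {C1 C2 D : Lc n} (hv : ∀ x, tL C1 x → tL C2 x → tL D x) :
    (∀ x, tL C1 x → tL D x) ∨ (∀ x, tL C2 x → tL D x) ∨ ∃ S b, (∀ x, tL C1 x → tL (insert (S, b) D) x) ∧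
      ∀ x, tL C2 x → tL (insert (S, !b) D) x := by
  by_cases h1 : ∀ x, tL C1 x → tL D x
  · exact Or.inl h1
  by_cases h2 : ∀ x, tL C2 x → tL D x
  · exact Or.inr (Or.inl h2)
  push Not at h1 h2
  obtain ⟨x1, ⟨p, hp, hx1⟩, hd1⟩ := h1
  obtain ⟨x2, ⟨q, hq, hx2⟩, hd2⟩ := h2
  have c1 : ∀ y, ¬ tL D y → px y p.1 = p.2 → px y q.1 = q.2 → False := fun y hy e1 e2 =>
    hy (hv y ⟨p, hp, e1⟩ ⟨q, hq, e2⟩)
  have c2 : ∀ y, ¬ tL D y → px y p.1 ≠ p.2 → px y q.1 ≠ q.2 → False := by
    intro y hy e1 e2
    have f1 : px x1 q.1 ≠ q.2 := fun h => c1 x1 hd1 hx1 h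
    have f2 : px x2 p.1 ≠ p.2 := fun h => c1 x2 hd2 h hx2
    refine c1 (fun v => xor (xor (x1 v) (x2 v)) (y v)) ?_ ?_ ?_
    · rintro ⟨r, hr, h3⟩
      rw [px_three] at h3
      have g1 : px x1 r.1 ≠ r.2 := fun h => hd1 ⟨r, hr, h⟩
      have g2 : px x2 r.1 ≠ r.2 := fun h => hd2 ⟨r, hr, h⟩
      have g3 : px y r.1 ≠ r.2 := fun h => hy ⟨r, hr, h⟩
      revert h3 g1 g2 g3
      cases px x1 r.1 <;> cases px x2 r.1 <;> cases px y r.1 <;> cases r.2 <;> simp
    · rw [px_three, hx1]
      revert f2 e1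
      cases px x2 p.1 <;> cases px y p.1 <;> cases p.2 <;> simp
    · rw [px_three, hx2]
      revert f1 e2
      cases px x1 q.1 <;> cases px y q.1 <;> cases q.2 <;> simp
  refine Or.inr (Or.inr ⟨p.1, p.2, fun y hy => ?_, fun y hy => ?_⟩)
  · by_contra hcon
    have e1 : ¬ tL D y := fun ⟨r, hr, h⟩ => hcon ⟨r, mem_insert_of_mem hr, h⟩
    have e2 : px y p.1 ≠ p.2 := fun h => hcon ⟨(p.1, p.2), mem_insert_self _ _, h⟩
    have e3 : px y q.1 = q.2 := by
      by_contra h
      exact c2 y e1 e2 h
    exact e1 (hv y hy ⟨q, hq, e3⟩)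
  · by_contra hcon
    have e1 : ¬ tL D y := fun ⟨r, hr, h⟩ => hcon ⟨r, mem_insert_of_mem hr, h⟩
    have e2 : px y p.1 ≠ !p.2 := fun h => hcon ⟨(p.1, !p.2), mem_insert_self _ _, h⟩
    have e3 : px y p.1 = p.2 := by
      revert e2
      cases px y p.1 <;> cases p.2 <;> simp
    exact e1 (hv y ⟨p, hp, e3⟩ hy)

private theorem drv_two (hk : 3 ≤ k) (hL : Lst k A L0) {C1 C2 D : Lc n} {Z : ℕ}
    (hQ1 : ∀ E p q r, E ⊆ insert p (insert q (insert r (C1 ∪ D))) → Q E)
    (hQ2 : ∀ E p q r, E ⊆ insert p (insert q (insert r (C2 ∪ D))) → Q E)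
    (h1 : C1 ∈ L0) (h2 : C2 ∈ L0) (hZ1 : C1.card ≤ Z) (hZ2 : C2.card ≤ Z) (hZD : D.card ≤ Z)
    (hv : ∀ x, tL C1 x → tL C2 x → tL D x) : Drv k A Q L0 (3 + 2 * (Z * (2 * Z + 7))) D := by
  have hins : ∀ (C : Lc n) (r : Finset (Fin n) × Bool), C ∪ insert r D = insert r (C ∪ D) := fun C r =>
    union_insert r C D
  have e0 : ∀ a b : ℕ, a ≤ Z → b ≤ Z + 1 → a * (2 * b + 5) ≤ Z * (2 * Z + 7) := by
    intro a b ha hb
    exact Nat.mul_le_mul ha (by omega)
  have hQ1' : ∀ E p q, E ⊆ insert p (insert q (C1 ∪ D)) → Q E := fun E p q hE =>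
    hQ1 E p q q (hE.trans (insert_subset_insert _ (insert_subset_insert _ (subset_insert _ _))))
  have hQ2' : ∀ E p q, E ⊆ insert p (insert q (C2 ∪ D)) → Q E := fun E p q hE =>
    hQ2 E p q q (hE.trans (insert_subset_insert _ (insert_subset_insert _ (subset_insert _ _))))
  rcases two_split hv with h3 | h3 | ⟨S, b, h3, h4⟩
  · have h4 := drv_ent hk hL hQ1' h1 h3
    have h5 := e0 _ _ hZ1 (show D.card ≤ Z + 1 by omega)
    exact h4.le (by omega)
  · have h4 := drv_ent hk hL hQ2' h2 h3
    have h5 := e0 _ _ hZ2 (show D.card ≤ Z + 1 by omega)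
    exact h4.le (by omega)
  · have a1 := drv_ent hk hL (fun E p q hE => hQ1 E p q (S, b) (by rw [← hins]; exact hE)) h1 h3
    have a2 := drv_ent hk hL (fun E p q hE => hQ2 E p q (S, !b) (by rw [← hins]; exact hE)) h2 h4
    have a3 := drv_res (C := D) a1 a2 (Subset.refl _) (Subset.refl _)
      (hQ1' _ (∅, false) (∅, false) (subset_union_right.trans ((subset_insert _ _).trans (subset_insert _ _))))
    have h5 := e0 _ _ hZ1 (show (insert (S, b) D).card ≤ Z + 1 by
      have := card_insert_le (S, b) D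
      omega)
    have h6 := e0 _ _ hZ2 (show (insert (S, !b) D).card ≤ Z + 1 by
      have := card_insert_le (S, !b) D
      omega)
    exact a3.le (by omega)

end drv

/-- lists as derivations -/
private theorem lst_der {k : ℕ} (φ : Fin m → Cl n) {L : List (Lc n)}
    (h : Lst k (fun C => ∃ j, C = univ.image fun a => ({(φ j).1 a}, (φ j).2 a)) L) :
    ∃ C : Fin L.length → Lc n, DerR k φ C ∧ ∀ D, D ∈ L ↔ ∃ i, C i = D := by
  induction L with
  | nil =>
    refine ⟨fun i => i.elim0, fun i => i.elim0, fun D => ⟨fun h => absurd h List.not_mem_nil, ?_⟩⟩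
    rintro ⟨i, _⟩
    exact i.elim0
  | cons D L ih =>
    obtain ⟨C, hC, hm⟩ := ih h.1
    refine ⟨(Fin.snoc C D : Fin (L.length + 1) → Lc n), fun i => ?_, fun E => ?_⟩
    · refine Fin.lastCases ?_ (fun i => ?_) i
      · rcases h.2 with h1 | h1 | ⟨E, F, S, h1, h2, h3, h4⟩
        · rw [Fin.snoc_last]
          exact Or.inl h1
        · rw [Fin.snoc_last]
          exact Or.inr (Or.inl h1)
        · obtain ⟨i, hi⟩ := (hm E).1 h1
          obtain ⟨j, hj⟩ := (hm F).1 h2
          refine Or.inr (Or.inr ⟨i.castSucc, j.castSucc, S, Fin.castSucc_lt_last i, Fin.castSucc_lt_last j, ?_, ?_⟩)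
          · rw [Fin.snoc_castSucc, Fin.snoc_last, hi]
            exact h3
          · rw [Fin.snoc_castSucc, Fin.snoc_last, hj]
            exact h4
      · rcases hC i with h1 | h1 | ⟨j, l, S, h1, h2, h3, h4⟩
        · rw [Fin.snoc_castSucc]
          exact Or.inl h1
        · rw [Fin.snoc_castSucc]
          exact Or.inr (Or.inl h1)
        · refine Or.inr (Or.inr ⟨j.castSucc, l.castSucc, S, h1, h2, ?_, ?_⟩)
          · rw [Fin.snoc_castSucc, Fin.snoc_castSucc]
            exact h3
          · rw [Fin.snoc_castSucc, Fin.snoc_castSucc]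
            exact h4
    · rw [List.mem_cons, hm]
      constructor
      · rintro (h1 | ⟨i, hi⟩)
        · exact ⟨Fin.last _, by rw [Fin.snoc_last, h1]⟩
        · exact ⟨i.castSucc, by rw [Fin.snoc_castSucc, hi]⟩
      · rintro ⟨i, hi⟩
        revert hi
        refine Fin.lastCases (fun hi => ?_) (fun i hi => ?_) i
        · rw [Fin.snoc_last] at hi
          exact Or.inl hi.symm
        · rw [Fin.snoc_castSucc] at hi
          exact Or.inr ⟨i, hi⟩

/-- all lines of a semantic derivation -/
private theorem sem_lst {k N Z : ℕ} (hk : 3 ≤ k) (φ : Fin m → Cl n) {C : Fin N → Lc n} (h : DerL φ C) {Q : Lc n → Prop}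
    (hQ : ∀ i j E p q r, E ⊆ insert p (insert q (insert r (C i ∪ C j))) → Q E) (hZ : ∀ i, (C i).card ≤ Z) (t : ℕ)
    (ht : t ≤ N) : ∃ L : List (Lc n), L.length ≤ t * (3 + 2 * (Z * (2 * Z + 7))) ∧
      Lst k (fun C => ∃ j, C = univ.image fun a => ({(φ j).1 a}, (φ j).2 a)) L ∧ (∀ D ∈ L, Q D) ∧
      ∀ i : Fin N, i.1 < t → C i ∈ L := by
  induction t with
  | zero => exact ⟨[], Nat.zero_le _, trivial, fun _ h => absurd h List.not_mem_nil, fun i hi => absurd hi (Nat.not_lt_zero _)⟩
  | succ t ih =>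
    obtain ⟨L0, h1, h2, h3, h4⟩ := ih (by omega)
    obtain ⟨i, hi⟩ : ∃ i : Fin N, i = ⟨t, by omega⟩ := ⟨_, rfl⟩
    have hit : i.1 = t := by rw [hi]
    have hQi : ∀ E p q, E ⊆ insert p (insert q (C i)) → Q E := fun E p q hE =>
      hQ i i E p q q (by rw [union_self]; exact hE.trans (insert_subset_insert _ (insert_subset_insert _ (subset_insert _ _))))
    have hP : 1 ≤ 3 + 2 * (Z * (2 * Z + 7)) := by omega
    have h5 : Drv k (fun C => ∃ j, C = univ.image fun a => ({(φ j).1 a}, (φ j).2 a)) Q L0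
        (3 + 2 * (Z * (2 * Z + 7))) (C i) := by
      rcases h i with h6 | h6 | ⟨j, l, h6, h7, h8⟩
      · refine ⟨[C i], hP, ⟨h2, Or.inl h6⟩, fun D hD => ?_, List.mem_cons_self⟩
        rw [List.mem_singleton] at hD
        rw [hD]
        exact hQi _ (∅, false) (∅, false) ((subset_insert _ _).trans (subset_insert _ _))
      · have h7 := drv_valid hk h2 hQi h6
        refine h7.le ?_
        have h8 := hZ i
        nlinarith
      · exact drv_two hk h2 (hQ j i) (hQ l i) (h4 j (by have : j.1 < i.1 := h6; omega))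
          (h4 l (by have : l.1 < i.1 := h7; omega)) (hZ j) (hZ l) (hZ i) h8
    obtain ⟨L, a1, a2, a3, a4⟩ := h5
    refine ⟨L ++ L0, ?_, a2, fun D hD => ?_, fun j hj => ?_⟩
    · rw [List.length_append, Nat.succ_mul]
      omega
    · rw [List.mem_append] at hD
      exact hD.elim (a3 D) (h3 D)
    · rcases Nat.lt_or_ge j.1 t with h6 | h6
      · exact List.mem_append.2 (Or.inr (h4 j h6))
      · have h7 : j = i := by
          apply Fin.ext
          omega
        rw [h7]
        exact a4

/-- semantic derivations have at least two lines -/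
theorem derl_two {N : ℕ} {φ : Fin m → Cl n} {C : Fin N → Lc n} (h : DerL φ C) {i₀ : Fin N} (h0 : ∀ x, ¬ tL (C i₀) x) :
    2 ≤ N := by
  by_contra hN
  rcases h i₀ with ⟨j, h1⟩ | h1 | ⟨j, l, h1, h2, h3⟩
  · refine h0 (fun _ => (φ j).2 0) ⟨({(φ j).1 0}, (φ j).2 0), ?_, ?_⟩
    · rw [h1]
      exact mem_image_of_mem _ (mem_univ _)
    · rw [px_single]
  · exact h0 (fun _ => false) (h1 _)
  · have := j.2
    have := i₀.2
    have h4 : j.1 < i₀.1 := h1
    omega

/-- the simulation -/
theorem sem_der {k N Z M : ℕ} (φ : Fin m → Cl n) {C : Fin N → Lc n} (h : DerL φ C) (hZ : ∀ i, (C i).card ≤ Z)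
    (hM : ∀ i, ((C i).filter fun p => k < p.1.card).card ≤ M) {i₀ : Fin N} (h0 : ∀ x, ¬ tL (C i₀) x) :
    ∃ N' ≤ (N + 1) * (3 + 2 * (Z * (2 * Z + 7))), ∃ C' : Fin N' → Lc n, DerR 3 φ C' ∧ (∃ i, C' i = ∅) ∧
      ∀ i, ((C' i).filter fun p => k < p.1.card).card ≤ 2 * M + 3 := by
  have hder : DerL φ (Fin.snoc C ∅ : Fin (N + 1) → Lc n) := by
    intro i
    refine Fin.lastCases ?_ (fun i => ?_) i
    · refine Or.inr (Or.inr ⟨i₀.castSucc, i₀.castSucc, Fin.castSucc_lt_last _, Fin.castSucc_lt_last _, fun x hx => ?_⟩)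
      rw [Fin.snoc_castSucc] at hx
      exact absurd hx (h0 x)
    · rcases h i with h1 | h1 | ⟨j, l, h1, h2, h3⟩
      · rw [Fin.snoc_castSucc]
        exact Or.inl h1
      · rw [Fin.snoc_castSucc]
        exact Or.inr (Or.inl h1)
      · refine Or.inr (Or.inr ⟨j.castSucc, l.castSucc, h1, h2, ?_⟩)
        rw [Fin.snoc_castSucc, Fin.snoc_castSucc, Fin.snoc_castSucc]
        exact h3
  have hM' : ∀ i, (((Fin.snoc C ∅ : Fin (N + 1) → Lc n) i).filter fun p => k < p.1.card).card ≤ M := by
    intro i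
    refine Fin.lastCases ?_ (fun i => ?_) i
    · rw [Fin.snoc_last, filter_empty, card_empty]
      exact Nat.zero_le _
    · rw [Fin.snoc_castSucc]
      exact hM i
  have hZ' : ∀ i, ((Fin.snoc C ∅ : Fin (N + 1) → Lc n) i).card ≤ Z := by
    intro i
    refine Fin.lastCases ?_ (fun i => ?_) i
    · rw [Fin.snoc_last, card_empty]
      exact Nat.zero_le _
    · rw [Fin.snoc_castSucc]
      exact hZ i
  obtain ⟨L, h1, h2, h3, h4⟩ := sem_lst (le_refl 3) φ hder
    (Q := fun E => (E.filter fun p => k < p.1.card).card ≤ 2 * M + 3) (fun i j E p q r hE => by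
      have e1 : (E.filter fun p => k < p.1.card) ⊆ insert p (insert q (insert r
          ((((Fin.snoc C ∅ : Fin (N + 1) → Lc n) i).filter fun p => k < p.1.card) ∪
            (((Fin.snoc C ∅ : Fin (N + 1) → Lc n) j).filter fun p => k < p.1.card)))) := by
        intro s hs
        rw [mem_filter] at hs
        have h5 := hE hs.1
        simp only [mem_insert, mem_union, mem_filter] at h5 ⊢
        rcases h5 with h5 | h5 | h5 | h5 | h5
        · exact Or.inl h5
        · exact Or.inr (Or.inl h5)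
        · exact Or.inr (Or.inr (Or.inl h5))
        · exact Or.inr (Or.inr (Or.inr (Or.inl ⟨h5, hs.2⟩)))
        · exact Or.inr (Or.inr (Or.inr (Or.inr ⟨h5, hs.2⟩)))
      have e2 := card_le_card e1
      have e3 := hM' i
      have e4 := hM' j
      refine e2.trans ((card_insert_le _ _).trans ?_)
      have e5 := (card_insert_le q (insert r
          ((((Fin.snoc C ∅ : Fin (N + 1) → Lc n) i).filter fun p => k < p.1.card) ∪
            (((Fin.snoc C ∅ : Fin (N + 1) → Lc n) j).filter fun p => k < p.1.card))))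
      have e6 := (card_insert_le r
          ((((Fin.snoc C ∅ : Fin (N + 1) → Lc n) i).filter fun p => k < p.1.card) ∪
            (((Fin.snoc C ∅ : Fin (N + 1) → Lc n) j).filter fun p => k < p.1.card)))
      have e7 := card_union_le (((Fin.snoc C ∅ : Fin (N + 1) → Lc n) i).filter fun p => k < p.1.card)
            (((Fin.snoc C ∅ : Fin (N + 1) → Lc n) j).filter fun p => k < p.1.card)
      omega) hZ' (N + 1) le_rfl
  obtain ⟨C', h5, h6⟩ := lst_der φ h2
  refine ⟨L.length, h1, C', h5, ?_, fun i => h3 _ ((h6 _).2 ⟨i, rfl⟩)⟩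
  refine (h6 ∅).1 ?_
  have h7 := h4 (Fin.last N) (Nat.lt_succ_self N)
  rw [Fin.snoc_last] at h7
  exact h7

end Pool.H86.XP
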