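import Mathlib
import Pool.Agent.H86.XP.Fin
import Pool.Agent.H86.XP.Few
import Pool.Agent.H86.XP.Rsx
import Pool.Agent.H86.XP.Lgb
import Pool.Agent.H86.XP.Sem

set_option autoImplicit false
set_option linter.unusedSectionVars false

/-!
# Module COR (THEOREM LP): lines of bounded alternation and linear length, resolution over parities
-/

namespace Pool.H86.XP

open Finset Classical Pool.Agent.H3.Frg Pool.Agent.H3.Frg2 Pool.Agent.H3.Frg4 Pool.Agent.H55.QT Pool.H6.LD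

private theorem pc_mono {V : Type} {k k' : ℕ} (hk : k ≤ k') {F : Fm V} (h : Pc k F) : Pc k' F :=
  ⟨h.1.trans hk, h.2.trans hk⟩

theorem derx_mono {n k k' N : ℕ} (hk : k ≤ k') {Sch : Set (Fm ℕ)} {Γ Γ' : Set (Fx n)} (hΓ : Γ ⊆ Γ')
    {pf : Fin N → Fx n} (h : DerX k Sch Γ pf) : DerX k' Sch Γ' pf := by
  intro i
  rcases h i with h1 | h1 | h1 | ⟨j, l, h1, h2, h3, h4, h5, h6⟩
  · exact Or.inl (hΓ h1)
  · exact Or.inr (Or.inl h1)
  · exact Or.inr (Or.inr (Or.inl h1))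
  · exact Or.inr (Or.inr (Or.inr ⟨j, l, h1, h2, pc_mono hk h3, pc_mono hk h4, pc_mono hk h5, h6⟩))

theorem axv_mono {n m a b c d : ℕ} (hab : a ≤ b) (hcd : c ≤ d) (φ : Fin m → Cl n) :
    AxX φ a ∪ ValX n c ⊆ AxX φ b ∪ ValX n d := by
  intro F hF
  rcases hF with hF | hF
  · exact Or.inl ⟨hF.1.trans hab, hF.2⟩
  · exact Or.inr ⟨hF.1.trans hcd, hF.2⟩

private theorem two_lines {V : Type} {N : ℕ} {pf : Fin N → Fm V} (hc : ∃ i j, pf i = Fm.neg (pf j)) : 2 ≤ N := by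
  obtain ⟨i, j, hij⟩ := hc
  by_contra h1
  have h2 : i = j := by
    apply Fin.ext
    have := i.2
    have := j.2
    omega
  rw [h2] at hij
  have h3 := congrArg Fm.len hij
  simp [Fm.len] at h3

private theorem small_n {n T N : ℕ} (hn : n ≤ T) (hN : 2 ≤ N) : (2 : ℝ) ^ ((n : ℝ) / T) ≤ N := by
  have h1 : (n : ℝ) / T ≤ 1 := by
    rcases Nat.eq_zero_or_pos T with h0 | h0
    · rw [h0, Nat.cast_zero, div_zero]
      norm_num
    · rw [div_le_one (by exact_mod_cast h0)]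
      exact_mod_cast hn
  calc (2 : ℝ) ^ ((n : ℝ) / T) ≤ 2 ^ (1 : ℝ) := Real.rpow_le_rpow_of_exponent_le (by norm_num) h1
    _ = 2 := Real.rpow_one 2
    _ ≤ N := by exact_mod_cast hN

private theorem pow_anti {n a b : ℕ} (ha : 0 < a) (hab : a ≤ b) : (2 : ℝ) ^ ((n : ℝ) / b) ≤ 2 ^ ((n : ℝ) / a) := by
  refine Real.rpow_le_rpow_of_exponent_le (by norm_num) ?_
  exact div_le_div_of_nonneg_left (Nat.cast_nonneg _) (by exact_mod_cast ha) (by exact_mod_cast hab)

/-- lines of bounded alternation and linear length satisfy the hypotheses of the general theorem -/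
private theorem line_ok {n k c k' T1 Ta : ℕ} (h1 : 2 * k * c + k ≤ k') (h2 : c * T1 ≤ k') (hT1 : 0 < T1) (hTa : 0 < Ta)
    (hn : Ta ≤ n) {F : Fx n} (hF : alt F true ≤ k ∧ alt F false ≤ k) (hl : lx F ≤ c * n) :
    Fwx k' (n / Ta) (k' * n) F ∧ (sums k' F).card ≤ 2 ^ (n / T1) := by
  obtain ⟨e1, e2⟩ := fwx_leaves k c k' n h1 F hF hl
  refine ⟨⟨e1.trans ?_, e2⟩, (sums_card _ _).trans (Nat.pow_le_pow_right (by norm_num) ?_)⟩
  · rw [Nat.le_div_iff_mul_le hTa]
    omega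
  · rw [Nat.le_div_iff_mul_le hT1]
    have e3 := (lg_count k' F).trans hl
    rcases Nat.eq_zero_or_pos c with h0 | h0
    · rw [h0, Nat.zero_mul] at hl
      have := lx_pos F
      omega
    · have e4 : (lg k' F).card * (c * T1) ≤ (lg k' F).card * (k' + 1) := Nat.mul_le_mul_left _ (by omega)
      have e5 : c * ((lg k' F).card * T1) ≤ c * n := by
        calc c * ((lg k' F).card * T1) = (lg k' F).card * (c * T1) := by ring
          _ ≤ c * n := e4.trans e3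
      exact Nat.le_of_mul_le_mul_left e5 h0

/-- polynomials and exponential functions -/
private theorem grow (k a : ℕ) (ha : 0 < a) : ∃ n1 : ℕ, ∀ n : ℕ, n1 ≤ n →
    ((163 * (n + 1) ^ (2 * k + 2) : ℕ) : ℝ) ≤ 2 ^ ((n : ℝ) / a) := by
  have har : (0 : ℝ) < a := by exact_mod_cast ha
  obtain ⟨r, hr⟩ : ∃ r : ℝ, r = 2 ^ (-(1 / (a : ℝ))) := ⟨_, rfl⟩
  have hr0 : 0 < r := by
    rw [hr]
    exact Real.rpow_pos_of_pos (by norm_num) _
  have hr1 : r < 1 := by
    rw [hr]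
    exact Real.rpow_lt_one_of_one_lt_of_neg (by norm_num) (by
      have : 0 < 1 / (a : ℝ) := by positivity
      linarith)
  have hrn : ∀ n : ℕ, r ^ n = 2 ^ (-((n : ℝ) / a)) := by
    intro n
    rw [hr, ← Real.rpow_natCast, ← Real.rpow_mul (by norm_num)]
    congr 1
    field_simp
  have h1 := tendsto_pow_const_mul_const_pow_of_abs_lt_one (2 * k + 2) (r := r) (by
    rw [abs_of_pos hr0]
    exact hr1)
  have h2 := h1.eventually (gt_mem_nhds (show (0 : ℝ) < r / 163 by positivity))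
  obtain ⟨L0, hL0⟩ := Filter.eventually_atTop.1 h2
  refine ⟨L0, fun n hn => ?_⟩
  have h3 := hL0 (n + 1) (by omega)
  rw [pow_succ r n, hrn n] at h3
  have h4 : (2 : ℝ) ^ (-((n : ℝ) / a)) * 2 ^ ((n : ℝ) / a) = 1 := by
    rw [← Real.rpow_add (by norm_num), neg_add_cancel, Real.rpow_zero]
  have h5 : (0 : ℝ) < 2 ^ ((n : ℝ) / a) := Real.rpow_pos_of_pos (by norm_num) _
  push_cast at h3 ⊢
  obtain ⟨P, hP⟩ : ∃ P : ℝ, P = ((n : ℝ) + 1) ^ (2 * k + 2) := ⟨_, rfl⟩
  rw [← hP] at h3 ⊢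
  obtain ⟨u, hu⟩ : ∃ u : ℝ, u = 2 ^ (-((n : ℝ) / a)) := ⟨_, rfl⟩
  obtain ⟨w, hw⟩ : ∃ w : ℝ, w = 2 ^ ((n : ℝ) / a) := ⟨_, rfl⟩
  rw [← hu] at h3 h4
  rw [← hw] at h4 h5 ⊢
  have h6 : 163 * P * u * r < r := by linarith
  have h7 : 163 * P * u < 1 := by
    by_contra h8
    push Not at h8
    have := mul_le_mul_of_nonneg_right h8 hr0.le
    linarith
  have h8 : 163 * P = 163 * P * u * w := by
    rw [mul_assoc, h4, mul_one]
  rw [h8]
  calc 163 * P * u * w ≤ 1 * w := mul_le_mul_of_nonneg_right h7.le h5.le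
    _ = w := one_mul w

theorem lpc {Δ : ℕ} (hΔ : 6 ≤ Δ) : ∃ T1 : ℕ, 0 < T1 ∧ ∃ T : ℕ → ℕ, (∀ k, 0 < T k) ∧ ∀ e : ℝ, 0 < e →
    ∃ n0 : ℕ, ∀ n : ℕ, n0 ≤ n →
      ((univ.filter fun φ : Fin (Δ * n) → Cl n => ¬ (¬ Sat φ ∧
        (∀ (k : ℕ) (Sch : Set (Fm ℕ)), (∀ ψ ∈ Sch, ψ.len ≤ k ∧ ∀ x : ℕ → Bool, ψ.eval x = true) →
          ∀ (N : ℕ) (pf : Fin N → Fx n), DerX k Sch (AxX φ (k + 3) ∪ ValX n k) pf →
          (∃ i j, pf i = Fm.neg (pf j)) →
          ((∀ i, alt (pf i) true ≤ k ∧ alt (pf i) false ≤ k ∧ lx (pf i) ≤ k * n) ∨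
            ∀ i, Fwx k (n / T k) (k * n) (pf i) ∧ (sums k (pf i)).card ≤ 2 ^ (n / T1)) →
          (2 : ℝ) ^ ((n : ℝ) / T k) ≤ N) ∧
        ∀ (k N : ℕ) (C : Fin N → Lc n), DerL φ C → (∃ i, ∀ x, ¬ tL (C i) x) →
          (∀ i, ((C i).filter fun p => k < p.1.card).card ≤ n / T1) →
          (2 : ℝ) ^ ((n : ℝ) / T k) ≤ N)).card : ℝ) ≤
        e * Fintype.card (Fin (Δ * n) → Cl n) := by
  obtain ⟨T1, hT1, Ta, hTa, hmain⟩ := lpm hΔ
  obtain ⟨g, hg⟩ : ∃ g : ℕ → ℕ, g = fun k => 2 * k * k + k + k * T1 := ⟨_, rfl⟩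
  obtain ⟨h, hh⟩ : ∃ h : ℕ → ℕ, h = fun k => k + 4 := ⟨_, rfl⟩
  choose n1 hn1 using fun k => grow k (2 * Ta (h k)) (by have := hTa (h k); omega)
  choose n2 hn2 using log_small
  obtain ⟨T, hT⟩ : ∃ T : ℕ → ℕ, T = fun k => Ta k + Ta (g k) + 2 * Ta (h k) + n1 k + n2 k + 5 * T1 := ⟨_, rfl⟩
  have hT' : ∀ k, T k = Ta k + Ta (g k) + 2 * Ta (h k) + n1 k + n2 k + 5 * T1 := fun k => by rw [hT]
  refine ⟨5 * T1, by omega, T, fun k => ?_, fun e he => ?_⟩
  · rw [hT' k]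
    omega
  obtain ⟨n0, hn0⟩ := hmain e he
  refine ⟨n0 + 1, fun n hn => le_trans ?_ (hn0 n (by omega))⟩
  have hnn : 1 ≤ n := by omega
  have hT5 : n / (5 * T1) ≤ n / T1 := Nat.div_le_div_left (by omega) hT1
  have hsub : (univ.filter fun φ : Fin (Δ * n) → Cl n => ¬ (¬ Sat φ ∧
        (∀ (k : ℕ) (Sch : Set (Fm ℕ)), (∀ ψ ∈ Sch, ψ.len ≤ k ∧ ∀ x : ℕ → Bool, ψ.eval x = true) →
          ∀ (N : ℕ) (pf : Fin N → Fx n), DerX k Sch (AxX φ (k + 3) ∪ ValX n k) pf →
          (∃ i j, pf i = Fm.neg (pf j)) →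
          ((∀ i, alt (pf i) true ≤ k ∧ alt (pf i) false ≤ k ∧ lx (pf i) ≤ k * n) ∨
            ∀ i, Fwx k (n / T k) (k * n) (pf i) ∧ (sums k (pf i)).card ≤ 2 ^ (n / (5 * T1))) →
          (2 : ℝ) ^ ((n : ℝ) / T k) ≤ N) ∧
        ∀ (k N : ℕ) (C : Fin N → Lc n), DerL φ C → (∃ i, ∀ x, ¬ tL (C i) x) →
          (∀ i, ((C i).filter fun p => k < p.1.card).card ≤ n / (5 * T1)) →
          (2 : ℝ) ^ ((n : ℝ) / T k) ≤ N)) ⊆
      (univ.filter fun φ : Fin (Δ * n) → Cl n => ¬ (¬ Sat φ ∧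
        ∀ (k : ℕ) (Sch : Set (Fm ℕ)), (∀ ψ ∈ Sch, ψ.len ≤ k ∧ ∀ x : ℕ → Bool, ψ.eval x = true) →
        ∀ (N : ℕ) (pf : Fin N → Fx n), DerX k Sch (AxX φ (k + 3) ∪ ValX n k) pf →
          (∃ i j, pf i = Fm.neg (pf j)) →
          (∀ i, Fwx k (n / Ta k) (k * n) (pf i) ∧ (sums k (pf i)).card ≤ 2 ^ (n / T1)) →
          (2 : ℝ) ^ ((n : ℝ) / Ta k) ≤ N)) := by
    intro φ hφ
    rw [mem_filter] at hφ ⊢
    refine ⟨hφ.1, fun hcon => hφ.2 ⟨hcon.1, ?_, ?_⟩⟩
    · intro k Sch hSch N pf hpf hij hlines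
      rcases hlines with hlines | hlines
      · refine le_trans (pow_anti (hTa (g k)) (by rw [hT' k]; omega)) ?_
        rcases Nat.lt_or_ge n (Ta (g k)) with hlt | hge
        · exact small_n hlt.le (two_lines hij)
        · have hgk : k ≤ g k := by
            rw [hg]
            show k ≤ 2 * k * k + k + k * T1
            omega
          refine hcon.2 (g k) Sch (fun ψ hψ => ⟨(hSch ψ hψ).1.trans hgk, (hSch ψ hψ).2⟩) N pf
            (derx_mono hgk (axv_mono (by omega) hgk φ) hpf) hij fun i => ?_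
          refine line_ok (k := k) (c := k) ?_ ?_ hT1 (hTa _) hge ⟨(hlines i).1, (hlines i).2.1⟩ (hlines i).2.2
          · rw [hg]
            show 2 * k * k + k ≤ 2 * k * k + k + k * T1
            omega
          · rw [hg]
            show k * T1 ≤ 2 * k * k + k + k * T1
            omega
      · refine le_trans (pow_anti (hTa k) (by rw [hT' k]; omega)) ?_
        refine hcon.2 k Sch hSch N pf hpf hij fun i => ⟨⟨(hlines i).1.1.trans ?_, (hlines i).1.2⟩, (hlines i).2.trans (Nat.pow_le_pow_right (by norm_num) hT5)⟩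
        exact Nat.div_le_div_left (by rw [hT' k]; omega) (hTa k)
    · intro k N C hC hE hlong
      obtain ⟨i₀, hi₀⟩ := hE
      have hN : 2 ≤ N := derl_two hC hi₀
      rcases Nat.lt_or_ge n (T k) with hlt | hge
      · exact small_n hlt.le hN
      rw [hT' k] at hge
      have hkey1 : 2 * (n / (5 * T1)) + 3 ≤ n / T1 := by
        have e1 : 1 ≤ n / (5 * T1) := by
          rw [Nat.le_div_iff_mul_le (by omega)]
          omega
        have e2 : 5 * (n / (5 * T1)) ≤ n / T1 := by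
          rw [Nat.le_div_iff_mul_le hT1]
          calc 5 * (n / (5 * T1)) * T1 = n / (5 * T1) * (5 * T1) := by ring
            _ ≤ n := Nat.div_mul_le_self _ _
        omega
      have hnT : n / T1 ≤ n := Nat.div_le_self _ _
      have hnT5 : n / (5 * T1) ≤ n := Nat.div_le_self _ _
      obtain ⟨N', hN', C', hC', hE', hlong'⟩ := sem_der (k := k) (Z := 2 * (n + 1) ^ k + n) φ hC
        (fun i => fc_card (C i) (hlong i) hnT5) hlong hi₀
      obtain ⟨j₀, hj₀⟩ := hE'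
      have hder := derx_mono (le_refl (h k)) (axv_mono (show h k ≤ h k + 3 by omega) le_rfl φ)
        (rsx_der (k' := h k) (by rw [hh]; show 3 + 1 ≤ k + 4; omega) (by rw [hh]; show 4 ≤ k + 4; omega) hC')
      have hkey := hcon.2 (h k) ∅ (fun ψ hψ => absurd hψ (Set.notMem_empty ψ)) (N' + 1) _ hder (by
        refine ⟨0, j₀.succ, ?_⟩
        rw [Fin.cons_zero, Fin.cons_succ, hj₀, fc_empty]) (by
        intro i
        have e1 : 1 ≤ n / Ta (h k) := by
          rw [Nat.le_div_iff_mul_le (hTa (h k))]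
          omega
        have e2 : 1 ≤ h k := by
          rw [hh]
          show 1 ≤ k + 4
          omega
        have e3 : k ≤ h k := by
          rw [hh]
          show k ≤ k + 4
          omega
        refine Fin.cases ?_ (fun i => ?_) i
        · rw [Fin.cons_zero]
          have hP : Pc (h k) (Fm.neg (Fm.var ∅) : Fx n) := ⟨Nat.zero_le _, Nat.zero_le _⟩
          refine ⟨⟨?_, ?_⟩, (sums_card _ _).trans (Nat.pow_le_pow_right (by norm_num) ?_)⟩
          · rw [ps_piece hP, card_singleton]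
            exact e1
          · rw [ps_piece hP, sum_singleton]
            exact Nat.zero_le _
          · have e4 : lg (h k) (Fm.neg (Fm.var ∅) : Fx n) = ∅ := by
              rw [← not_nonempty_iff_eq_empty]
              rintro ⟨S, hS⟩
              obtain ⟨e5, e6⟩ := mem_lg.1 hS
              have e7 : S = ∅ := mem_singleton.1 e5
              rw [e7, card_empty] at e6
              omega
            rw [e4, card_empty]
            exact Nat.zero_le _
        · rw [Fin.cons_succ]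
          have e4 := fc_fwx (k' := h k) (M := n / T1) e2 (C' i) ((hlong' i).trans hkey1) hnT
            (fun s hs => hn2 k n (by omega) s hs) e3
          exact ⟨⟨e4.1.1.trans e1, e4.1.2⟩, (sums_card _ _).trans (Nat.pow_le_pow_right (by norm_num) e4.2)⟩)
      -- the number of lines
      obtain ⟨Z, hZ⟩ : ∃ Z, Z = 2 * (n + 1) ^ k + n := ⟨_, rfl⟩
      obtain ⟨Y, hY⟩ : ∃ Y, Y = (n + 1) ^ (k + 1) := ⟨_, rfl⟩
      have hY1 : 1 ≤ Y := by
        rw [hY]
        exact Nat.one_le_pow _ _ (by omega)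
      have hZY : Z ≤ 3 * Y := by
        rw [hZ, hY, pow_succ]
        have e1 : 1 ≤ (n + 1) ^ k := Nat.one_le_pow _ _ (by omega)
        have e2 : (n + 1) ^ k * 1 ≤ (n + 1) ^ k * (n + 1) := Nat.mul_le_mul_left _ (by omega)
        have e3 : 1 * (n + 1) ≤ (n + 1) ^ k * (n + 1) := Nat.mul_le_mul_right _ e1
        omega
      have hYY : Y * Y = (n + 1) ^ (2 * k + 2) := by
        rw [hY, ← pow_add]
        congr 1
        omega
      rw [← hZ] at hN'
      have hP : 2 * (3 + 2 * (Z * (2 * Z + 7))) + 1 ≤ 163 * (Y * Y) := by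
        have e1 : Z * (2 * Z + 7) ≤ 3 * Y * (2 * (3 * Y) + 7) := Nat.mul_le_mul hZY (by omega)
        nlinarith
      have hN2 : N' + 1 ≤ N * (163 * (Y * Y)) := by
        have e1 : (N + 1) * (3 + 2 * (Z * (2 * Z + 7))) ≤ (2 * N) * (3 + 2 * (Z * (2 * Z + 7))) :=
          Nat.mul_le_mul_right _ (by omega)
        have e2 : N * (2 * (3 + 2 * (Z * (2 * Z + 7))) + 1) ≤ N * (163 * (Y * Y)) := Nat.mul_le_mul_left _ hP
        have e3 : N * (2 * (3 + 2 * (Z * (2 * Z + 7))) + 1) = (2 * N) * (3 + 2 * (Z * (2 * Z + 7))) + N := by ring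
        omega
      have hgr := hn1 k n (by omega)
      rw [← hYY] at hgr
      have hTr : (0 : ℝ) < Ta (h k) := by exact_mod_cast hTa (h k)
      obtain ⟨z, hz⟩ : ∃ z : ℝ, z = 2 ^ ((n : ℝ) / (2 * Ta (h k) : ℕ)) := ⟨_, rfl⟩
      have hz0 : 0 < z := by
        rw [hz]
        exact Real.rpow_pos_of_pos (by norm_num) _
      have hzz : z * z = 2 ^ ((n : ℝ) / Ta (h k)) := by
        rw [hz, ← Real.rpow_add (by norm_num)]
        congr 1
        push_cast
        field_simp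
        ring
      rw [← hzz] at hkey
      rw [← hz] at hgr
      refine le_trans (pow_anti (a := 2 * Ta (h k)) (by have := hTa (h k); omega) (by rw [hT' k]; omega)) ?_
      rw [← hz]
      have hN3 : ((N' + 1 : ℕ) : ℝ) ≤ N * z := by
        have e1 : ((N' + 1 : ℕ) : ℝ) ≤ ((N * (163 * (Y * Y)) : ℕ) : ℝ) := by exact_mod_cast hN2
        have e2 : ((N * (163 * (Y * Y)) : ℕ) : ℝ) = N * ((163 * (Y * Y) : ℕ) : ℝ) := by push_cast; ring
        rw [e2] at e1
        exact e1.trans (mul_le_mul_of_nonneg_left hgr (Nat.cast_nonneg _))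
      have hN4 : z * z ≤ N * z := hkey.trans hN3
      exact le_of_mul_le_mul_right hN4 hz0
  exact_mod_cast card_le_card hsub

end Pool.H86.XP
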