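import Mathlib
import Pool.Agent.H86.XP.Wgt

set_option autoImplicit false
set_option linter.unusedSectionVars false

/-!
# Module CNS (THEOREM LP): truth is consistent and compositional
-/

namespace Pool.H86.XP

open Finset Classical Pool.Agent.H3.Frg Pool.Agent.H3.Frg2 Pool.Agent.H3.Frg4 Pool.Agent.H55.QT Pool.H6.LD

variable {n K T d s : ℕ} {W : Wd n} {c : Finset (Fin n) → Bool} {thr : ℕ → ℕ}

private theorem alt_sub {V : Type} {A B : Fm V} {d : ℕ} (h : alt (.imp A B) true ≤ d) :
    (alt A true ≤ d ∧ alt A false ≤ d) ∧ alt B true ≤ d ∧ alt B false ≤ d := by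
  have h1 := alt_pm A
  have h2 := alt_pm B
  simp only [alt] at h
  omega

private theorem vx_l (A B : Fx n) : vx A ⊆ vx (.imp A B) := by
  intro v hv
  simp only [vx, mem_union]
  exact Or.inl hv

private theorem vx_r (A B : Fx n) : vx B ⊆ vx (.imp A B) := by
  intro v hv
  simp only [vx, mem_union]
  exact Or.inr hv

private theorem ext_small (h : Wld W K) (hT : ∀ l ≤ d, thr l ≤ T) {D : Finset (Fin n)}
    {x : Fin n → Bool} {F : Fx n} (hF : alt F true ≤ d) (hD : D.card + T ≤ K) (hc : W D x)
    (hs : lx F < thr (alt F true)) :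
    ∃ y, (D ∪ vx F).card ≤ D.card + T ∧ (∀ w ∈ D, y w = x w) ∧ W (D ∪ vx F) y := by
  have h1 := card_union_le D (vx F)
  have h2 := vx_card F
  have h3 := hT _ hF
  have h4 : (D ∪ vx F).card ≤ D.card + T := by omega
  obtain ⟨y, hy1, hy2⟩ := h.extS (h4.trans hD) hc
  exact ⟨y, h4, hy1, hy2⟩

theorem tx_not_both (h : Wld W K) (hT : ∀ l ≤ d, thr l ≤ T) (hT1 : s ≤ T) {D : Finset (Fin n)}
    {x : Fin n → Bool} {F : Fx n} {i j : Bool} (hcm : Cmt W c (lg s F)) (hF : alt F true ≤ d) (hF' : alt F false ≤ d)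
    (hD : D.card + T ≤ K) (hc : W D x) (h1 : Tx W c s thr D x F true i) (h2 : Tx W c s thr D x F false j) :
    False := by
  induction F generalizing i j with
  | var S =>
    by_cases hS : S.card ≤ s
    · rw [tx_short hS] at h1 h2
      have h3 := card_union_le D S
      obtain ⟨y, hy1, hy2⟩ := h.extS (S := S) (by omega) hc
      have h4 := h1 y hy1 hy2
      have h5 := h2 y hy1 hy2
      rw [h4] at h5
      exact Bool.noConfusion h5
    · rw [tx_long hS] at h1 h2
      rw [h1] at h2
      exact Bool.noConfusion h2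
  | neg A ih =>
    simp only [Tx, Bool.not_true, Bool.not_false] at h1 h2
    simp only [alt, Bool.not_true, Bool.not_false] at hF hF'
    exact ih hcm hF' hF h2 h1
  | imp A B ihA ihB =>
    obtain ⟨⟨hA1, hA2⟩, hB1, hB2⟩ := alt_sub hF
    rw [lg_imp] at hcm
    have hcA : Cmt W c (lg s A) := hcm.sub subset_union_left
    have hcB : Cmt W c (lg s B) := hcm.sub subset_union_right
    simp only [Tx] at h1 h2
    split_ifs at h1 with hs
    · obtain ⟨y, -, hy1, hy2⟩ := ext_small h hT hF hD hc hs.2
      have h3 := h1 y hy1 hy2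
      have h4 : A.eval (px y) = true :=
        h2.1.lt h hcA y hy1 (h.mono _ _ _ (union_subset_union_right (vx_l A B)) hy2)
      have h5 : B.eval (px y) = false :=
        h2.2.lt h hcB y hy1 (h.mono _ _ _ (union_subset_union_right (vx_r A B)) hy2)
      simp only [Fm.eval, h4, h5] at h3
      exact Bool.noConfusion h3
    · rcases h1 with h1 | h1
      · exact ihA hcA hA1 hA2 h2.1 h1
      · exact ihB hcB hB1 hB2 h1 h2.2

theorem tx_in (h : Wld W K) (hT : ∀ l ≤ d, thr l ≤ T) {D : Finset (Fin n)}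
    {x : Fin n → Bool} {F : Fx n} {b : Bool} (hcm : Cmt W c (lg s F)) (hF : alt F true ≤ d) (hF' : alt F false ≤ d)
    (hD : D.card + T ≤ K) (hc : W D x) (h1 : Tx W c s thr D x F b false) :
    ∃ D' y, D ⊆ D' ∧ D'.card ≤ D.card + T ∧ (∀ v ∈ D, y v = x v) ∧ W D' y ∧
      Tx W c s thr D' y F b true := by
  induction F generalizing b with
  | var S =>
    refine ⟨D, x, Subset.refl _, Nat.le_add_right _ _, fun _ _ => rfl, hc, ?_⟩
    simp only [Tx] at h1 ⊢
    exact h1
  | neg A ih =>
    simp only [Tx] at h1 ⊢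
    simp only [alt, Bool.not_true, Bool.not_false] at hF hF'
    exact ih hcm hF' hF h1
  | imp A B _ _ =>
    cases b with
    | false =>
      refine ⟨D, x, Subset.refl _, Nat.le_add_right _ _, fun _ _ => rfl, hc, ?_⟩
      simp only [Tx] at h1 ⊢
      exact h1
    | true =>
      simp only [Tx] at h1
      split_ifs at h1 with hs
      · obtain ⟨y, hcard, hy1, hy2⟩ := ext_small h hT hF hD hc hs.2
        refine ⟨D ∪ vx (.imp A B), y, subset_union_left, hcard, hy1, hy2, ?_⟩
        exact tx_full hcm hy2 subset_union_right (h1 y hy1 hy2)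
      · refine ⟨D, x, Subset.refl _, Nat.le_add_right _ _, fun _ _ => rfl, hc, ?_⟩
        simp only [Tx]
        rw [if_neg (fun h2 => Bool.noConfusion h2.1)]
        exact h1

theorem tx_imp (h : Wld W K) (hT : ∀ l ≤ d, thr l ≤ T) {D : Finset (Fin n)}
    {x : Fin n → Bool} {A B : Fx n} {a b : Bool} (hcm : Cmt W c (lg s (.imp A B))) (hF : alt (.imp A B) true ≤ d)
    (hD : D.card + T ≤ K) (hc : W D x) (h1 : Tx W c s thr D x A a false)
    (h2 : Tx W c s thr D x B b false) :
    ∃ D' y, D ⊆ D' ∧ D'.card ≤ D.card + T ∧ (∀ v ∈ D, y v = x v) ∧ W D' y ∧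
      Tx W c s thr D' y (.imp A B) (!a || b) false := by
  obtain ⟨⟨hA1, hA2⟩, hB1, hB2⟩ := alt_sub hF
  rw [lg_imp] at hcm
  have hcA : Cmt W c (lg s A) := hcm.sub subset_union_left
  have hcB : Cmt W c (lg s B) := hcm.sub subset_union_right
  have key : (a = false ∨ b = true) → ∃ D' y, D ⊆ D' ∧ D'.card ≤ D.card + T ∧
      (∀ v ∈ D, y v = x v) ∧ W D' y ∧ Tx W c s thr D' y (.imp A B) true false := by
    intro hab
    by_cases hs : lx (Fm.imp A B) < thr (alt (Fm.imp A B) true)
    · refine ⟨D, x, Subset.refl _, Nat.le_add_right _ _, fun _ _ => rfl, hc, ?_⟩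
      simp only [Tx]
      rw [if_pos ⟨trivial, hs⟩]
      intro y hy1 hy2
      rcases hab with ha | hb
      · subst ha
        have h4 : A.eval (px y) = false :=
          h1.lt h hcA y hy1 (h.mono _ _ _ (union_subset_union_right (vx_l A B)) hy2)
        simp only [Fm.eval, h4, Bool.not_false, Bool.true_or]
      · subst hb
        have h5 : B.eval (px y) = true :=
          h2.lt h hcB y hy1 (h.mono _ _ _ (union_subset_union_right (vx_r A B)) hy2)
        simp only [Fm.eval, h5, Bool.or_true]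
    · rcases hab with ha | hb
      · subst ha
        obtain ⟨D', y, g1, g2, g3, g4, g5⟩ := tx_in h hT hcA hA1 hA2 hD hc h1
        refine ⟨D', y, g1, g2, g3, g4, ?_⟩
        simp only [Tx]
        rw [if_neg (fun h3 => hs h3.2)]
        exact Or.inl g5
      · subst hb
        obtain ⟨D', y, g1, g2, g3, g4, g5⟩ := tx_in h hT hcB hB1 hB2 hD hc h2
        refine ⟨D', y, g1, g2, g3, g4, ?_⟩
        simp only [Tx]
        rw [if_neg (fun h3 => hs h3.2)]
        exact Or.inr g5
  cases a with
  | false => exact key (Or.inl rfl)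
  | true =>
    cases b with
    | true => exact key (Or.inr rfl)
    | false =>
      refine ⟨D, x, Subset.refl _, Nat.le_add_right _ _, fun _ _ => rfl, hc, ?_⟩
      show Tx W c s thr D x (.imp A B) false false
      simp only [Tx]
      exact ⟨h1, h2⟩

end Pool.H86.XP
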