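import Mathlib
import Pool.Agent.H6.LD.Dec
import Pool.Agent.H86.XP.Cns

set_option autoImplicit false
set_option linter.unusedSectionVars false

/-!
# Module DEC (THEOREM LP): every formula is decided by a small extension of the state
-/

namespace Pool.H86.XP

open Finset Classical Pool.Agent.H3.Frg Pool.Agent.H3.Frg2 Pool.Agent.H3.Frg4 Pool.Agent.H55.QT Pool.H6.LD

variable {n K s : ℕ} {W : Wd n} {c : Finset (Fin n) → Bool} {thr : ℕ → ℕ} {G₀ : Finset (Finset (Fin n))}

/-- the sum of the quotients of successive thresholds -/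
private noncomputable def kaw (thr : ℕ → ℕ) (l : ℕ) : ℝ :=
  ∑ i ∈ range (l - 1), (thr i : ℝ) / (Nat.log 2 (thr (i + 1)) : ℝ) ^ 2

private theorem kaw_nonneg (thr : ℕ → ℕ) (l : ℕ) : 0 ≤ kaw thr l :=
  Finset.sum_nonneg fun _ _ => by positivity

private theorem kaw_mono (thr : ℕ → ℕ) {l l' : ℕ} (h : l ≤ l') : kaw thr l ≤ kaw thr l' := by
  unfold kaw
  refine Finset.sum_le_sum_of_subset_of_nonneg ?_ fun _ _ _ => by positivity
  exact Finset.range_subset_range.2 (by omega)

private theorem kaw_succ (thr : ℕ → ℕ) {l : ℕ} (h : 1 ≤ l) :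
    kaw thr (l + 1) = kaw thr l + (thr (l - 1) : ℝ) / (Nat.log 2 (thr l) : ℝ) ^ 2 := by
  obtain ⟨k, rfl⟩ : ∃ k, l = k + 1 := ⟨l - 1, by omega⟩
  unfold kaw
  have h1 : k + 1 + 1 - 1 = k + 1 := by omega
  have h2 : k + 1 - 1 = k := by omega
  rw [h1, h2, Finset.sum_range_succ]

/-- the statement for one formula -/
private def Pd (W : Wd n) (c : Finset (Fin n) → Bool) (thr : ℕ → ℕ) (K s k : ℕ)
    (G₀ : Finset (Finset (Fin n))) (F : Fx n) : Prop :=
  lg s F ⊆ G₀ → ∀ (D : Finset (Fin n)) (x : Fin n → Bool),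
    (D.card : ℝ) + kaw thr (max (alt F true) (alt F false)) * (min (wx k F true) (wx k F false) : ℕ) +
      thr (max (alt F true) (alt F false) - 1) ≤ K → W D x →
    ∃ D' y, D ⊆ D' ∧ (D'.card : ℝ) ≤ D.card + kaw thr (max (alt F true) (alt F false)) * (min (wx k F true) (wx k F false) : ℕ) +
        thr (max (alt F true) (alt F false) - 1) ∧
      (∀ v ∈ D, y v = x v) ∧ W D' y ∧ (Tx W c s thr D' y F true false ∨ Tx W c s thr D' y F false false)

private theorem clm (h : Wld W K) {A B G : Fx n} {a : Bool} {D : Finset (Fin n)} {y : Fin n → Bool}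
    (hcm : Cmt W c (lg s (.imp A B)))
    (hG : (G, a) ∈ cj (.imp A B) false) (hT : Tx W c s thr D y G (!a) false) :
    Tx W c s thr D y (.imp A B) true false := by
  have h1 : Tx W c s thr D y (.imp A B) true true := by
    rw [tx_dj]
    refine ⟨(G, !a), ?_, hT⟩
    rw [cj_dj]
    show (G, !!a) ∈ cj (.imp A B) (!true)
    rw [Bool.not_not]
    exact hG
  unfold Tx at h1 ⊢
  rw [if_neg (fun h2 => by cases h2.1)] at h1
  split_ifs with h2
  · intro z hz hcz
    by_contra hne
    rw [Bool.not_eq_true] at hne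
    have h3 := (cj_eval.1 hne) (G, a) hG
    have h4 := Tx.lt h (hcm.sub (cj_lg hG)) hT z hz (h.mono _ _ _ (union_subset_union_right (cj_vx hG)) hcz)
    dsimp only at h3
    rw [h3] at h4
    cases a <;> cases h4
  · exact h1

/-- small members -/
private def Sm (thr : ℕ → ℕ) (G : Fx n) : Prop := (∃ v, G = .var v) ∨ lx G < thr (alt G true)

private theorem dlist (h : Wld W K) (hmono : Monotone thr) (h0 : 2 ≤ thr 0) {k : ℕ} (hk0 : k < thr 0) (l : ℕ)
    (L : List (Fx n × Bool))
    (hf : ∀ p ∈ L, (∃ v, p.1 = .var v) ∨ ∃ A B, p.1 = .imp A B ∧ p.2 = true)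
    (ha : ∀ p ∈ L, alt p.1 true + 1 ≤ l) (hP : ∀ p ∈ L, Pd W c thr K s k G₀ p.1) (hG : ∀ p ∈ L, lg s p.1 ⊆ G₀) :
    ∀ (D : Finset (Fin n)) (x : Fin n → Bool), (D.card : ℝ) + kaw thr l * lwx k L ≤ K → W D x →
      (∀ p ∈ L, Sm thr p.1 → Tx W c s thr D x p.1 p.2 false) →
      ∃ D' y, D ⊆ D' ∧ (D'.card : ℝ) ≤ D.card + kaw thr l * lwx k L ∧ (∀ v ∈ D, y v = x v) ∧ W D' y ∧
        ((∃ p ∈ L, Tx W c s thr D' y p.1 (!p.2) false) ∨ ∀ p ∈ L, Tx W c s thr D' y p.1 p.2 false) := by
  induction L with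
  | nil =>
    intro D x hD hc _
    refine ⟨D, x, Subset.refl _, ?_, fun _ _ => rfl, hc, Or.inr fun p hp => ?_⟩
    · have h2 : lwx k ([] : List (Fx n × Bool)) = 0 := rfl
      rw [h2, Nat.cast_zero, mul_zero, add_zero]
    · cases hp
  | cons p L ih =>
    intro D x hD hc hL
    have hk := kaw_nonneg thr l
    have e1 : lwx k (p :: L) = wx k p.1 p.2 + lwx k L := lwx_cons p L
    rw [e1, Nat.cast_add] at hD
    have hL0 : (0 : ℝ) ≤ lwx k L := Nat.cast_nonneg _
    have hp0 : (0 : ℝ) ≤ wx k p.1 p.2 := Nat.cast_nonneg _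
    have ih' := ih (fun q hq => hf q (List.mem_cons_of_mem _ hq)) (fun q hq => ha q (List.mem_cons_of_mem _ hq))
      (fun q hq => hP q (List.mem_cons_of_mem _ hq)) (fun q hq => hG q (List.mem_cons_of_mem _ hq))
    have hkp : 0 ≤ kaw thr l * wx k p.1 p.2 := mul_nonneg hk hp0
    have hkL : 0 ≤ kaw thr l * lwx k L := mul_nonneg hk hL0
    have step : ∀ (D₁ : Finset (Fin n)) (y₁ : Fin n → Bool), D ⊆ D₁ →
        (D₁.card : ℝ) ≤ D.card + kaw thr l * wx k p.1 p.2 → (∀ v ∈ D, y₁ v = x v) → W D₁ y₁ →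
        Tx W c s thr D₁ y₁ p.1 p.2 false →
        ∃ D' y, D ⊆ D' ∧ (D'.card : ℝ) ≤ D.card + kaw thr l * lwx k (p :: L) ∧ (∀ v ∈ D, y v = x v) ∧ W D' y ∧
        ((∃ q ∈ p :: L, Tx W c s thr D' y q.1 (!q.2) false) ∨ ∀ q ∈ p :: L, Tx W c s thr D' y q.1 q.2 false) := by
      intro D₁ y₁ hD₁ hc₁ hy₁ hcon₁ hT
      obtain ⟨D', y, h1, h2, h3, h4, h5⟩ := ih' D₁ y₁ (by nlinarith) hcon₁
        (fun q hq hs => Tx.mono h hD₁ hy₁ (hL q (List.mem_cons_of_mem _ hq) hs))
      refine ⟨D', y, hD₁.trans h1, ?_, fun v hv => (h3 v (hD₁ hv)).trans (hy₁ v hv), h4, ?_⟩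
      · rw [e1, Nat.cast_add]
        nlinarith
      · rcases h5 with ⟨q, hq, h5⟩ | h5
        · exact Or.inl ⟨q, List.mem_cons_of_mem _ hq, h5⟩
        · refine Or.inr fun q hq => ?_
          rcases List.mem_cons.1 hq with hqp | hq
          · rw [hqp]
            exact Tx.mono h h1 h3 hT
          · exact h5 q hq
    by_cases hs : Sm thr p.1
    · have h7 : (D.card : ℝ) ≤ D.card + kaw thr l * wx k p.1 p.2 := by linarith
      exact step D x (Subset.refl _) h7 (fun _ _ => rfl) hc (hL p List.mem_cons_self hs)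
    · have hform : ∃ A B, p.1 = .imp A B ∧ p.2 = true := by
        rcases hf p List.mem_cons_self with h1 | h1
        · exact absurd (Or.inl h1) hs
        · exact h1
      obtain ⟨A, B, hAB, hc2⟩ := hform
      have hlv : thr (alt p.1 true) ≤ lx p.1 := by
        by_contra h1
        exact hs (Or.inr (not_le.1 h1))
      have hal := ha p List.mem_cons_self
      have e2 : alt p.1 true = alt p.1 false + 1 := by
        rw [hAB]
        rfl
      obtain ⟨l', hl'⟩ : ∃ l', l' = alt p.1 true := ⟨_, rfl⟩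
      have e3 : max (alt p.1 true) (alt p.1 false) = l' := by omega
      have hl1 : 1 ≤ l' := by omega
      rw [← hl'] at hlv hal
      have hthr : (0 : ℝ) < thr l' := by
        have h1 := hmono (Nat.zero_le l')
        exact_mod_cast (show 0 < thr l' by omega)
      have hw : wx k p.1 true = wx k p.1 false + om k (lx p.1) := by
        rw [hAB]
        exact wx_imp A B
      have hom : Nat.log 2 (thr l') ^ 2 ≤ om k (lx p.1) :=
        om_ge (hk0.trans_le (hmono (Nat.zero_le l'))) hlv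
      have hlg : 0 < Nat.log 2 (thr l') :=
        Nat.log_pos (by norm_num) (h0.trans (hmono (Nat.zero_le l')))
      have hlg' : (0 : ℝ) < (Nat.log 2 (thr l') : ℝ) ^ 2 := by
        have : (0 : ℝ) < Nat.log 2 (thr l') := by exact_mod_cast hlg
        positivity
      have hw1 : (wx k p.1 false : ℝ) ≤ wx k p.1 true := by exact_mod_cast (by omega : wx k p.1 false ≤ wx k p.1 true)
      have hw2 : (Nat.log 2 (thr l') : ℝ) ^ 2 ≤ wx k p.1 true := by
        exact_mod_cast (by omega : Nat.log 2 (thr l') ^ 2 ≤ wx k p.1 true)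
      have e4 : min (wx k p.1 true) (wx k p.1 false) = wx k p.1 false := by omega
      have hq : (thr (l' - 1) : ℝ) ≤ (thr (l' - 1) : ℝ) / (Nat.log 2 (thr l') : ℝ) ^ 2 * wx k p.1 true := by
        rw [div_mul_eq_mul_div, le_div_iff₀ hlg']
        exact mul_le_mul_of_nonneg_left hw2 (Nat.cast_nonneg _)
      have hcost : kaw thr l' * wx k p.1 false + thr (l' - 1) ≤ kaw thr l * wx k p.1 p.2 := by
        rw [hc2]
        have h1 := kaw_mono thr (show l' + 1 ≤ l from hal)
        rw [kaw_succ thr hl1] at h1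
        have h2 := mul_le_mul_of_nonneg_right h1 (Nat.cast_nonneg (α := ℝ) (wx k p.1 true))
        rw [add_mul] at h2
        have h3 := mul_le_mul_of_nonneg_left hw1 (kaw_nonneg thr l')
        linarith
      have hPp := hP p List.mem_cons_self (hG p List.mem_cons_self) D x
      rw [e3, e4] at hPp
      obtain ⟨D₁, y₁, h1, h2, h3, h4, h5⟩ := hPp (by nlinarith) hc
      have h6 : (D₁.card : ℝ) ≤ D.card + kaw thr l * wx k p.1 p.2 := by linarith
      rcases h5 with h5 | h5
      · exact step D₁ y₁ h1 h6 h3 h4 (by rw [hc2]; exact h5)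
      · refine ⟨D₁, y₁, h1, ?_, h3, h4, Or.inl ⟨p, List.mem_cons_self, ?_⟩⟩
        · rw [e1, Nat.cast_add]
          nlinarith
        · rw [hc2]
          exact h5

private theorem dimp (h : Wld W K) (hmono : Monotone thr) (h0 : 2 ≤ thr 0) {k : ℕ} (hk0 : k < thr 0)
    (hs0 : s ≤ thr 0) (hcm : Cmt W c G₀) (A B : Fx n)
    (hP : ∀ p ∈ cj (.imp A B) false, Pd W c thr K s k G₀ p.1) : Pd W c thr K s k G₀ (.imp A B) := by
  intro hGF D x hD hc
  have e2 : alt (Fm.imp A B) true = alt (Fm.imp A B) false + 1 := rfl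
  have e3 : max (alt (Fm.imp A B) true) (alt (Fm.imp A B) false) = alt (Fm.imp A B) true := by omega
  have e4 : min (wx k (Fm.imp A B) true) (wx k (Fm.imp A B) false) = wx k (Fm.imp A B) false := by
    rw [wx_imp]
    omega
  rw [e3, e4] at hD ⊢
  obtain ⟨l, hl⟩ : ∃ l, l = alt (Fm.imp A B) true := ⟨_, rfl⟩
  rw [← hl] at hD ⊢
  have hk := kaw_nonneg thr l
  have hF0 : (0 : ℝ) ≤ wx k (Fm.imp A B) false := Nat.cast_nonneg _
  have ht0 : (0 : ℝ) ≤ thr (l - 1) := Nat.cast_nonneg _
  have hkF : 0 ≤ kaw thr l * wx k (Fm.imp A B) false := mul_nonneg hk hF0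
  have hcF : Cmt W c (lg s (.imp A B)) := hcm.sub hGF
  by_cases hsm : ∀ p ∈ cj (.imp A B) false, Sm thr p.1 → Tx W c s thr D x p.1 p.2 false
  · have hlv : lwx k (cj (Fm.imp A B) false) = wx k (Fm.imp A B) false := cj_lwx _ _
    have hh := dlist h hmono h0 hk0 l (cj (.imp A B) false) (fun p hp => cj_form hp)
      (fun p hp => by rw [hl]; exact (cj_alt1 hp).1) hP (fun p hp => (cj_lg hp).trans hGF) D x
    rw [hlv] at hh
    obtain ⟨D', y, h1, h2, h3, h4, h5⟩ := hh (by linarith) hc hsm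
    refine ⟨D', y, h1, by linarith, h3, h4, ?_⟩
    rcases h5 with ⟨p, hp, h5⟩ | h5
    · exact Or.inl (clm h hcF (show (p.1, p.2) ∈ _ from hp) h5)
    · exact Or.inr (tx_cj.2 h5)
  · push Not at hsm
    obtain ⟨p, hp, hs, hnl⟩ := hsm
    have hform := cj_form hp
    -- a long atom is decided by its commitment
    by_cases hlong : ∃ S, p.1 = .var S ∧ ¬ S.card ≤ s
    · obtain ⟨S, hS, hSc⟩ := hlong
      refine ⟨D, x, Subset.refl _, by linarith, fun _ _ => rfl, hc, Or.inl ?_⟩
      refine clm h hcF (show (p.1, p.2) ∈ _ from hp) ?_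
      rw [hS, tx_long hSc]
      rw [hS, tx_long hSc] at hnl
      cases h1 : c S <;> cases h2 : p.2 <;> simp_all
    · have hnl' : ¬ Lx W D x p.1 p.2 := by
        intro hl1
        apply hnl
        rcases hform with ⟨S, hS⟩ | ⟨A', B', hAB, hb⟩
        · rw [hS] at hl1 ⊢
          rw [tx_short (by
            by_contra h1
            exact hlong ⟨S, hS, h1⟩)]
          exact hl1
        · rw [hAB, hb] at hl1 ⊢
          rcases hs with ⟨v, hv⟩ | hs
          · rw [hAB] at hv
            cases hv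
          · rw [hAB] at hs
            rw [tx_impt ⟨rfl, hs⟩]
            exact hl1
      unfold Lx at hnl'
      push Not at hnl'
      obtain ⟨y, hy, hcy, hev⟩ := hnl'
      have hcard : ((vx p.1).card : ℝ) ≤ thr (l - 1) := by
        rcases hs with ⟨S, hS⟩ | hs
        · have h1 : S.card ≤ s := by
            by_contra h1
            exact hlong ⟨S, hS, h1⟩
          rw [hS]
          have h2 := hmono (Nat.zero_le (l - 1))
          exact_mod_cast (show (vx (Fm.var S)).card ≤ thr (l - 1) by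
            show S.card ≤ thr (l - 1)
            omega)
        · have h1 := vx_card p.1
          have h2 := (cj_alt1 hp).1
          rw [← hl] at h2
          have h3 := hmono (show alt p.1 true ≤ l - 1 by omega)
          exact_mod_cast (show (vx p.1).card ≤ thr (l - 1) by omega)
      refine ⟨D ∪ vx p.1, y, subset_union_left, ?_, hy, hcy, Or.inl ?_⟩
      · have h1 : ((D ∪ vx p.1).card : ℝ) ≤ D.card + (vx p.1).card := by exact_mod_cast card_union_le D (vx p.1)
        linarith
      · refine clm h hcF (show (p.1, p.2) ∈ _ from hp)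
          (tx_full (hcF.sub (cj_lg hp)) hcy subset_union_right ?_)
        cases h1 : p.1.eval (px y) <;> cases h2 : p.2 <;> simp_all

private theorem dall (h : Wld W K) (hmono : Monotone thr) (h0 : 2 ≤ thr 0) {k : ℕ} (hk0 : k < thr 0)
    (hs0 : s ≤ thr 0) (hcm : Cmt W c G₀) (F : Fx n) :
    Pd W c thr K s k G₀ F ∧ ∀ b, ∀ p ∈ cj F b, Pd W c thr K s k G₀ p.1 := by
  induction F with
  | var S =>
    have hP : Pd W c thr K s k G₀ (.var S) := by
      intro hGF D x hD hc
      have e1 : max (alt (Fm.var S) true) (alt (Fm.var S) false) = 0 := rfl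
      have e2 : kaw thr 0 = 0 := rfl
      rw [e1, e2, zero_mul, add_zero] at hD ⊢
      have e3 : (0 : ℕ) - 1 = 0 := rfl
      rw [e3] at hD ⊢
      have ht0 : (0 : ℝ) ≤ thr 0 := Nat.cast_nonneg _
      by_cases hS : S.card ≤ s
      · have h1 : (D ∪ S).card ≤ D.card + thr 0 := (card_union_le _ _).trans (by omega)
        have h2 : (D ∪ S).card ≤ K := by
          have h3 : ((D.card + thr 0 : ℕ) : ℝ) ≤ K := by
            push_cast
            exact hD
          have h4 : D.card + thr 0 ≤ K := by exact_mod_cast h3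
          omega
        obtain ⟨y, hy, hcy⟩ := h.extS h2 hc
        refine ⟨D ∪ S, y, subset_union_left, by exact_mod_cast h1, hy, hcy, ?_⟩
        have h3 : vx (Fm.var S) ⊆ D ∪ S := subset_union_right
        cases hb : (Fm.var S).eval (px y)
        · exact Or.inr (tx_full (hcm.sub hGF) hcy h3 hb)
        · exact Or.inl (tx_full (hcm.sub hGF) hcy h3 hb)
      · refine ⟨D, x, Subset.refl _, by linarith, fun _ _ => rfl, hc, ?_⟩
        rw [tx_long hS, tx_long hS]
        cases c S
        · exact Or.inr rfl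
        · exact Or.inl rfl
    refine ⟨hP, fun b p hp => ?_⟩
    have h1 : cj (Fm.var S) b = [(Fm.var S, b)] := by cases b <;> rfl
    rw [h1, List.mem_singleton] at hp
    rw [hp]
    exact hP
  | neg A ih =>
    refine ⟨?_, fun b p hp => ?_⟩
    · intro hGF D x hD hc
      have e1 : max (alt (Fm.neg A) true) (alt (Fm.neg A) false) = max (alt A true) (alt A false) := by
        show max (alt A false) (alt A true) = _
        exact max_comm _ _
      have e2 : min (wx k (Fm.neg A) true) (wx k (Fm.neg A) false) = min (wx k A true) (wx k A false) := by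
        show min (wx k A false) (wx k A true) = _
        exact min_comm _ _
      rw [e1, e2] at hD ⊢
      obtain ⟨D', y, h1, h2, h3, h4, h5⟩ := ih.1 hGF D x hD hc
      refine ⟨D', y, h1, h2, h3, h4, ?_⟩
      rcases h5 with h5 | h5
      · exact Or.inr (tx_neg.2 h5)
      · exact Or.inl (tx_neg.2 h5)
    · have h1 : cj (Fm.neg A) b = cj A (!b) := by cases b <;> rfl
      rw [h1] at hp
      exact ih.2 _ p hp
  | imp A B ihA ihB =>
    have hP : ∀ p ∈ cj (.imp A B) false, Pd W c thr K s k G₀ p.1 := by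
      intro p hp
      have h1 : cj (Fm.imp A B) false = cj A true ++ cj B false := rfl
      rw [h1, List.mem_append] at hp
      rcases hp with hp | hp
      · exact ihA.2 _ p hp
      · exact ihB.2 _ p hp
    have hI := dimp h hmono h0 hk0 hs0 hcm A B hP
    refine ⟨hI, fun b p hp => ?_⟩
    cases b with
    | false => exact hP p hp
    | true =>
      have h1 : cj (Fm.imp A B) true = [(Fm.imp A B, true)] := rfl
      rw [h1, List.mem_singleton] at hp
      rw [hp]
      exact hI

theorem decx (h : Wld W K) (hmono : Monotone thr) (h0 : 2 ≤ thr 0) {k d : ℕ} (hk : k < thr 0) (hs : s ≤ thr 0) {θ : ℝ}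
    (hθ : ∑ i ∈ range d, (thr i : ℝ) / (Nat.log 2 (thr (i + 1)) : ℝ) ^ 2 ≤ θ) {F : Fx n}
    (hcm : Cmt W c (lg s F))
    (hF : alt F true ≤ d) (hF' : alt F false ≤ d) {D : Finset (Fin n)} {x : Fin n → Bool}
    (hD : (D.card : ℝ) + θ * (max (wx k F true) (wx k F false) : ℕ) + thr d ≤ K) (hc : W D x) :
    ∃ D' y, D ⊆ D' ∧ (D'.card : ℝ) ≤ D.card + θ * (max (wx k F true) (wx k F false) : ℕ) + thr d ∧
      (∀ v ∈ D, y v = x v) ∧ W D' y ∧ (Tx W c s thr D' y F true false ∨ Tx W c s thr D' y F false false) := by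
  obtain ⟨l, hl⟩ : ∃ l, l = max (alt F true) (alt F false) := ⟨_, rfl⟩
  have hld : l ≤ d := by omega
  have hk0 := kaw_nonneg thr l
  have hkaw : kaw thr l ≤ θ := by
    refine le_trans ?_ hθ
    unfold kaw
    refine Finset.sum_le_sum_of_subset_of_nonneg ?_ fun _ _ _ => by positivity
    exact Finset.range_subset_range.2 (by omega)
  have hmm : ((min (wx k F true) (wx k F false) : ℕ) : ℝ) ≤ (max (wx k F true) (wx k F false) : ℕ) := by
    exact_mod_cast (min_le_left _ _).trans (le_max_left _ _)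
  have h1 : kaw thr l * (min (wx k F true) (wx k F false) : ℕ) ≤ θ * (max (wx k F true) (wx k F false) : ℕ) :=
    mul_le_mul hkaw hmm (Nat.cast_nonneg _) (hk0.trans hkaw)
  have h2 : (thr (l - 1) : ℝ) ≤ thr d := by exact_mod_cast hmono (show l - 1 ≤ d by omega)
  have hP := (dall (c := c) h hmono h0 hk hs hcm F).1 (Subset.refl _) D x
  rw [← hl] at hP
  obtain ⟨D', y, h3, h4, h5, h6, h7⟩ := hP (by linarith) hc
  exact ⟨D', y, h3, by linarith, h5, h6, h7⟩

end Pool.H86.XP
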