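import Mathlib
import Pool.Agent.H86.XP.TopA

set_option autoImplicit false
set_option linter.unusedSectionVars false

/-!
# Module TOPB (THEOREM LP): instances of sound schemes, modus ponens, resolution, axioms
-/

namespace Pool.H86.XP

open Finset Classical Pool.Agent.H3.Frg Pool.Agent.H3.Frg2 Pool.Agent.H3.Frg4 Pool.Agent.H55.QT Pool.H6.LD

variable {n K k s : ℕ} {W : Wd n} {c : Finset (Fin n) → Bool} {thr : ℕ → ℕ}

private theorem len_leaves {V : Type} (F : Fm V) : F.leaves ≤ F.len := by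
  induction F with
  | var v => exact le_rfl
  | neg A ih => exact ih.trans (Nat.le_succ _)
  | imp A B ihA ihB =>
    show A.leaves + B.leaves ≤ A.len + B.len + 1
    omega

private theorem ttx_mv (h : Wld W K) (hmono : Monotone thr) (h0 : 2 ≤ thr 0) (hk : k < thr 0) (hs : s ≤ thr 0) {θ : ℝ}
    (hθ : ∑ i ∈ range k, (thr i : ℝ) / (Nat.log 2 (thr (i + 1)) : ℝ) ^ 2 ≤ θ) (hθ0 : 0 ≤ θ) {M Wt kd : ℕ}
    (hkd : θ * Wt + M * thr k ≤ kd) {σ : ℕ → Fx n} (S : Finset ℕ) (hS : ∀ i ∈ S, Fwx k M Wt (σ i))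
    (hcm : ∀ i ∈ S, Cmt W c (lg s (σ i)))
    {D : Finset (Fin n)} {x : Fin n → Bool} (hD : D.card + S.card * kd ≤ K) (hc : W D x) :
    ∃ D' y, ∃ v : ℕ → Bool, D ⊆ D' ∧ D'.card ≤ D.card + S.card * kd ∧ (∀ w ∈ D, y w = x w) ∧ W D' y ∧
      ∀ i ∈ S, TTx W c s thr k D' y (σ i) (v i) := by
  induction S using Finset.induction_on with
  | empty =>
    refine ⟨D, x, fun _ => true, Subset.refl _, by simp, fun _ _ => rfl, hc, fun i hi => ?_⟩
    simp at hi
  | insert a S ha ih =>
    rw [card_insert_of_notMem ha] at hD ⊢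
    rw [Nat.add_mul, Nat.one_mul] at hD ⊢
    obtain ⟨D₁, y₁, v₁, h1, h2, h3, h4, h5⟩ := ih (fun i hi => hS i (mem_insert_of_mem hi))
      (fun i hi => hcm i (mem_insert_of_mem hi)) (by omega)
    have hq := hS a (mem_insert_self a S)
    obtain ⟨D₂, y₂, g1, g2, g3, g4, g5⟩ := ttx_dec h hmono h0 hk hs hθ hθ0 hkd (hcm a (mem_insert_self a S)) hq
      (D := D₁) (x := y₁) (by omega) h4
    obtain ⟨b, hb⟩ : ∃ b, TTx W c s thr k D₂ y₂ (σ a) b := by
      rcases g5 with g5 | g5
      · exact ⟨true, g5⟩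
      · exact ⟨false, g5⟩
    refine ⟨D₂, y₂, Function.update v₁ a b, h1.trans g1, by omega,
      fun w hw => (g3 w (h1 hw)).trans (h3 w hw), g4, fun i hi => ?_⟩
    rcases mem_insert.1 hi with rfl | hi
    · rw [Function.update_self]
      exact hb
    · have hne : i ≠ a := fun h6 => ha (h6 ▸ hi)
      rw [Function.update_of_ne hne]
      exact ttx_mono h g1 g3 (h5 i hi)

private theorem ttx_chi (h : Wld W K) (hmono : Monotone thr)
    {σ : ℕ → Fx n} {v : ℕ → Bool} (χ : Fm ℕ) (hcm : Cmt W c (lg s (χ.bind σ))) :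
    ∀ (D : Finset (Fin n)) (x : Fin n → Bool), (∀ i ∈ fv χ, TTx W c s thr k D x (σ i) (v i)) →
      D.card + χ.len * thr k ≤ K → W D x →
      ∃ D' y, D ⊆ D' ∧ D'.card ≤ D.card + χ.len * thr k ∧ (∀ w ∈ D, y w = x w) ∧ W D' y ∧
        TTx W c s thr k D' y (χ.bind σ) (χ.eval v) := by
  induction χ with
  | var i =>
    intro D x hv hD hc
    refine ⟨D, x, Subset.refl _, Nat.le_add_right _ _, fun _ _ => rfl, hc, ?_⟩
    exact hv i (by show i ∈ ({i} : Finset ℕ); exact mem_singleton_self i)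
  | neg A ih =>
    intro D x hv hD hc
    have e1 : (Fm.neg A).len = A.len + 1 := rfl
    rw [e1, Nat.add_mul] at hD
    obtain ⟨D', y, h1, h2, h3, h4, h5⟩ := ih hcm D x hv (by omega) hc
    refine ⟨D', y, h1, ?_, h3, h4, ?_⟩
    · rw [e1, Nat.add_mul]
      omega
    · show TTx W c s thr k D' y (.neg (A.bind σ)) (!(A.eval v))
      rw [ttx_neg, Bool.not_not]
      exact h5
  | imp A B ihA ihB =>
    intro D x hv hD hc
    have e1 : (Fm.imp A B).len = A.len + B.len + 1 := rfl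
    rw [e1, Nat.add_mul, Nat.add_mul, Nat.one_mul] at hD
    have hfA : ∀ i ∈ fv A, i ∈ fv (Fm.imp A B) := fun i hi => mem_fv_imp.2 (Or.inl hi)
    have hfB : ∀ i ∈ fv B, i ∈ fv (Fm.imp A B) := fun i hi => mem_fv_imp.2 (Or.inr hi)
    have hcm' : Cmt W c (lg s (A.bind σ) ∪ lg s (B.bind σ)) := by
      rw [← lg_imp]
      exact hcm
    obtain ⟨D₁, y₁, h1, h2, h3, h4, h5⟩ := ihA (hcm'.sub subset_union_left) D x (fun i hi => hv i (hfA i hi))
      (by omega) hc
    obtain ⟨D₂, y₂, g1, g2, g3, g4, g5⟩ := ihB (hcm'.sub subset_union_right) D₁ y₁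
      (fun i hi => ttx_mono h h1 h3 (hv i (hfB i hi))) (by omega) h4
    obtain ⟨D₃, y₃, k1, k2, k3, k4, k5⟩ := ttx_imp h hmono hcm (by omega) g4 (ttx_mono h g1 g3 h5) g5
    refine ⟨D₃, y₃, (h1.trans g1).trans k1, ?_, fun w hw => ?_, k4, k5⟩
    · rw [e1, Nat.add_mul, Nat.add_mul, Nat.one_mul]
      omega
    · rw [k3 w (g1 (h1 hw)), g3 w (h1 hw), h3 w hw]

theorem ttx_ax (h : Wld W K) (hmono : Monotone thr) (h0 : 2 ≤ thr 0) (hk : k < thr 0) (hs : s ≤ thr 0) {θ : ℝ}
    (hθ : ∑ i ∈ range k, (thr i : ℝ) / (Nat.log 2 (thr (i + 1)) : ℝ) ^ 2 ≤ θ) (hθ0 : 0 ≤ θ) {M Wt kd : ℕ}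
    (hkd : θ * Wt + M * thr k ≤ kd) (hT : thr k ≤ kd) {ψ : Fm ℕ} {k0 : ℕ} (hk0 : ψ.len ≤ k0)
    (hψ : ∀ x : ℕ → Bool, ψ.eval x = true) {σ : ℕ → Fx n} (hcm : Cmt W c (lg s (ψ.bind σ)))
    (hF : Fwx k M Wt (ψ.bind σ))
    {D : Finset (Fin n)} {x : Fin n → Bool} (hD : D.card + 3 * k0 * kd ≤ K) (hc : W D x) :
    ¬ TTx W c s thr k D x (ψ.bind σ) false := by
  intro hfalse
  have hcard : (fv ψ).card ≤ k0 := ((fv_card ψ).trans (len_leaves ψ)).trans hk0
  have hk01 : 1 ≤ k0 := ((leaves_pos ψ).trans (len_leaves ψ)).trans hk0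
  have c1 : (fv ψ).card * kd ≤ k0 * kd := Nat.mul_le_mul_right _ hcard
  have c2 : ψ.len * thr k ≤ k0 * kd := Nat.mul_le_mul hk0 hT
  have c3 : thr k ≤ k0 * kd := hT.trans (Nat.le_mul_of_pos_left _ hk01)
  have c4 : 3 * k0 * kd = k0 * kd + k0 * kd + k0 * kd := by ring
  obtain ⟨D₁, y₁, v, h1, h2, h3, h4, h5⟩ := ttx_mv h hmono h0 hk hs hθ hθ0 hkd (σ := σ) (fv ψ)
    (fwx_bind ψ hF) (fun i hi => hcm.sub (lg_bind ψ i hi)) (D := D) (x := x) (by omega) hc
  obtain ⟨D₂, y₂, g1, g2, g3, g4, g5⟩ := ttx_chi h hmono (v := v) ψ hcm D₁ y₁ h5 (by omega) h4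
  rw [hψ v] at g5
  have g6 : TTx W c s thr k D₂ y₂ (ψ.bind σ) false :=
    ttx_mono h (h1.trans g1) (fun w hw => (g3 w (h1 hw)).trans (h3 w hw)) hfalse
  exact ttx_nb h hmono hs hcm (by omega) g4 g5 g6

theorem ttx_mp (h : Wld W K) (hmono : Monotone thr) (h0 : 2 ≤ thr 0) (hk : k < thr 0) (hs : s ≤ thr 0) {θ : ℝ}
    (hθ : ∑ i ∈ range k, (thr i : ℝ) / (Nat.log 2 (thr (i + 1)) : ℝ) ^ 2 ≤ θ) (hθ0 : 0 ≤ θ) {M Wt kd : ℕ}
    (hkd : θ * Wt + M * thr k ≤ kd) {A B : Fx n} (hcm : Cmt W c (lg s (.imp A B))) (hF : Fwx k M Wt A)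
    {D : Finset (Fin n)}
    {x : Fin n → Bool} (hD : D.card + (kd + thr k) ≤ K) (hc : W D x) (hB : TTx W c s thr k D x B false) :
    ∃ D' y, D ⊆ D' ∧ D'.card ≤ D.card + (kd + thr k) ∧ (∀ v ∈ D, y v = x v) ∧ W D' y ∧
      (TTx W c s thr k D' y A false ∨ TTx W c s thr k D' y (.imp A B) false) := by
  have hcm' : Cmt W c (lg s A ∪ lg s B) := by
    rw [← lg_imp]
    exact hcm
  obtain ⟨D₁, y₁, h1, h2, h3, h4, h5⟩ := ttx_dec h hmono h0 hk hs hθ hθ0 hkd (hcm'.sub subset_union_left) hF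
    (D := D) (x := x) (by omega) hc
  rcases h5 with h5 | h5
  · obtain ⟨D₂, y₂, g1, g2, g3, g4, g5⟩ := ttx_imp h hmono hcm (by omega) h4 h5 (ttx_mono h h1 h3 hB)
    exact ⟨D₂, y₂, h1.trans g1, by omega, fun v hv => (g3 v (h1 hv)).trans (h3 v hv), g4, Or.inr g5⟩
  · exact ⟨D₁, y₁, h1, by omega, h3, h4, Or.inl h5⟩

theorem ttx_cl (h : Wld W K) {F : Fx n} (hcm : Cmt W c (lg s F)) {D : Finset (Fin n)} {x : Fin n → Bool}
    (hF : ∀ y, W (vx F) y → F.eval (px y) = true) (hD : D.card + lx F ≤ K) (hc : W D x) :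
    ¬ TTx W c s thr k D x F false := by
  intro h1
  have h2 : (D ∪ vx F).card ≤ K := by
    have h3 := card_union_le D (vx F)
    have h4 := vx_card F
    omega
  obtain ⟨y, hy1, hy2⟩ := h.extS h2 hc
  have h3 : TTx W c s thr k (D ∪ vx F) y F false := ttx_mono h subset_union_left hy1 h1
  have h4 := h3 (fun P => P.eval (px y)) (fun P hP a ha => by
    refine Tx.lt h (hcm.sub (ps_lg P hP)) ha y (fun _ _ => rfl) ?_
    have h5 : D ∪ vx F ∪ vx P = D ∪ vx F :=
      union_eq_left.2 ((ps_vx P hP).trans subset_union_right)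
    rw [h5]
    exact hy2)
  rw [evp_eval, hF y (h.mono _ _ _ subset_union_right hy2)] at h4
  exact Bool.noConfusion h4

private theorem eval_ax {F : Fx n} {v v' : Finset (Fin n) → Bool} (h : ∀ S ∈ ax F, v S = v' S) :
    F.eval v = F.eval v' := by
  induction F with
  | var S => exact h S (mem_singleton_self _)
  | neg A ih =>
    have h1 : A.eval v = A.eval v' := ih h
    simp only [Fm.eval, h1]
  | imp A B ihA ihB =>
    have h1 : A.eval v = A.eval v' := ihA fun S hS => h S (mem_union_left _ hS)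
    have h2 : B.eval v = B.eval v' := ihB fun S hS => h S (mem_union_right _ hS)
    simp only [Fm.eval, h1, h2]

/-- the values of the atoms at a state which contains the short ones -/
private def vl (c : Finset (Fin n) → Bool) (s : ℕ) (x : Fin n → Bool) (S : Finset (Fin n)) : Bool :=
  if S.card ≤ s then px x S else c S

private theorem tx_vl {T d : ℕ} (h : Wld W K) (hT : ∀ l ≤ d, thr l ≤ T) {D : Finset (Fin n)}
    {x : Fin n → Bool} {F : Fx n} {b i : Bool} (hcm : Cmt W c (lg s F)) (hF : alt F true ≤ d)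
    (hF' : alt F false ≤ d) (hD : D.card + T ≤ K) (hc : W D x) (hsh : ∀ S ∈ ax F, S.card ≤ s → S ⊆ D)
    (h1 : Tx W c s thr D x F b i) : F.eval (vl c s x) = b := by
  induction F generalizing b i with
  | var S =>
    show vl c s x S = b
    unfold vl
    by_cases hS : S.card ≤ s
    · rw [if_pos hS]
      rw [tx_short hS] at h1
      refine h1 x (fun _ _ => rfl) ?_
      have h2 : D ∪ vx (Fm.var S) = D := union_eq_left.2 (hsh S (mem_singleton_self _) hS)
      rw [h2]
      exact hc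
    · rw [if_neg hS]
      exact (tx_long hS).1 h1
  | neg A ih =>
    simp only [alt, Bool.not_true, Bool.not_false] at hF hF'
    have h2 := ih hcm hF' hF hsh (tx_neg.1 h1)
    show (!(A.eval (vl c s x))) = b
    rw [h2, Bool.not_not]
  | imp A B ihA ihB =>
    have hpA := alt_pm A
    have hpB := alt_pm B
    have hF1 : max (alt A true) (alt B false) + 1 ≤ d := hF
    rw [lg_imp] at hcm
    have hcA : Cmt W c (lg s A) := hcm.sub subset_union_left
    have hcB : Cmt W c (lg s B) := hcm.sub subset_union_right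
    have hsA : ∀ S ∈ ax A, S.card ≤ s → S ⊆ D := fun S hS => hsh S (mem_union_left _ hS)
    have hsB : ∀ S ∈ ax B, S.card ≤ s → S ⊆ D := fun S hS => hsh S (mem_union_right _ hS)
    cases b with
    | false =>
      obtain ⟨g1, g2⟩ := tx_impf.1 h1
      have g3 := ihA hcA (by omega) (by omega) hsA g1
      have g4 := ihB hcB (by omega) (by omega) hsB g2
      show (!(A.eval (vl c s x)) || B.eval (vl c s x)) = false
      rw [g3, g4]
      rfl
    | true =>
      by_cases hi : i = false ∧ lx (Fm.imp A B) < thr (alt (Fm.imp A B) true)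
      · have g1 := (tx_impt hi).1 h1
        have g2 : (D ∪ vx (Fm.imp A B)).card ≤ K := by
          have e1 := card_union_le D (vx (Fm.imp A B))
          have e2 := vx_card (Fm.imp A B)
          have e3 := hT _ hF
          omega
        obtain ⟨y, hy1, hy2⟩ := h.extS g2 hc
        rw [← g1 y hy1 hy2]
        refine eval_ax fun S hS => ?_
        unfold vl
        by_cases hSs : S.card ≤ s
        · rw [if_pos hSs]
          exact px_congr fun v hv => (hy1 v (hsh S hS hSs hv)).symm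
        · rw [if_neg hSs]
          refine (hcm S ?_ _ y ((ax_vx hS).trans subset_union_right) hy2).symm
          rw [← lg_imp]
          exact mem_lg.2 ⟨hS, not_le.1 hSs⟩
      · show (!(A.eval (vl c s x)) || B.eval (vl c s x)) = true
        rcases (tx_impn hi).1 h1 with g1 | g1
        · rw [ihA hcA (by omega) (by omega) hsA g1]
          rfl
        · rw [ihB hcB (by omega) (by omega) hsB g1, Bool.or_true]

/-- valid formulas with few occurrences of atoms are not false -/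
theorem ttx_val (h : Wld W K) (hmono : Monotone thr) {F : Fx n} (hcm : Cmt W c (lg s F))
    (hreal : ∀ D y, W D y → ∃ z, (∀ v ∈ D, z v = y v) ∧ ∀ S ∈ lg s F, px z S = c S)
    {D : Finset (Fin n)} {x : Fin n → Bool} (hF : ∀ y : Fin n → Bool, F.eval (px y) = true)
    (hD : D.card + F.leaves * s + thr k ≤ K) (hc : W D x) :
    ¬ TTx W c s thr k D x F false := by
  intro h1
  obtain ⟨E, hE⟩ : ∃ E : Finset (Fin n), E = ((ax F).filter fun S => S.card ≤ s).biUnion id := ⟨_, rfl⟩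
  have hax : (ax F).card ≤ F.leaves := by
    clear hcm hreal hF hD h1 hE
    induction F with
    | var S => exact le_of_eq (card_singleton _)
    | neg A ih => exact ih
    | imp A B ihA ihB => exact (card_union_le _ _).trans (Nat.add_le_add ihA ihB)
  have hEc : E.card ≤ F.leaves * s := by
    rw [hE]
    refine (card_biUnion_le_card_mul _ _ s fun S hS => (mem_filter.1 hS).2).trans ?_
    exact Nat.mul_le_mul_right _ ((card_le_card (filter_subset _ _)).trans hax)
  have hDE := card_union_le D E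
  obtain ⟨y, hy1, hy2⟩ := h.extS (D := D) (S := E) (x := x) (by omega) hc
  have hsh : ∀ S ∈ ax F, S.card ≤ s → S ⊆ D ∪ E := by
    intro S hS hSs
    refine Subset.trans ?_ subset_union_right
    rw [hE]
    exact subset_biUnion_of_mem (s := (ax F).filter fun S => S.card ≤ s) id (mem_filter.2 ⟨hS, hSs⟩)
  have h3 : TTx W c s thr k (D ∪ E) y F false := ttx_mono h subset_union_left hy1 h1
  have h4 := h3 (fun P => P.eval (vl c s y)) (fun P hP a ha => by
    obtain ⟨hp1, hp2⟩ := ps_pc P hP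
    exact tx_vl (d := k) (T := thr k) h (fun l hl => hmono hl) (hcm.sub (ps_lg P hP)) hp1 hp2 (by omega) hy2
      (fun S hS => hsh S (ps_ax P hP hS)) ha)
  rw [evp_eval] at h4
  obtain ⟨z, hz1, hz2⟩ := hreal _ _ hy2
  have h5 : F.eval (vl c s y) = F.eval (px z) := by
    refine eval_ax fun S hS => ?_
    unfold vl
    by_cases hSs : S.card ≤ s
    · rw [if_pos hSs]
      exact px_congr fun v hv => (hz1 v (hsh S hS hSs hv)).symm
    · rw [if_neg hSs]
      exact (hz2 S (mem_lg.2 ⟨hS, not_le.1 hSs⟩)).symm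
  rw [h5, hF z] at h4
  exact Bool.noConfusion h4

/-- resolution on an atom, with weakening -/
theorem ttx_res (h : Wld W K) {A B C : Fx n} (hA : Pc k A) (hB : Pc k B) (hC : Pc k C) {S : Finset (Fin n)}
    (h1 : ∀ p ∈ dj A true, p = (Fm.var S, true) ∨ p ∈ dj C true)
    (h2 : ∀ p ∈ dj B true, p = (Fm.var S, false) ∨ p ∈ dj C true)
    {D : Finset (Fin n)} {x : Fin n → Bool} (hD : D.card + s ≤ K) (hc : W D x)
    (hf : TTx W c s thr k D x C false) :
    ∃ D' y, D ⊆ D' ∧ D'.card ≤ D.card + s ∧ (∀ v ∈ D, y v = x v) ∧ W D' y ∧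
      (TTx W c s thr k D' y A false ∨ TTx W c s thr k D' y B false) := by
  rw [ttx_piece hC, tx_cj] at hf
  have hf' : ∀ p ∈ dj C true, Tx W c s thr D x p.1 (!p.2) false := by
    intro p hp
    have h3 := hf (p.1, !p.2) (cj_dj.1 hp)
    exact h3
  -- the value of the atom
  obtain ⟨D', y, b, g1, g2, g3, g4, g5⟩ : ∃ (D' : Finset (Fin n)) (y : Fin n → Bool) (b : Bool), D ⊆ D' ∧
      D'.card ≤ D.card + s ∧ (∀ v ∈ D, y v = x v) ∧ W D' y ∧ Tx W c s thr D' y (Fm.var S) b false := by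
    by_cases hS : S.card ≤ s
    · have e1 := card_union_le D S
      obtain ⟨y, hy1, hy2⟩ := h.extS (D := D) (S := S) (x := x) (by omega) hc
      refine ⟨D ∪ S, y, px y S, subset_union_left, by omega, hy1, hy2, ?_⟩
      rw [tx_short hS]
      exact lx_full subset_union_right rfl
    · exact ⟨D, x, c S, Subset.refl _, by omega, fun _ _ => rfl, hc, (tx_long hS).2 rfl⟩
  refine ⟨D', y, g1, g2, g3, g4, ?_⟩
  cases b with
  | false =>
    left
    rw [ttx_piece hA, tx_cj]
    intro q hq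
    have e1 : (q.1, !q.2) ∈ dj A true := by
      rw [cj_dj]
      simpa using hq
    rcases h1 _ e1 with e2 | e2
    · have e3 : q.1 = Fm.var S := congrArg Prod.fst e2
      have e4 : (!q.2) = true := congrArg Prod.snd e2
      have e5 : q.2 = false := by simpa using e4
      rw [e3, e5]
      exact g5
    · have e3 := hf' _ e2
      simp only [Bool.not_not] at e3
      exact Tx.mono h g1 g3 e3
  | true =>
    right
    rw [ttx_piece hB, tx_cj]
    intro q hq
    have e1 : (q.1, !q.2) ∈ dj B true := by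
      rw [cj_dj]
      simpa using hq
    rcases h2 _ e1 with e2 | e2
    · have e3 : q.1 = Fm.var S := congrArg Prod.fst e2
      have e4 : (!q.2) = false := congrArg Prod.snd e2
      have e5 : q.2 = true := by simpa using e4
      rw [e3, e5]
      exact g5
    · have e3 := hf' _ e2
      simp only [Bool.not_not] at e3
      exact Tx.mono h g1 g3 e3

end Pool.H86.XP
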