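import Mathlib
import Pool.Agent.H86.XP.TopB
import Pool.Agent.H86.XP.TopC

set_option autoImplicit false
set_option linter.unusedSectionVars false

/-!
# Module CORE (THEOREM LP): the deterministic part, with explicit budgets
-/

namespace Pool.H86.XP

open Finset Classical Pool.Agent.H3.Frg Pool.Agent.H3.Frg2 Pool.Agent.H3.Frg4 Pool.Agent.H55.QT Pool.H6.LD

theorem corex {n K : ℕ} {Con : Wd n} (h : Wld Con K) {Gd : Finset (Finset (Fin n)) → Prop}
    {W : Finset (Finset (Fin n)) → (Finset (Fin n) → Bool) → Wd n} (hW : Cms Con K Gd W)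
    (hGd : ∀ G G', G' ⊆ G → Gd G → Gd G')
    {thr : ℕ → ℕ} (hmono : Monotone thr) (h0 : 2 ≤ thr 0) {k k0 kU kc kd M Wt : ℕ} (hkw : k < thr 0)
    {θ w : ℝ} {q : ℕ}
    (hθ : ∑ i ∈ range k, (thr i : ℝ) / (Nat.log 2 (thr (i + 1)) : ℝ) ^ 2 ≤ θ) (hθ0 : 0 ≤ θ)
    (hkd : θ * Wt + M * thr k ≤ kd) (hT : thr k ≤ kd)
    (hq : 1 ≤ q) (hw : 0 ≤ w) (hall : HitAll Con q kU)
    (hkil : ∀ l : List (Fx n × Bool), lwx k l ≤ 2 * Wt → (∀ p ∈ l, alt p.1 p.2 ≤ k) →
      KlX Con k thr q K kc w l)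
    (hb1 : kU + kc + (kd + thr k) + kc ≤ K) (hb2 : kU + kc + 3 * k0 * kd ≤ K)
    (hb3 : kU + kc + k0 * k + k0 + thr k ≤ K)
    {Γ₁ Γ₂ : Set (Fx n)} (hΓ₁ : ∀ F ∈ Γ₁, lx F ≤ k0 ∧ ∀ y, Con (vx F) y → F.eval (px y) = true)
    (hΓ₂ : ∀ F ∈ Γ₂, F.leaves ≤ k0 ∧ ∀ y : Fin n → Bool, F.eval (px y) = true)
    {Sch : Set (Fm ℕ)} (hS : ∀ ψ ∈ Sch, ψ.len ≤ k0 ∧ ∀ x : ℕ → Bool, ψ.eval x = true)
    {N : ℕ} {pf : Fin N → Fx n} (hpf : DerX k Sch (Γ₁ ∪ Γ₂) pf) (hc : ∃ i j, pf i = Fm.neg (pf j))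
    (hd : ∀ i, Fwx k M Wt (pf i)) (hg : ∀ i j l, Gd (lg k (pf i) ∪ lg k (pf j) ∪ lg k (pf l))) :
    1 / 2 ≤ N * (4 ^ M * w) := by
  by_contra hlt
  push Not at hlt
  have hs : k ≤ thr 0 := hkw.le
  have hK := fun i => ttx_kll hq hw hkil (hd i) false
  choose T hT1 hT2 hT3 using hK
  have hw0 : ∀ t : Tst n, 0 ≤ wt q t := wt_nonneg hq
  obtain ⟨U, x, hU, hx, hhit⟩ := hall ((univ : Finset (Fin N)).biUnion T) (by
    intro t ht
    obtain ⟨i, _, hi⟩ := mem_biUnion.1 ht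
    exact hT1 i t hi) (by
    refine lt_of_le_of_lt ?_ hlt
    have h1 : ∀ S : Finset (Fin N), ∑ t ∈ S.biUnion T, wt q t ≤ ∑ i ∈ S, ∑ t ∈ T i, wt q t := by
      intro S
      induction S using Finset.induction_on with
      | empty => simp
      | insert a S ha ih =>
        rw [biUnion_insert, sum_insert ha]
        have h7 := sum_union_inter (s₁ := T a) (s₂ := S.biUnion T) (f := wt q)
        have h8 : 0 ≤ ∑ t ∈ T a ∩ S.biUnion T, wt q t := sum_nonneg fun t _ => hw0 t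
        linarith
    refine (h1 univ).trans ((sum_le_sum fun i _ => hT2 i).trans ?_)
    rw [sum_const, card_univ, Fintype.card_fin, nsmul_eq_mul])
  have hC := fun i => hT3 i U x fun t ht => hhit t (mem_biUnion.2 ⟨i, mem_univ _, ht⟩)
  -- false lines
  let Fls : Fin N → Prop := fun i => ∃ (G : Finset (Finset (Fin n))) (c : Finset (Fin n) → Bool)
    (D : Finset (Fin n)) (y : Fin n → Bool), lg k (pf i) ⊆ G ∧ Gd G ∧ U ⊆ D ∧ (∀ v ∈ U, y v = x v) ∧ W G c D y ∧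
    D.card ≤ kU + kc + (kd + thr k) ∧ TTx (W G c) c k thr k D y (pf i) false
  have hone : ∀ i, Gd (lg k (pf i)) := fun i => hGd _ _
    (subset_union_left.trans subset_union_left) (hg i i i)
  have hex : ∃ i, Fls i := by
    obtain ⟨i, j, hij⟩ := hc
    obtain ⟨c, _, hWc⟩ := hW.ext ∅ (lg k (pf j)) (fun _ => false) U x (hone j) (empty_subset _) (by omega)
      (hW.emp _ _ _ hx)
    have hwld := hW.wld _ _ _ _ (hone j) hWc
    obtain ⟨D', y, h1, h2, h3, h4, h5⟩ := ttx_dec hwld hmono h0 hkw hs hθ hθ0 hkd (hW.cmt _ c) (hd j)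
      (D := U) (x := x) (by omega) hWc
    rcases h5 with h5 | h5
    · refine ⟨i, lg k (pf j), c, D', y, ?_, hone j, h1, h3, h4, by omega, ?_⟩
      · rw [hij]
        exact Subset.refl _
      · rw [hij]
        exact ttx_neg.2 h5
    · exact ⟨j, lg k (pf j), c, D', y, Subset.refl _, hone j, h1, h3, h4, by omega, h5⟩
  obtain ⟨l, hl, hmin⟩ : ∃ l, Fls l ∧ ∀ i, i < l → ¬ Fls i := by
    obtain ⟨i, hi⟩ := hex
    have hne : (univ.filter fun i => Fls i).Nonempty := ⟨i, mem_filter.2 ⟨mem_univ _, hi⟩⟩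
    refine ⟨(univ.filter fun i => Fls i).min' hne, (mem_filter.1 (min'_mem _ hne)).2, ?_⟩
    intro i hi hF
    have := min'_le (univ.filter fun i => Fls i) i (mem_filter.2 ⟨mem_univ _, hF⟩)
    exact absurd hi (not_lt.2 this)
  obtain ⟨G1, c, D1, y1, hlG1, hgG1, hUD1, hy1, hc1, hcard1, htr1⟩ := hl
  have hwld1 := hW.wld _ _ _ _ hgG1 hc1
  obtain ⟨D, y, hDk, hyy, hcy, htr2⟩ := hC l (W G1 c) c hwld1 (hW.le G1 c) D1 y1 hUD1 hy1 hc1 (by omega) htr1
  -- the line is false in the plain world; forget the other commitments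
  have hcD1 : W G1 c (U ∪ D) y := hwld1.mono _ _ _ (union_subset_union hUD1 subset_rfl) hcy
  have hyU : ∀ v ∈ U, y v = x v := fun v hv => (hyy v (hUD1 hv)).trans (hy1 v hv)
  have htrP : TTx Con c k thr k (U ∪ D) y (pf l) false :=
    ttx_mono h subset_union_right (fun _ _ => rfl) htr2
  have hcard : (U ∪ D).card ≤ kU + kc := (card_union_le _ _).trans (by omega)
  obtain ⟨G, hGdef⟩ : ∃ G, G = lg k (pf l) := ⟨_, rfl⟩
  have hgG : Gd G := by
    rw [hGdef]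
    exact hone l
  have hcD : W G c (U ∪ D) y := hW.res G1 G c c _ _ (by rw [hGdef]; exact hlG1) (fun _ _ => rfl) hcD1
  have hwldG := hW.wld _ _ _ _ hgG hcD
  have hcmG : Cmt (W G c) c (lg k (pf l)) := by
    rw [← hGdef]
    exact hW.cmt G c
  have htrD : TTx (W G c) c k thr k (U ∪ D) y (pf l) false :=
    ttx_le (hW.le G c) (fun _ _ => rfl) htrP
  rcases hpf l with h1 | ⟨ψ, hψ, σ, h1⟩ | ⟨j, k', hj, hk, h1⟩ | ⟨j, k', hj, hk, hpj, hpk, hpl, S, hjS, hkS⟩
  · rcases h1 with h1 | h1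
    · refine ttx_cl hwldG hcmG (fun z hz => (hΓ₁ _ h1).2 z (hW.le _ _ _ _ hz)) ?_ hcD htrD
      have := (hΓ₁ _ h1).1
      omega
    · refine ttx_val hwldG hmono hcmG (fun D' z hz => ?_) (hΓ₂ _ h1).2 ?_ hcD htrD
      · obtain ⟨z', hz1, hz2⟩ := hW.real _ _ _ _ hz
        exact ⟨z', hz1, fun S hS => hz2 S (by rw [hGdef]; exact hS)⟩
      · have h2 := Nat.mul_le_mul_right k (hΓ₂ _ h1).1
        omega
  · have hd1 := hd l
    rw [h1] at htrD hd1 hcmG
    exact ttx_ax hwldG hmono h0 hkw hs hθ hθ0 hkd hT (hS ψ hψ).1 (hS ψ hψ).2 hcmG hd1 (by omega) hcD htrD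
  · have hsub : G ⊆ lg k (pf k') := by
      rw [hGdef, h1, lg_imp]
      exact subset_union_right
    obtain ⟨c', hcc, hWc'⟩ := hW.ext G (lg k (pf k')) c (U ∪ D) y (hone k') hsub (by omega) hcD
    have hwld' := hW.wld _ _ _ _ (hone k') hWc'
    have htr' : TTx (W (lg k (pf k')) c') c' k thr k (U ∪ D) y (pf l) false :=
      ttx_le (hW.le _ c') (fun S hS => hcc S (by rw [hGdef]; exact hS)) htrP
    have hcm' : Cmt (W (lg k (pf k')) c') c' (lg k (.imp (pf j) (pf l))) := by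
      rw [← h1]
      exact hW.cmt _ c'
    obtain ⟨D', y', h2, h3, h4, h5, h6⟩ := ttx_mp hwld' hmono h0 hkw hs hθ hθ0 hkd hcm' (hd j)
      (D := U ∪ D) (x := y) (by omega) hWc' htr'
    have h7 : U ⊆ D' := subset_union_left.trans h2
    have h8 : ∀ v ∈ U, y' v = x v := fun v hv => (h4 v (mem_union_left _ hv)).trans (hyU v hv)
    rcases h6 with h6 | h6
    · refine hmin j hj ⟨lg k (pf k'), c', D', y', ?_, hone k', h7, h8, h5, by omega, h6⟩
      rw [h1, lg_imp]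
      exact subset_union_left
    · refine hmin k' hk ⟨lg k (pf k'), c', D', y', Subset.refl _, hone k', h7, h8, h5, by omega, ?_⟩
      rw [h1] at h6 ⊢
      exact h6
  · obtain ⟨G', hG'⟩ : ∃ G', G' = lg k (pf l) ∪ lg k (pf j) ∪ lg k (pf k') := ⟨_, rfl⟩
    have hgG' : Gd G' := by
      rw [hG']
      exact hg l j k'
    have hsub : G ⊆ G' := by
      rw [hG', hGdef]
      exact subset_union_left.trans subset_union_left
    obtain ⟨c', hcc, hWc'⟩ := hW.ext G G' c (U ∪ D) y hgG' hsub (by omega) hcD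
    have hwld' := hW.wld _ _ _ _ hgG' hWc'
    have htr' : TTx (W G' c') c' k thr k (U ∪ D) y (pf l) false :=
      ttx_le (hW.le _ c') (fun S hS => hcc S (by rw [hGdef]; exact hS)) htrP
    obtain ⟨D', y', h2, h3, h4, h5, h6⟩ := ttx_res hwld' hpj hpk hpl hjS hkS (D := U ∪ D) (x := y)
      (by have := hmono (Nat.zero_le k); omega) hWc' htr'
    have h7 : U ⊆ D' := subset_union_left.trans h2
    have h8 : ∀ v ∈ U, y' v = x v := fun v hv => (h4 v (mem_union_left _ hv)).trans (hyU v hv)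
    have h9 : D'.card ≤ kU + kc + (kd + thr k) := by
      have := hmono (Nat.zero_le k)
      omega
    rcases h6 with h6 | h6
    · refine hmin j hj ⟨G', c', D', y', ?_, hgG', h7, h8, h5, h9, h6⟩
      rw [hG']
      exact subset_union_right.trans subset_union_left
    · refine hmin k' hk ⟨G', c', D', y', ?_, hgG', h7, h8, h5, h9, h6⟩
      rw [hG']
      exact subset_union_right

end Pool.H86.XP
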